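import Pool.Agent.H22.CM.Stm

/-!
# Crew CM: certificates by products of transpositions

`apl l` applies a list of transpositions to a natural number; `chk n mul lf lF` checks that `lf`, `lF` (lists of
transpositions of numbers `< n`) give a complete mapping; the signs are `(-1) ^ length`.
-/

set_option autoImplicit false

namespace H42.CM

open H22.CM Pool.Agent.Y382.PAR

/-- a transposition of natural numbers -/
def sw (a b x : ℕ) : ℕ := if x = a then b else if x = b then a else x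

/-- apply a list of transpositions, the last one first -/
def apl : List (ℕ × ℕ) → ℕ → ℕ
  | [], x => x
  | q :: l, x => sw q.1 q.2 (apl l x)

/-- check of a list of transpositions -/
def okl (n : ℕ) : List (ℕ × ℕ) → Bool
  | [] => true
  | q :: l => (decide (q.1 < n) && decide (q.2 < n) && decide (q.1 ≠ q.2)) && okl n l

/-- the check -/
def chk (n : ℕ) (mul : ℕ → ℕ → ℕ) (lf lF : List (ℕ × ℕ)) : Bool :=
  okl n lf && okl n lF && (List.range n).all fun x => decide (apl lF x = mul x (apl lf x))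

lemma exists_perm (n : ℕ) (l : List (ℕ × ℕ)) (h : okl n l = true) :
    ∃ f : Equiv.Perm (Fin n), (∀ x : Fin n, (f x : ℕ) = apl l x) ∧ sgn f = (-1) ^ l.length := by
  induction l with
  | nil =>
    refine ⟨1, fun x => rfl, ?_⟩
    rw [sgn_eq]
    simp
  | cons q l ih =>
    simp only [okl, Bool.and_eq_true, decide_eq_true_eq] at h
    obtain ⟨⟨⟨h1, h2⟩, h3⟩, h4⟩ := h
    obtain ⟨f, hf, hs⟩ := ih h4
    refine ⟨Equiv.swap ⟨q.1, h1⟩ ⟨q.2, h2⟩ * f, ?_, ?_⟩
    · intro x
      show ((Equiv.swap (⟨q.1, h1⟩ : Fin n) ⟨q.2, h2⟩ (f x) : Fin n) : ℕ) = sw q.1 q.2 (apl l x)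
      rw [← hf x, Equiv.swap_apply_def]
      unfold sw
      by_cases e1 : f x = ⟨q.1, h1⟩
      · rw [if_pos e1, if_pos (by rw [e1])]
      · rw [if_neg e1, if_neg (fun h => e1 (Fin.ext h))]
        by_cases e2 : f x = ⟨q.2, h2⟩
        · rw [if_pos e2, if_pos (by rw [e2])]
        · rw [if_neg e2, if_neg (fun h => e2 (Fin.ext h))]
    · rw [sgn_mul, hs, sgn_eq, Equiv.Perm.sign_swap (fun h => h3 (Fin.mk.inj_iff.1 h)),
        List.length_cons, pow_succ, mul_comm]

lemma of_chk {n : ℕ} {mul : ℕ → ℕ → ℕ} {lf lF : List (ℕ × ℕ)} (h : chk n mul lf lF = true) :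
    ∃ f F : Equiv.Perm (Fin n), (∀ x, (F x : ℕ) = mul x (f x)) ∧ sgn f = (-1) ^ lf.length ∧
      sgn F = (-1) ^ lF.length := by
  simp only [chk, Bool.and_eq_true, List.all_eq_true, List.mem_range, decide_eq_true_eq] at h
  obtain ⟨⟨h1, h2⟩, h3⟩ := h
  obtain ⟨f, hf, hs⟩ := exists_perm n lf h1
  obtain ⟨F, hF, hS⟩ := exists_perm n lF h2
  refine ⟨f, F, fun x => ?_, hs, hS⟩
  rw [hF, hf, h3 x x.2]

/-- the parity of the length -/
def par (l : List (ℕ × ℕ)) : Bool := decide (l.length % 2 = 1)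

lemma pow_par (l : List (ℕ × ℕ)) : ((-1 : ℤˣ)) ^ l.length = if par l then -1 else 1 := by
  unfold par
  rcases Nat.even_or_odd l.length with h | h
  · rw [h.neg_one_pow, if_neg (by simp [Nat.even_iff.1 h])]
  · rw [h.neg_one_pow, if_pos (by simp [Nat.odd_iff.1 h])]

/-- the check of the four certificates -/
def chk4 (n : ℕ) (mul : ℕ → ℕ → ℕ) (c : List (List (ℕ × ℕ) × List (ℕ × ℕ))) : Bool :=
  c.all (fun q => chk n mul q.1 q.2) &&
    [(false, false), (false, true), (true, false), (true, true)].all fun s =>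
      c.any fun q => decide (par q.1 = s.1) && decide (par q.2 = s.2)

theorem opAll_of {n : ℕ} {mul : ℕ → ℕ → ℕ} {c : List (List (ℕ × ℕ) × List (ℕ × ℕ))}
    (h : chk4 n mul c = true) : OpAll n mul := by
  unfold chk4 at h
  rw [Bool.and_eq_true, List.all_eq_true, List.all_eq_true] at h
  obtain ⟨h1, h2⟩ := h
  have key : ∀ s t : Bool, ∃ f F : Equiv.Perm (Fin n), (∀ x, (F x : ℕ) = mul x (f x)) ∧
      sgn f = (if s then -1 else 1) ∧ sgn F = (if t then -1 else 1) := by
    intro s t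
    have h3 := h2 (s, t) (by cases s <;> cases t <;> simp)
    rw [List.any_eq_true] at h3
    obtain ⟨q, hq, h4⟩ := h3
    simp only [Bool.and_eq_true, decide_eq_true_eq] at h4
    obtain ⟨f, F, h5, h6, h7⟩ := of_chk (h1 q hq)
    refine ⟨f, F, h5, ?_, ?_⟩
    · rw [h6, pow_par, h4.1]
    · rw [h7, pow_par, h4.2]
  intro ε δ
  obtain ⟨s, hs⟩ : ∃ s : Bool, ε = if s then -1 else 1 := by
    rcases Int.units_eq_one_or ε with h | h
    · exact ⟨false, by simpa using h⟩
    · exact ⟨true, by simpa using h⟩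
  obtain ⟨t, ht⟩ : ∃ t : Bool, δ = if t then -1 else 1 := by
    rcases Int.units_eq_one_or δ with h | h
    · exact ⟨false, by simpa using h⟩
    · exact ⟨true, by simpa using h⟩
  obtain ⟨f, F, h5, h6, h7⟩ := key s t
  exact ⟨f, F, h5, h6.trans hs.symm, h7.trans ht.symm⟩

theorem opCM_of {n : ℕ} {mul : ℕ → ℕ → ℕ} {lf lF : List (ℕ × ℕ)} (h : chk n mul lf lF = true) :
    OpCM n mul := by
  obtain ⟨f, F, h5, -, -⟩ := of_chk h
  exact ⟨f, F, h5⟩

end H42.CM
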