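import Pool.Agent.H42.CM.Eng

/-! Crew CM, part F16 -/

set_option autoImplicit false

namespace H42.CM

open H22.CM

def cF16_0 : List (List (ℕ × ℕ) × List (ℕ × ℕ)) := [([(0, 4), (0, 13), (0, 14), (0, 1), (0, 12), (0, 10), (0,
  11), (2, 5), (2, 15), (2, 3), (2, 7), (2, 9), (2, 8), (2, 6)], [(0, 2), (0, 7), (0, 5), (0, 11), (1, 8), (1,
  9), (1, 13), (1, 12), (1, 15), (3, 14), (3, 6), (3, 10)]), ([(0, 5), (0, 4), (0, 12), (1, 7), (1, 8), (1,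
  6), (1, 11), (1, 15), (1, 3), (1, 10), (9, 13), (9, 14)], [(0, 7), (0, 9), (0, 11), (0, 1), (0, 4), (0, 2),
  (0, 15), (0, 8), (0, 12), (3, 14), (3, 6), (3, 13), (3, 10)]), ([(0, 14), (0, 2), (0, 3), (0, 9), (0, 1),
  (0, 8), (0, 7), (0, 5), (0, 6), (0, 13), (10, 15), (10, 11), (10, 12)], [(0, 4), (0, 5), (0, 3), (0, 6), (0,
  10), (0, 1), (0, 15), (0, 7), (0, 12), (0, 9), (0, 8), (0, 2), (0, 11), (0, 13)]), ([(0, 3), (0, 11), (0,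
  14), (0, 12), (1, 10), (1, 5), (1, 13), (1, 15), (1, 2), (1, 4), (1, 9), (1, 7), (1, 6)], [(0, 8), (0, 7),
  (0, 1), (0, 14), (0, 11), (0, 10), (0, 13), (0, 9), (0, 2), (0, 12), (4, 15), (4, 5), (4, 6)])]

lemma cF16_0_ok : OpAll 16 (lawF 4 1 0) := opAll_of (c := cF16_0) (by decide +kernel)

def cF16_1 : List (List (ℕ × ℕ) × List (ℕ × ℕ)) := [([(0, 11), (0, 2), (0, 5), (0, 1), (0, 4), (0, 14), (0,
  13), (0, 3), (0, 6), (0, 8), (0, 10), (0, 7), (0, 9), (0, 15)], [(0, 12), (0, 9), (0, 7), (0, 5), (0, 4),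
  (0, 15), (1, 6), (2, 10), (2, 14), (2, 8), (2, 3), (2, 13)]), ([(0, 8), (0, 11), (1, 3), (1, 10), (1, 2),
  (1, 7), (1, 6), (4, 9), (4, 5), (4, 14)], [(0, 12), (0, 2), (0, 15), (0, 14), (0, 5), (0, 6), (0, 13), (0,
  9), (0, 10), (0, 4), (0, 3), (0, 11), (1, 7)]), ([(0, 13), (0, 8), (0, 10), (0, 7), (0, 9), (0, 6), (1, 2),
  (1, 12), (1, 11), (1, 14), (1, 5), (1, 15), (1, 3)], [(0, 4), (0, 1), (0, 8), (0, 15), (0, 6), (2, 10), (2,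
  3), (5, 14), (5, 12), (5, 9), (5, 7), (5, 11)]), ([(1, 12), (3, 8), (3, 4), (3, 15), (3, 14), (3, 9), (3,
  13), (3, 5), (3, 6), (3, 10), (3, 11)], [(1, 14), (1, 3), (1, 6), (1, 7), (1, 9), (1, 12), (1, 4), (1, 2),
  (1, 13), (5, 11), (5, 15), (5, 8), (5, 10)])]

lemma cF16_1_ok : OpAll 16 (lawF 4 5 0) := opAll_of (c := cF16_1) (by decide +kernel)

def cF16_2 : List (List (ℕ × ℕ) × List (ℕ × ℕ)) := [([(0, 1), (0, 11), (0, 9), (0, 14), (0, 2), (0, 13), (0,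
  15), (0, 5), (0, 10), (0, 4), (0, 7), (3, 12)], [(0, 8), (0, 2), (0, 15), (0, 3), (0, 7), (4, 6), (4, 9),
  (4, 12), (4, 5), (4, 14), (10, 11), (10, 13)]), ([(0, 5), (0, 13), (0, 4), (0, 2), (0, 9), (0, 10), (0, 1),
  (0, 6), (0, 12), (0, 14), (0, 7), (0, 11), (0, 15), (0, 3)], [(0, 8), (0, 13), (0, 7), (0, 6), (0, 2), (0,
  14), (0, 12), (0, 11), (0, 1), (0, 10), (0, 3), (4, 15), (4, 9)]), ([(0, 10), (0, 8), (0, 12), (0, 3), (0,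
  9), (0, 2), (0, 5), (0, 14), (0, 15), (0, 1), (0, 13), (4, 7), (4, 6)], [(0, 11), (0, 2), (0, 4), (0, 12),
  (0, 13), (1, 15), (1, 3), (1, 7), (1, 5), (1, 6), (1, 8), (9, 14)]), ([(0, 15), (0, 13), (0, 10), (0, 12),
  (0, 4), (0, 5), (0, 14), (0, 6), (0, 9), (0, 1), (0, 7), (3, 8), (3, 11)], [(0, 7), (1, 5), (1, 10), (2,
  12), (2, 6), (2, 13), (2, 8), (2, 4), (3, 11), (3, 9), (3, 14)])]

lemma cF16_2_ok : OpAll 16 (lawF 4 7 0) := opAll_of (c := cF16_2) (by decide +kernel)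

def cF16_3 : List (List (ℕ × ℕ) × List (ℕ × ℕ)) := [([(0, 4), (0, 8), (0, 9), (0, 2), (0, 6), (0, 12), (0, 5),
  (0, 15), (0, 1), (3, 10), (11, 14), (11, 13)], [(0, 6), (0, 7), (0, 14), (0, 12), (0, 8), (0, 1), (2, 11),
  (3, 13), (5, 9), (10, 15)]), ([(0, 6), (0, 3), (0, 13), (1, 4), (1, 10), (1, 14), (1, 12), (1, 15), (1, 2),
  (5, 8), (5, 7), (5, 11)], [(0, 14), (0, 10), (0, 13), (1, 3), (2, 12), (2, 11), (2, 8), (2, 5), (2, 4), (2,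
  9), (7, 15)]), ([(0, 9), (0, 7), (0, 11), (0, 14), (0, 4), (0, 1), (2, 15), (2, 13), (2, 6), (2, 5), (2, 3),
  (2, 10), (2, 12)], [(0, 3), (0, 5), (0, 1), (2, 13), (2, 15), (2, 10), (2, 4), (2, 8), (2, 7), (2, 14), (6,
  12), (6, 11)]), ([(0, 8), (0, 10), (0, 9), (0, 3), (0, 5), (1, 11), (1, 14), (2, 15), (2, 7), (4, 13), (4,
  6)], [(0, 5), (1, 2), (1, 4), (1, 12), (1, 3), (1, 9), (1, 13), (1, 15), (6, 10), (6, 11), (7, 14)])]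

lemma cF16_3_ok : OpAll 16 (lawF 4 7 4) := opAll_of (c := cF16_3) (by decide +kernel)

def cF16_4 : List (List (ℕ × ℕ) × List (ℕ × ℕ)) := [([(0, 11), (0, 3), (0, 8), (0, 13), (0, 15), (0, 14), (0,
  7), (0, 2), (0, 10), (0, 9), (0, 1), (0, 12)], [(0, 4), (0, 6), (0, 15), (0, 12), (1, 2), (1, 5), (1, 13),
  (1, 7), (1, 9), (1, 8), (1, 10), (3, 14)]), ([(0, 4), (0, 14), (0, 12), (0, 1), (2, 6), (2, 9), (2, 10), (2,
  13), (2, 8), (2, 7), (2, 3), (2, 11), (2, 5), (2, 15)], [(0, 6), (0, 12), (0, 11), (0, 9), (0, 2), (0, 3),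
  (0, 13), (0, 1), (5, 10), (5, 14), (5, 15), (5, 7), (5, 8)]), ([(0, 15), (0, 14), (0, 7), (0, 3), (0, 4),
  (0, 5), (0, 9), (0, 11), (0, 12), (0, 2), (0, 6), (0, 10), (1, 8)], [(0, 6), (0, 11), (0, 8), (0, 9), (0,
  1), (0, 5), (0, 12), (0, 10), (2, 3), (2, 14), (4, 13), (4, 7)]), ([(0, 6), (0, 8), (0, 9), (0, 4), (0, 11),
  (0, 14), (0, 10), (0, 7), (0, 3), (0, 15), (0, 5), (1, 2), (1, 13)], [(0, 12), (0, 5), (1, 9), (1, 7), (1,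
  14), (2, 3), (4, 10), (4, 8), (4, 15), (4, 11), (4, 13)])]

lemma cF16_4_ok : OpAll 16 (lawF 4 3 0) := opAll_of (c := cF16_4) (by decide +kernel)

theorem t_F16 : S_F16 := by
  intro r e h
  rcases h with ⟨rfl, rfl⟩ | ⟨rfl, rfl⟩ | ⟨rfl, rfl⟩ | ⟨rfl, rfl⟩ | ⟨rfl, rfl⟩
  · exact cF16_0_ok
  · exact cF16_1_ok
  · exact cF16_2_ok
  · exact cF16_3_ok
  · exact cF16_4_ok

end H42.CM
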