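import Pool.Agent.H42.CM.Eng

/-! Crew CM, part F32 -/

set_option autoImplicit false

namespace H42.CM

open H22.CM

def cF32_0 : List (List (ℕ × ℕ) × List (ℕ × ℕ)) := [([(0, 20), (0, 30), (0, 11), (0, 8), (0, 13), (0, 1), (0,
  3), (0, 5), (0, 23), (0, 22), (0, 26), (0, 21), (0, 18), (0, 9), (0, 31), (0, 7), (0, 10), (0, 12), (0, 27),
  (0, 16), (0, 15), (0, 17), (0, 25), (0, 4), (0, 29), (0, 28), (0, 6), (0, 24), (0, 2), (0, 19)], [(0, 26),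
  (0, 2), (0, 30), (0, 24), (0, 31), (0, 15), (0, 21), (0, 19), (1, 10), (1, 25), (1, 11), (1, 16), (1, 17),
  (1, 29), (1, 4), (1, 3), (1, 8), (1, 5), (1, 13), (1, 22), (1, 7), (1, 18), (1, 6), (1, 12), (1, 14), (9,
  28), (9, 23), (9, 27)]), ([(0, 19), (0, 3), (0, 6), (0, 10), (0, 4), (0, 13), (0, 9), (0, 1), (0, 23), (0,
  21), (0, 2), (0, 16), (0, 29), (0, 18), (0, 11), (0, 22), (0, 8), (0, 15), (0, 5), (0, 31), (0, 12), (0,
  20), (0, 17), (0, 26), (7, 30), (7, 14), (7, 27), (7, 24)], [(0, 10), (0, 1), (0, 13), (0, 29), (0, 11), (0,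
  26), (2, 25), (2, 27), (2, 12), (2, 21), (2, 30), (2, 8), (2, 28), (2, 14), (2, 4), (2, 5), (2, 17), (2,
  22), (2, 3), (2, 24), (2, 23), (6, 9), (7, 15), (7, 18), (7, 16), (7, 20), (7, 31)]), ([(0, 1), (0, 20), (0,
  10), (0, 31), (0, 30), (0, 27), (0, 2), (0, 25), (0, 9), (0, 12), (0, 19), (0, 4), (0, 16), (0, 28), (0, 7),
  (0, 15), (0, 11), (0, 3), (0, 8), (0, 24), (0, 14), (0, 26), (0, 22), (0, 6), (0, 13), (0, 5), (0, 21), (0,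
  18), (0, 29), (0, 23), (0, 17)], [(0, 22), (0, 14), (0, 3), (0, 13), (0, 30), (0, 10), (0, 11), (0, 8), (0,
  17), (2, 5), (2, 12), (2, 28), (2, 6), (2, 15), (2, 29), (4, 23), (7, 18), (7, 9), (7, 27), (7, 25), (7,
  31), (7, 19), (16, 24), (16, 26), (16, 21), (16, 20)]), ([(0, 22), (0, 27), (0, 23), (0, 19), (0, 5), (0,
  31), (0, 12), (0, 11), (0, 18), (0, 15), (0, 29), (0, 8), (0, 1), (0, 10), (0, 25), (2, 24), (2, 6), (2,
  17), (2, 30), (2, 21), (2, 13), (2, 9), (2, 4), (2, 28), (2, 3)], [(0, 16), (0, 28), (0, 29), (0, 18), (0,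
  13), (0, 4), (0, 26), (0, 24), (0, 5), (0, 2), (0, 23), (0, 17), (0, 15), (0, 30), (0, 6), (0, 9), (0, 1),
  (0, 27), (0, 12), (0, 14), (0, 7), (0, 11), (0, 10), (0, 19), (0, 25), (3, 21), (3, 8), (3, 20), (3, 31)])]

lemma cF32_0_ok : OpAll 32 (lawF 8 1 0) := opAll_of (c := cF32_0) (by decide +kernel)

def cF32_1 : List (List (ℕ × ℕ) × List (ℕ × ℕ)) := [([(0, 26), (0, 29), (0, 1), (0, 12), (0, 2), (0, 17), (0,
  25), (0, 15), (0, 30), (0, 4), (0, 6), (0, 19), (0, 9), (0, 7), (0, 5), (0, 20), (0, 16), (0, 11), (0, 10),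
  (0, 22), (0, 27), (0, 21), (0, 28), (0, 8), (0, 3), (13, 18), (14, 31), (14, 24)], [(0, 7), (0, 29), (0,
  31), (0, 13), (0, 12), (0, 5), (0, 10), (0, 6), (0, 23), (0, 18), (0, 4), (0, 16), (0, 22), (0, 14), (0, 2),
  (0, 25), (0, 19), (0, 17), (0, 20), (0, 8), (0, 21), (0, 30), (0, 1), (0, 27), (0, 11), (0, 3), (9, 28),
  (15, 24)]), ([(0, 21), (0, 1), (0, 10), (0, 7), (0, 8), (0, 24), (0, 22), (0, 16), (0, 14), (0, 2), (0, 6),
  (0, 30), (0, 23), (0, 12), (0, 19), (0, 4), (0, 3), (0, 31), (0, 9), (0, 17), (0, 20), (0, 13), (0, 5), (0,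
  28), (0, 29), (0, 15), (0, 11), (0, 26), (0, 25), (0, 27)], [(0, 2), (0, 5), (0, 23), (0, 4), (0, 18), (0,
  17), (0, 13), (0, 20), (0, 30), (0, 14), (0, 22), (0, 1), (0, 7), (0, 3), (0, 25), (0, 28), (0, 15), (0, 8),
  (0, 6), (0, 16), (0, 24), (0, 9), (0, 29), (0, 26), (0, 31), (0, 19), (0, 12), (0, 27), (10, 11)]), ([(0,
  10), (0, 27), (0, 9), (0, 4), (0, 5), (0, 30), (0, 18), (0, 21), (0, 14), (0, 31), (0, 17), (0, 25), (0,
  15), (0, 23), (0, 2), (0, 1), (0, 24), (0, 29), (0, 28), (3, 12), (3, 20), (3, 6), (3, 16), (3, 7), (3, 13),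
  (3, 26), (3, 8)], [(0, 18), (0, 8), (0, 17), (0, 24), (0, 15), (0, 12), (0, 22), (0, 16), (0, 20), (0, 9),
  (0, 5), (0, 29), (0, 31), (0, 26), (0, 6), (0, 11), (0, 3), (0, 1), (0, 28), (2, 25), (4, 13), (7, 21), (7,
  27), (7, 30), (7, 23), (14, 19)]), ([(0, 10), (0, 6), (0, 12), (0, 15), (0, 18), (0, 2), (0, 29), (0, 4),
  (0, 19), (0, 28), (0, 9), (0, 17), (0, 13), (0, 30), (0, 24), (0, 25), (0, 7), (0, 14), (0, 26), (1, 11),
  (1, 3), (1, 27), (1, 21), (1, 23), (1, 20), (1, 8), (5, 16), (5, 31), (5, 22)], [(0, 6), (0, 24), (0, 26),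
  (1, 25), (1, 18), (1, 17), (1, 4), (1, 23), (1, 19), (1, 30), (1, 13), (1, 22), (1, 27), (1, 5), (1, 14),
  (1, 3), (1, 20), (1, 2), (1, 12), (1, 11), (1, 15), (1, 31), (1, 29), (1, 16), (1, 7), (1, 28), (1, 8), (1,
  21), (1, 9)])]

lemma cF32_1_ok : OpAll 32 (lawF 8 9 0) := opAll_of (c := cF32_1) (by decide +kernel)

def cF32_2 : List (List (ℕ × ℕ) × List (ℕ × ℕ)) := [([(0, 28), (0, 11), (0, 27), (0, 19), (0, 6), (0, 25), (0,
  8), (0, 18), (0, 9), (0, 5), (0, 13), (0, 14), (0, 12), (0, 1), (0, 15), (0, 30), (0, 21), (2, 16), (2, 4),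
  (2, 26), (2, 31), (2, 24), (2, 10), (2, 7), (2, 20), (2, 23), (2, 22), (17, 29)], [(0, 15), (0, 22), (0,
  26), (0, 18), (0, 10), (0, 12), (0, 29), (0, 20), (0, 4), (0, 17), (0, 8), (0, 19), (0, 25), (0, 6), (0, 3),
  (0, 23), (0, 11), (0, 14), (0, 5), (0, 31), (0, 30), (0, 16), (0, 27), (0, 9), (0, 24), (0, 2), (0, 13), (0,
  1), (0, 7), (0, 21)]), ([(1, 13), (1, 2), (1, 11), (1, 25), (1, 28), (1, 30), (1, 4), (1, 20), (1, 21), (1,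
  14), (1, 19), (1, 3), (1, 6), (1, 26), (1, 18), (1, 7), (1, 17), (1, 22), (1, 29), (1, 24), (1, 5), (1, 16),
  (1, 15), (1, 27), (1, 23), (1, 10), (1, 12), (1, 8), (1, 31), (1, 9)], [(1, 21), (1, 19), (1, 14), (1, 13),
  (1, 11), (1, 24), (1, 9), (1, 6), (1, 12), (1, 23), (1, 31), (1, 15), (1, 2), (1, 30), (1, 25), (1, 7), (1,
  29), (1, 5), (1, 22), (1, 3), (1, 28), (1, 27), (1, 16), (1, 20), (1, 26), (1, 17), (1, 10), (4, 8), (4,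
  18)]), ([(0, 13), (0, 28), (0, 14), (0, 18), (0, 22), (1, 11), (1, 30), (1, 16), (1, 12), (1, 7), (1, 3),
  (1, 19), (1, 6), (1, 20), (1, 27), (1, 10), (1, 5), (1, 9), (1, 8), (1, 25), (1, 2), (1, 31), (1, 24), (1,
  15), (1, 17), (1, 23), (21, 26)], [(0, 29), (0, 31), (0, 28), (0, 12), (0, 11), (0, 21), (0, 10), (0, 3),
  (0, 7), (0, 27), (0, 2), (0, 16), (0, 19), (0, 30), (0, 20), (0, 18), (0, 17), (0, 25), (0, 6), (0, 23), (0,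
  15), (0, 5), (0, 26), (0, 14), (0, 9), (0, 24), (0, 1), (0, 8), (0, 4), (0, 22)]), ([(0, 31), (0, 11), (0,
  5), (0, 26), (0, 1), (0, 3), (0, 20), (0, 23), (0, 9), (0, 14), (0, 27), (0, 13), (0, 22), (0, 28), (0, 8),
  (0, 2), (0, 30), (0, 19), (0, 21), (0, 29), (0, 6), (0, 7), (0, 4), (0, 10), (0, 16), (0, 25), (0, 24), (0,
  15), (0, 17), (0, 18), (0, 12)], [(0, 5), (0, 19), (0, 6), (0, 28), (0, 30), (0, 12), (1, 18), (1, 17), (1,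
  20), (1, 8), (1, 29), (1, 27), (2, 21), (2, 26), (2, 11), (2, 4), (2, 3), (2, 23), (2, 15), (2, 24), (2,
  13), (2, 7), (2, 14), (2, 10), (9, 25), (9, 22), (9, 16)])]

lemma cF32_2_ok : OpAll 32 (lawF 8 15 0) := opAll_of (c := cF32_2) (by decide +kernel)

def cF32_3 : List (List (ℕ × ℕ) × List (ℕ × ℕ)) := [([(0, 10), (0, 12), (0, 31), (0, 3), (0, 2), (0, 14), (0,
  6), (0, 20), (0, 27), (0, 5), (0, 13), (0, 15), (0, 21), (0, 30), (0, 17), (0, 4), (0, 9), (0, 16), (0, 22),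
  (0, 23), (0, 18), (0, 11), (0, 19), (0, 8), (0, 28), (1, 26), (1, 25), (7, 24)], [(0, 14), (0, 22), (0, 21),
  (0, 4), (0, 6), (0, 12), (0, 15), (0, 27), (0, 8), (0, 29), (0, 11), (0, 17), (0, 24), (0, 19), (0, 31), (0,
  7), (0, 25), (0, 26), (0, 1), (0, 30), (0, 20), (0, 28), (2, 13), (2, 9), (2, 23), (2, 16), (2, 5), (3,
  18)]), ([(0, 6), (0, 24), (0, 18), (0, 15), (0, 9), (0, 31), (0, 4), (1, 13), (1, 25), (1, 16), (1, 19), (1,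
  20), (1, 12), (1, 17), (1, 26), (1, 14), (1, 7), (1, 27), (1, 29), (1, 21), (1, 5), (1, 2), (1, 10), (1,
  23), (1, 28), (1, 3), (1, 30), (1, 11), (1, 8), (1, 22)], [(0, 21), (0, 17), (0, 15), (0, 16), (0, 12), (0,
  10), (0, 29), (0, 23), (0, 1), (0, 26), (0, 5), (0, 7), (0, 2), (0, 18), (0, 24), (0, 14), (0, 13), (0, 28),
  (0, 25), (0, 11), (0, 19), (0, 4), (3, 8), (3, 9), (3, 20), (3, 27), (3, 30), (3, 22), (3, 31)]), ([(0, 7),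
  (0, 31), (0, 10), (0, 16), (0, 15), (0, 4), (0, 22), (0, 8), (0, 19), (0, 17), (0, 23), (0, 28), (2, 6), (2,
  11), (2, 27), (2, 29), (2, 20), (2, 3), (5, 25), (5, 21), (5, 12), (5, 13), (5, 14), (5, 24), (9, 30), (9,
  18), (9, 26)], [(0, 26), (0, 24), (0, 31), (0, 15), (0, 20), (0, 25), (0, 10), (0, 29), (0, 5), (0, 2), (0,
  1), (0, 11), (0, 14), (0, 23), (0, 3), (0, 4), (0, 21), (0, 30), (0, 8), (0, 6), (0, 17), (0, 12), (0, 18),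
  (0, 22), (0, 16), (0, 27), (0, 19), (0, 9), (0, 13), (0, 28)]), ([(0, 28), (0, 8), (0, 11), (0, 9), (0, 20),
  (0, 23), (0, 30), (1, 22), (1, 19), (1, 15), (1, 24), (1, 14), (1, 29), (1, 6), (1, 3), (1, 7), (1, 5), (1,
  18), (1, 27), (1, 25), (1, 17), (1, 16), (1, 10), (1, 26), (1, 13), (1, 21), (1, 31), (1, 2), (1, 12)], [(0,
  17), (0, 2), (0, 31), (0, 29), (0, 18), (0, 15), (0, 30), (1, 27), (1, 20), (1, 8), (1, 4), (1, 9), (1, 3),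
  (1, 11), (1, 23), (1, 13), (5, 19), (5, 6), (5, 25), (5, 24), (5, 21), (5, 22), (5, 14), (5, 12), (7, 16),
  (7, 26), (7, 10)])]

lemma cF32_3_ok : OpAll 32 (lawF 8 15 8) := opAll_of (c := cF32_3) (by decide +kernel)

def cF32_4 : List (List (ℕ × ℕ) × List (ℕ × ℕ)) := [([(0, 11), (0, 15), (0, 23), (0, 6), (0, 27), (0, 22), (0,
  5), (0, 21), (0, 26), (0, 18), (0, 20), (0, 8), (0, 1), (2, 17), (3, 25), (3, 16), (3, 10), (3, 4), (3, 12),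
  (3, 29), (3, 28), (3, 24), (3, 14), (3, 7), (3, 19), (3, 31), (9, 13), (9, 30)], [(0, 12), (0, 24), (0, 21),
  (0, 27), (0, 5), (0, 7), (0, 28), (0, 8), (0, 18), (0, 3), (0, 22), (0, 14), (0, 4), (0, 31), (0, 17), (0,
  29), (0, 6), (0, 13), (0, 26), (0, 10), (0, 15), (0, 16), (0, 23), (0, 9), (0, 1), (2, 20), (2, 19), (25,
  30)]), ([(0, 17), (0, 2), (0, 26), (0, 6), (0, 29), (0, 5), (0, 19), (0, 23), (0, 28), (0, 18), (0, 11), (0,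
  4), (0, 7), (0, 20), (0, 27), (0, 14), (0, 25), (0, 22), (0, 8), (0, 9), (1, 15), (1, 3), (1, 21), (1, 16),
  (1, 30), (12, 24)], [(0, 15), (0, 4), (0, 10), (0, 13), (0, 28), (0, 24), (0, 26), (0, 21), (0, 20), (0,
  12), (0, 23), (0, 29), (0, 11), (0, 7), (0, 27), (0, 25), (0, 14), (0, 30), (0, 8), (0, 31), (0, 1), (0, 9),
  (2, 3), (2, 16), (2, 6), (2, 18), (2, 5), (2, 22), (2, 19)]), ([(0, 8), (0, 24), (0, 6), (0, 4), (0, 13),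
  (0, 12), (0, 23), (0, 31), (0, 26), (0, 17), (0, 29), (0, 11), (0, 25), (0, 1), (0, 30), (0, 16), (0, 21),
  (0, 7), (0, 15), (0, 27), (0, 2), (0, 9), (0, 20), (0, 19), (0, 14), (3, 10), (3, 28), (5, 22), (5, 18)],
  [(0, 31), (0, 3), (0, 26), (0, 1), (0, 13), (0, 10), (0, 4), (0, 29), (0, 2), (0, 16), (0, 24), (0, 11), (0,
  9), (0, 12), (0, 18), (0, 28), (0, 7), (0, 17), (0, 14), (5, 21), (5, 30), (5, 6), (5, 15), (5, 19), (5,
  20), (5, 27), (5, 23), (22, 25)]), ([(0, 10), (0, 6), (0, 15), (0, 24), (0, 21), (0, 7), (0, 26), (0, 13),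
  (0, 12), (0, 17), (0, 28), (0, 8), (0, 23), (0, 11), (0, 16), (0, 20), (0, 19), (0, 25), (0, 1), (0, 18),
  (0, 4), (0, 2), (3, 27), (3, 30), (3, 5), (9, 31), (22, 29)], [(0, 6), (0, 2), (1, 22), (1, 4), (1, 20), (1,
  8), (1, 3), (1, 28), (1, 7), (1, 29), (1, 16), (1, 27), (1, 26), (5, 15), (5, 19), (9, 12), (9, 14), (9,
  25), (9, 18), (9, 11), (9, 30), (9, 31), (9, 23), (9, 13), (9, 21), (9, 17), (9, 24)])]

lemma cF32_4_ok : OpAll 32 (lawF 8 7 0) := opAll_of (c := cF32_4) (by decide +kernel)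

theorem t_F32 : S_F32 := by
  intro r e h
  rcases h with ⟨rfl, rfl⟩ | ⟨rfl, rfl⟩ | ⟨rfl, rfl⟩ | ⟨rfl, rfl⟩ | ⟨rfl, rfl⟩
  · exact cF32_0_ok
  · exact cF32_1_ok
  · exact cF32_2_ok
  · exact cF32_3_ok
  · exact cF32_4_ok

end H42.CM
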