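import Pool.Agent.H42.CM.Eng

/-! Crew CM, part F8 -/

set_option autoImplicit false

namespace H42.CM

open H22.CM

theorem t_F8 : S_F8 := by
  intro r e h
  rcases h with ⟨rfl, rfl⟩ | ⟨rfl, rfl⟩ | ⟨rfl, rfl⟩ | ⟨rfl, rfl⟩ | ⟨rfl, rfl⟩
  · exact opCM_of (lf := [(0, 7), (0, 2), (0, 3), (0, 1), (0, 5), (0, 6), (0, 4)])
      (lF := [(0, 1), (0, 3), (0, 6), (0, 5), (0, 2), (0, 4)]) (by decide +kernel)
  · exact opCM_of (lf := [(0, 6), (0, 2), (0, 3), (0, 1), (0, 4), (0, 7), (0, 5)])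
      (lF := [(0, 1), (0, 3), (0, 7), (0, 4), (0, 2), (0, 5)]) (by decide +kernel)
  · exact opCM_of (lf := [(0, 4), (0, 6), (0, 7), (0, 3), (0, 1), (0, 2), (0, 5)])
      (lF := [(0, 1), (0, 7), (0, 5), (2, 6), (2, 3)]) (by decide +kernel)
  · exact opCM_of (lf := [(0, 5), (0, 4), (0, 3), (0, 1), (0, 2), (0, 6)])
      (lF := [(0, 1), (0, 4), (0, 6), (2, 7), (2, 3)]) (by decide +kernel)
  · exact opCM_of (lf := [(0, 5), (0, 4), (0, 3), (0, 7), (0, 1), (0, 2)])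
      (lF := [(0, 6), (0, 7), (0, 3), (0, 2), (1, 4)]) (by decide +kernel)

end H42.CM
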