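import Pool.Agent.H22.CM.Stm3

/-! Crew CM, part DC3: the matching of left cosets (Hall's theorem). -/

set_option autoImplicit false

namespace H42.CM

open H22.CM Pool.Agent.Y382.PAR

section

variable {G : Type} [Group G] (H : Subgroup G)

/-- the double coset of a left coset -/
noncomputable def dc (i : G ⧸ H) : DoubleCoset.Quotient (H : Set G) (H : Set G) :=
  DoubleCoset.mk H H i.out

lemma dc_mul_right (x h : G) (hh : h ∈ H) : DoubleCoset.mk H H (x * h) = DoubleCoset.mk H H x := by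
  rw [DoubleCoset.eq]
  exact ⟨1, H.one_mem, h⁻¹, H.inv_mem hh, by group⟩

lemma dc_mul_left (x h : G) (hh : h ∈ H) : DoubleCoset.mk H H (h * x) = DoubleCoset.mk H H x := by
  rw [DoubleCoset.eq]
  exact ⟨h⁻¹, H.inv_mem hh, 1, H.one_mem, by group⟩

lemma out_eq (x : G) : ∃ h ∈ H, (x : G ⧸ H).out = x * h := by
  have h1 : ((x : G ⧸ H).out : G ⧸ H) = (x : G ⧸ H) := QuotientGroup.out_eq' _
  have h2 : (x : G ⧸ H) = ((x : G ⧸ H).out : G ⧸ H) := h1.symm
  rw [QuotientGroup.eq] at h2
  exact ⟨x⁻¹ * (x : G ⧸ H).out, h2, by group⟩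

lemma dc_mk (x : G) : dc H (x : G ⧸ H) = DoubleCoset.mk H H x := by
  obtain ⟨h, hh, e⟩ := out_eq H x
  unfold dc
  rw [e, dc_mul_right H x h hh]

/-- the graph -/
def RR (φ ψ : Equiv.Perm (DoubleCoset.Quotient (H : Set G) (H : Set G))) (i k : G ⧸ H) : Prop :=
  DoubleCoset.mk H H (i.out⁻¹ * k.out) = φ (dc H i) ∧ dc H k = ψ (dc H i)

lemma RR_mk (φ ψ : Equiv.Perm (DoubleCoset.Quotient (H : Set G) (H : Set G))) (x y : G) :
    RR H φ ψ (x : G ⧸ H) (y : G ⧸ H) ↔
      DoubleCoset.mk H H (x⁻¹ * y) = φ (DoubleCoset.mk H H x) ∧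
        DoubleCoset.mk H H y = ψ (DoubleCoset.mk H H x) := by
  unfold RR
  obtain ⟨h, hh, e⟩ := out_eq H x
  obtain ⟨k, hk, e'⟩ := out_eq H y
  rw [dc_mk, dc_mk, e, e']
  have e3 : (x * h)⁻¹ * (y * k) = h⁻¹ * ((x⁻¹ * y) * k) := by group
  rw [e3, dc_mul_left H _ _ (H.inv_mem hh), dc_mul_right H _ _ hk]

lemma dc_smul (g : G) (hg : g ∈ H) (i : G ⧸ H) : dc H (g • i) = dc H i := by
  induction i using QuotientGroup.induction_on with
  | _ x =>
    have e : g • (x : G ⧸ H) = ((g * x : G) : G ⧸ H) := rfl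
    rw [e, dc_mk, dc_mk, dc_mul_left H _ _ hg]

lemma RR_smul (φ ψ : Equiv.Perm (DoubleCoset.Quotient (H : Set G) (H : Set G))) (g : G)
    (hg : g ∈ H) (i k : G ⧸ H) : RR H φ ψ (g • i) (g • k) ↔ RR H φ ψ i k := by
  induction i using QuotientGroup.induction_on with
  | _ x =>
    induction k using QuotientGroup.induction_on with
    | _ y =>
      have e : g • (x : G ⧸ H) = ((g * x : G) : G ⧸ H) := rfl
      have e' : g • (y : G ⧸ H) = ((g * y : G) : G ⧸ H) := rfl
      rw [e, e', RR_mk, RR_mk, dc_mul_left H x g hg, dc_mul_left H y g hg]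
      have e3 : (g * x)⁻¹ * (g * y) = x⁻¹ * y := by group
      rw [e3]

lemma dc_trans (i i' : G ⧸ H) (h : dc H i = dc H i') : ∃ g ∈ H, i' = g • i := by
  induction i using QuotientGroup.induction_on with
  | _ x =>
    induction i' using QuotientGroup.induction_on with
    | _ y =>
      rw [dc_mk, dc_mk, DoubleCoset.eq] at h
      obtain ⟨a, ha, b, hb, e⟩ := h
      refine ⟨a, ha, ?_⟩
      have e' : a • (x : G ⧸ H) = ((a * x : G) : G ⧸ H) := rfl
      rw [e', eq_comm, QuotientGroup.eq, e]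
      have e3 : (a * x)⁻¹ * (a * x * b) = b := by group
      rw [e3]
      exact hb

lemma card_dc [Finite G] (d : DoubleCoset.Quotient (H : Set G) (H : Set G)) :
    Nat.card {x : G // DoubleCoset.mk H H x = d} = Nat.card {i : G ⧸ H // dc H i = d} * Nat.card H := by
  have e1 : ∀ x : G, DoubleCoset.mk H H x = d ↔
      dc H ((Subgroup.groupEquivQuotientProdSubgroup (s := H) x).1) = d := by
    intro x
    have : (Subgroup.groupEquivQuotientProdSubgroup (s := H) x).1 = (x : G ⧸ H) := rfl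
    rw [this, dc_mk]
  rw [← Nat.card_prod]
  refine Nat.card_congr ?_
  refine (Equiv.subtypeEquiv (q := fun p : (G ⧸ H) × H => dc H p.1 = d)
    Subgroup.groupEquivQuotientProdSubgroup e1).trans ?_
  exact
    { toFun := fun p => (⟨p.1.1, p.2⟩, p.1.2)
      invFun := fun q => ⟨(q.1.1, q.2), q.1.2⟩
      left_inv := fun p => rfl
      right_inv := fun q => rfl }

end

theorem t_DC3 : S_DC3 := by
  intro G _ _ H φ ψ hψ hne
  classical
  have : Fintype (G ⧸ H) := Fintype.ofFinite _
  have hsm : ∀ (g : G) (i : G ⧸ H), g⁻¹ • g • i = i := fun g i => inv_smul_smul g i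
  have hsm' : ∀ (g : G) (i : G ⧸ H), g • g⁻¹ • i = i := fun g i => smul_inv_smul g i
  -- sizes
  have hn : ∀ d, (Finset.univ.filter fun k : G ⧸ H => dc H k = ψ d).card =
      (Finset.univ.filter fun i : G ⧸ H => dc H i = d).card := by
    intro d
    have h1 := hψ d
    rw [card_dc, card_dc] at h1
    have h2 := Nat.eq_of_mul_eq_mul_right (Nat.card_pos (α := H)) h1
    rw [Nat.card_eq_fintype_card, Nat.card_eq_fintype_card, Fintype.card_subtype,
      Fintype.card_subtype] at h2
    exact h2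
  set N : G ⧸ H → Finset (G ⧸ H) := fun i => Finset.univ.filter fun k => RR H φ ψ i k with hN
  set M : G ⧸ H → Finset (G ⧸ H) := fun k => Finset.univ.filter fun i => RR H φ ψ i k with hM
  have hNc : ∀ i i', dc H i = dc H i' → (N i).card = (N i').card := by
    intro i i' h
    obtain ⟨g, hg, rfl⟩ := dc_trans H i i' h
    refine Finset.card_bij' (fun k _ => g • k) (fun k _ => g⁻¹ • k) ?_ ?_ ?_ ?_
    · intro k hk
      rw [hN, Finset.mem_filter] at hk ⊢
      exact ⟨Finset.mem_univ _, (RR_smul H φ ψ g hg i k).2 hk.2⟩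
    · intro k hk
      rw [hN, Finset.mem_filter] at hk ⊢
      refine ⟨Finset.mem_univ _, (RR_smul H φ ψ g hg i _).1 ?_⟩
      rw [hsm']
      exact hk.2
    · intro k _
      exact hsm g k
    · intro k _
      exact hsm' g k
  have hMc : ∀ k k', dc H k = dc H k' → (M k).card = (M k').card := by
    intro i i' h
    obtain ⟨g, hg, rfl⟩ := dc_trans H i i' h
    refine Finset.card_bij' (fun k _ => g • k) (fun k _ => g⁻¹ • k) ?_ ?_ ?_ ?_
    · intro k hk
      rw [hM, Finset.mem_filter] at hk ⊢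
      exact ⟨Finset.mem_univ _, (RR_smul H φ ψ g hg k i).2 hk.2⟩
    · intro k hk
      rw [hM, Finset.mem_filter] at hk ⊢
      refine ⟨Finset.mem_univ _, (RR_smul H φ ψ g hg _ i).1 ?_⟩
      rw [hsm']
      exact hk.2
    · intro k _
      exact hsm g k
    · intro k _
      exact hsm' g k
  have hdeg : ∀ i k, RR H φ ψ i k → (N i).card = (M k).card := by
    intro i k hik
    set s := Finset.univ.filter fun i' : G ⧸ H => dc H i' = dc H i with hs
    set t := Finset.univ.filter fun k' : G ⧸ H => dc H k' = ψ (dc H i) with ht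
    have h1 := Finset.sum_card_bipartiteAbove_eq_sum_card_bipartiteBelow (RR H φ ψ) (s := s) (t := t)
    have h2 : ∀ a ∈ s, (Finset.bipartiteAbove (RR H φ ψ) t a).card = (N i).card := by
      intro a ha
      rw [hs, Finset.mem_filter] at ha
      rw [← hNc a i ha.2]
      congr 1
      ext b
      rw [Finset.mem_bipartiteAbove, hN, ht, Finset.mem_filter, Finset.mem_filter]
      constructor
      · rintro ⟨_, h⟩
        exact ⟨Finset.mem_univ _, h⟩
      · rintro ⟨_, h⟩
        refine ⟨⟨Finset.mem_univ _, ?_⟩, h⟩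
        rw [← ha.2]
        exact h.2
    have h3 : ∀ b ∈ t, (Finset.bipartiteBelow (RR H φ ψ) s b).card = (M k).card := by
      intro b hb
      rw [ht, Finset.mem_filter] at hb
      rw [← hMc b k (hb.2.trans hik.2.symm)]
      congr 1
      ext a
      rw [Finset.mem_bipartiteBelow, hM, hs, Finset.mem_filter, Finset.mem_filter]
      constructor
      · rintro ⟨_, h⟩
        exact ⟨Finset.mem_univ _, h⟩
      · rintro ⟨_, h⟩
        refine ⟨⟨Finset.mem_univ _, ?_⟩, h⟩
        apply ψ.injective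
        rw [← h.2, hb.2]
    rw [Finset.sum_congr rfl h2, Finset.sum_congr rfl h3, Finset.sum_const, Finset.sum_const,
      smul_eq_mul, smul_eq_mul, ht, hn, ← hs] at h1
    have h4 : 0 < s.card := by
      apply Finset.card_pos.2
      exact ⟨i, by rw [hs, Finset.mem_filter]; exact ⟨Finset.mem_univ _, rfl⟩⟩
    exact Nat.eq_of_mul_eq_mul_left h4 h1
  have hpos : ∀ i, 0 < (N i).card := by
    intro i
    obtain ⟨x, y, hx, hy, hxy⟩ := hne (dc H i)
    have h1 : RR H φ ψ (x : G ⧸ H) ((x * y : G) : G ⧸ H) := by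
      rw [RR_mk]
      have e : x⁻¹ * (x * y) = y := by group
      rw [e, hx, hy, hxy]
      exact ⟨rfl, rfl⟩
    rw [← hNc (x : G ⧸ H) i (by rw [dc_mk, hx])]
    apply Finset.card_pos.2
    exact ⟨_, by rw [hN, Finset.mem_filter]; exact ⟨Finset.mem_univ _, h1⟩⟩
  -- Hall's condition
  have hall : ∀ A : Finset (G ⧸ H), A.card ≤ (A.biUnion N).card := by
    intro A
    have h1 : (A.card : ℚ) = ∑ i ∈ A, ∑ k ∈ N i, (1 : ℚ) / (M k).card := by
      rw [Finset.cast_card]
      refine Finset.sum_congr rfl fun i _ => ?_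
      have h2 : ∀ k ∈ N i, (1 : ℚ) / (M k).card = 1 / (N i).card := by
        intro k hk
        rw [hN, Finset.mem_filter] at hk
        rw [hdeg i k hk.2]
      rw [Finset.sum_congr rfl h2, Finset.sum_const, nsmul_eq_mul]
      have := hpos i
      field_simp
    have h2 : ∑ i ∈ A, ∑ k ∈ N i, (1 : ℚ) / (M k).card ≤
        ∑ k ∈ A.biUnion N, ∑ i ∈ M k, (1 : ℚ) / (M k).card := by
      rw [Finset.sum_comm' (t' := A.biUnion N) (s' := fun k => (M k).filter (· ∈ A)) (by
        intro i k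
        simp only [hN, hM, Finset.mem_filter, Finset.mem_univ, true_and, Finset.mem_biUnion]
        constructor
        · rintro ⟨h1, h2⟩
          exact ⟨⟨h2, h1⟩, i, h1, h2⟩
        · rintro ⟨⟨h2, h1⟩, _⟩
          exact ⟨h1, h2⟩)]
      refine Finset.sum_le_sum fun k _ => ?_
      exact Finset.sum_le_sum_of_subset_of_nonneg (Finset.filter_subset _ _)
        (fun _ _ _ => by positivity)
    have h3 : ∑ k ∈ A.biUnion N, ∑ i ∈ M k, (1 : ℚ) / (M k).card = (A.biUnion N).card := by
      rw [Finset.cast_card]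
      refine Finset.sum_congr rfl fun k hk => ?_
      rw [Finset.mem_biUnion] at hk
      obtain ⟨i, _, hi⟩ := hk
      have h4 : 0 < (M k).card := by
        apply Finset.card_pos.2
        rw [hN, Finset.mem_filter] at hi
        exact ⟨i, by rw [hM, Finset.mem_filter]; exact ⟨Finset.mem_univ _, hi.2⟩⟩
      rw [Finset.sum_const, nsmul_eq_mul]
      field_simp
    have h4 : (A.card : ℚ) ≤ (A.biUnion N).card := by
      rw [h1, ← h3]
      exact h2
    exact_mod_cast h4
  obtain ⟨f, hf, hfN⟩ := (Finset.all_card_le_biUnion_card_iff_exists_injective N).1 hall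
  refine ⟨Equiv.ofBijective f (Finite.injective_iff_bijective.1 hf), ?_⟩
  intro x y hxy
  have h1 := hfN (x : G ⧸ H)
  rw [hN, Finset.mem_filter] at h1
  have h2 : f (x : G ⧸ H) = (y : G ⧸ H) := hxy
  rw [h2, RR_mk] at h1
  exact ⟨h1.2.2, h1.2.1⟩

end H42.CM
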