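import Pool.Agent.H42.CM.PSL

/-! Crew CM, part PS2: the groups `PSL(2, 2^n)`, `n = 4` or `n ≥ 6`. -/

set_option autoImplicit false

namespace H42.CM

open H22.CM Pool.Agent.Y382.PAR

/-- PS2 -/
def S_PS2 : Prop := ∀ (F : Type) [Field F] [Fintype F] [DecidableEq F], (2 : F) = 0 →
  (Fintype.card F = 16 ∨ 64 ≤ Fintype.card F) →
  AllPar (Matrix.ProjectiveSpecialLinearGroup (Fin 2) F)

/-- from the Borel subgroup to `PSL(2, F)` -/
theorem of_borel (hDTA : S_DTA) (F : Type) [Field F] [Fintype F] [DecidableEq F]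
    (hB : AllPar (Hs F)) : AllPar (Matrix.ProjectiveSpecialLinearGroup (Fin 2) F) := by
  have hw : pj F (mk2 0 1 (-1) 0 (by ring)) ∉ Hs F := by
    rw [mem_Hs]
    show (-1 : F) ≠ 0
    simp
  have : Finite (Matrix.ProjectiveSpecialLinearGroup (Fin 2) F) := inferInstance
  refine hDTA _ (Hs F) (pj F (mk2 0 1 (-1) 0 (by ring))) hw ?_ ?_ hB
  · intro x hx
    obtain ⟨M, rfl⟩ := pj_surj x
    rw [mem_Hs] at hx
    obtain ⟨A, hA, C, hC, e⟩ := bruhat M hx
    refine ⟨pj F A, ⟨A, hA, rfl⟩, pj F C, ⟨C, hC, rfl⟩, ?_⟩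
    rw [← map_mul, ← map_mul, ← e]
  · by_contra hi
    have h0 : (Hs F).index ≠ 0 := Subgroup.index_ne_zero_of_finite
    have h12 : (Hs F).index = 1 ∨ (Hs F).index = 2 := by omega
    rcases h12 with h1 | h2
    · rw [Subgroup.index_eq_one] at h1
      rw [h1] at hw
      exact hw (Subgroup.mem_top _)
    · have hn := Subgroup.normal_of_index_eq_two h2
      have h4 := hn.conj_mem (pj F (mk2 1 1 0 1 (by ring))) ((mem_Hs _).2 rfl)
        (pj F (mk2 0 1 (-1) 0 (by ring)))
      rw [← map_inv, ← map_mul, ← map_mul, mem_Hs, mul10, mul10, mul11,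
        Matrix.SpecialLinearGroup.SL2_inv_expl] at h4
      simp [mk2] at h4

section

variable {F : Type} [Field F]

/-- in characteristic 2 the projection is injective -/
lemma pj_inj (h2 : (2 : F) = 0) : Function.Injective (pj F) := by
  rw [injective_iff_map_eq_one]
  intro M hM
  rw [pj_one, center2] at hM
  obtain ⟨h01, h10, h00⟩ := hM
  have hd := det2 M
  rw [h01, ← h00] at hd
  have h1 : (M.1 0 0 - 1) * (M.1 0 0 - 1) = 0 := by
    linear_combination hd + (1 - M.1 0 0) * h2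
  have h3 : M.1 0 0 = 1 := by
    rcases mul_eq_zero.1 h1 with h | h <;> exact sub_eq_zero.1 h
  refine ext2 ?_ ?_ ?_ ?_
  · rw [h3]; rfl
  · rw [h01]; rfl
  · rw [h10]; rfl
  · rw [← h00, h3]; rfl

/-- unipotent elements -/
def uni (F : Type) [Field F] : Multiplicative F →* Hs F where
  toFun b := ⟨pj F (mk2 1 b.toAdd 0 1 (by ring)), (mem_Hs _).2 rfl⟩
  map_one' := by
    apply Subtype.ext
    show pj F _ = 1
    rw [← map_one (pj F)]
    congr 1
    exact ext2 rfl rfl rfl rfl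
  map_mul' := by
    intro b c
    apply Subtype.ext
    show pj F _ = pj F _ * pj F _
    rw [← map_mul]
    congr 1
    refine ext2 ?_ ?_ ?_ ?_
    · rw [mul00]; show (1 : F) = 1 * 1 + b.toAdd * 0; ring
    · rw [mul01]; show b.toAdd + c.toAdd = 1 * c.toAdd + b.toAdd * 1; ring
    · rw [mul10]; show (0 : F) = 0 * 1 + 1 * 0; ring
    · rw [mul11]; show (1 : F) = 0 * c.toAdd + 1 * 1; ring

/-- diagonal elements -/
def dia (F : Type) [Field F] : Fˣ →* Hs F where
  toFun a := ⟨pj F (mk2 (a : F) 0 0 ((a⁻¹ : Fˣ) : F) (by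
    rw [Units.mul_inv]; ring)), (mem_Hs _).2 rfl⟩
  map_one' := by
    apply Subtype.ext
    show pj F _ = 1
    rw [← map_one (pj F)]
    congr 1
    refine ext2 ?_ rfl rfl ?_
    · show ((1 : Fˣ) : F) = 1
      rfl
    · show (((1 : Fˣ)⁻¹ : Fˣ) : F) = 1
      rw [inv_one]
      rfl
  map_mul' := by
    intro a c
    apply Subtype.ext
    show pj F _ = pj F _ * pj F _
    rw [← map_mul]
    congr 1
    refine ext2 ?_ ?_ ?_ ?_
    · rw [mul00]
      show ((a * c : Fˣ) : F) = (a : F) * c + 0 * 0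
      rw [Units.val_mul]; ring
    · rw [mul01]; show (0 : F) = (a : F) * 0 + 0 * _; ring
    · rw [mul10]; show (0 : F) = 0 * (c : F) + _ * 0; ring
    · rw [mul11]
      show (((a * c)⁻¹ : Fˣ) : F) = 0 * 0 + ((a⁻¹ : Fˣ) : F) * ((c⁻¹ : Fˣ) : F)
      rw [mul_inv, Units.val_mul]; ring

lemma uni_inj (h2 : (2 : F) = 0) : Function.Injective (uni F) := by
  intro b c hbc
  have h1 := pj_inj h2 (congrArg Subtype.val hbc)
  have h3 := congrArg (fun M : SL2 F => M.1 0 1) h1
  exact h3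

lemma dia_inj (h2 : (2 : F) = 0) : Function.Injective (dia F) := by
  intro b c hbc
  have h1 := pj_inj h2 (congrArg Subtype.val hbc)
  have h3 := congrArg (fun M : SL2 F => M.1 0 0) h1
  exact Units.ext h3

/-- coordinates on the Borel subgroup -/
lemma card_borel (h2 : (2 : F) = 0) : Nat.card (Hs F) = Nat.card Fˣ * Nat.card F := by
  rw [← Nat.card_prod]
  refine (Nat.card_congr (Equiv.ofBijective (fun q : Fˣ × F =>
    (⟨pj F (mk2 (q.1 : F) q.2 0 ((q.1⁻¹ : Fˣ) : F) (by rw [Units.mul_inv]; ring)),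
      (mem_Hs _).2 rfl⟩ : Hs F)) ⟨?_, ?_⟩)).symm
  · intro b c hbc
    have h1 := pj_inj h2 (congrArg Subtype.val hbc)
    have h3 := congrArg (fun M : SL2 F => M.1 0 0) h1
    have h4 := congrArg (fun M : SL2 F => M.1 0 1) h1
    exact Prod.ext (Units.ext h3) h4
  · rintro ⟨x, hx⟩
    obtain ⟨M, rfl⟩ := pj_surj x
    have h10 : M.1 1 0 = 0 := (mem_Hs M).1 hx
    have hd := det2 M
    rw [h10, mul_zero, sub_zero] at hd
    refine ⟨(⟨M.1 0 0, M.1 1 1, hd, by rw [mul_comm]; exact hd⟩, M.1 0 1), ?_⟩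
    apply Subtype.ext
    show pj F _ = pj F M
    congr 1
    exact ext2 rfl rfl h10.symm rfl

end

theorem t_PS2 (hDTA : S_DTA) (hCOM : S_COM) : S_PS2 := by
  intro F _ _ _ h2 hc
  have hchar : CharP F 2 := by
    apply CharTwo.of_one_ne_zero_of_two_eq_zero one_ne_zero h2
  obtain ⟨n, -, hn⟩ := FiniteField.card F 2
  apply of_borel hDTA F
  have hP : Nat.card (uni F).range = Fintype.card F := by
    rw [← Nat.card_eq_fintype_card]
    exact (Nat.card_congr (MonoidHom.ofInjective (uni_inj h2)).toEquiv).symm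
  have hK : Nat.card (dia F).range = Nat.card Fˣ :=
    (Nat.card_congr (MonoidHom.ofInjective (dia_inj h2)).toEquiv).symm
  have hq : 16 ≤ Fintype.card F := by omega
  refine hCOM (Hs F) (dia F).range (uni F).range ?_ ?_ ?_ ?_ ?_
  · rw [hK, Nat.card_eq_fintype_card, Fintype.card_units, hn]
    obtain ⟨m, hm⟩ : ∃ m, (n : ℕ) = m + 1 := Nat.exists_eq_succ_of_ne_zero n.ne_zero
    rw [hm, pow_succ]
    have : 0 < 2 ^ m := by positivity
    rw [Nat.odd_iff]
    omega
  · exact IsPGroup.of_card (n := n) (by rw [hP, hn])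
  · rw [hK, hP, card_borel h2, Nat.card_eq_fintype_card (α := F)]
  · intro hcyc
    obtain ⟨g, hg⟩ := hcyc.exists_generator
    have h3 : orderOf g = Nat.card (uni F).range := orderOf_eq_card_of_forall_mem_zpowers hg
    have h4 : g ^ 2 = 1 := by
      obtain ⟨x, b, rfl⟩ := g
      apply Subtype.ext
      show (uni F b) ^ 2 = 1
      rw [← map_pow]
      have : b ^ 2 = 1 := by
        show Multiplicative.ofAdd (2 • b.toAdd) = 1
        rw [two_nsmul, ← two_mul, h2, zero_mul]
        rfl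
      rw [this, map_one]
    have h5 := Nat.le_of_dvd (by norm_num) (orderOf_dvd_of_pow_eq_one h4)
    omega
  · rw [hP]
    exact hc

end H42.CM
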