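import Pool.Agent.H22.CM.Stm2
import Pool.Graph.R_seed8.Results.MP_281388_al.OddOrder

/-! Crew CM, part PSL: the groups `PSL(2, q)`, `q = 3 mod 4`. -/

set_option autoImplicit false

namespace H42.CM

open H22.CM Pool.Agent.Y382.PAR

/-- `SL(2, F)` -/
abbrev SL2 (F : Type) [Field F] := Matrix.SpecialLinearGroup (Fin 2) F

section

variable {F : Type} [Field F]

/-- matrices given by their entries -/
def mk2 (a b c d : F) (h : a * d - b * c = 1) : SL2 F :=
  ⟨!![a, b; c, d], by rw [Matrix.det_fin_two_of]; exact h⟩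

lemma mul10 (M N : SL2 F) : (M * N).1 1 0 = M.1 1 0 * N.1 0 0 + M.1 1 1 * N.1 1 0 := by
  rw [Matrix.SpecialLinearGroup.coe_mul, Matrix.mul_apply, Fin.sum_univ_two]

lemma mul00 (M N : SL2 F) : (M * N).1 0 0 = M.1 0 0 * N.1 0 0 + M.1 0 1 * N.1 1 0 := by
  rw [Matrix.SpecialLinearGroup.coe_mul, Matrix.mul_apply, Fin.sum_univ_two]

lemma mul01 (M N : SL2 F) : (M * N).1 0 1 = M.1 0 0 * N.1 0 1 + M.1 0 1 * N.1 1 1 := by
  rw [Matrix.SpecialLinearGroup.coe_mul, Matrix.mul_apply, Fin.sum_univ_two]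

lemma mul11 (M N : SL2 F) : (M * N).1 1 1 = M.1 1 0 * N.1 0 1 + M.1 1 1 * N.1 1 1 := by
  rw [Matrix.SpecialLinearGroup.coe_mul, Matrix.mul_apply, Fin.sum_univ_two]

lemma det2 (M : SL2 F) : M.1 0 0 * M.1 1 1 - M.1 0 1 * M.1 1 0 = 1 := by
  rw [← Matrix.det_fin_two]
  exact M.2

lemma inv10 (M : SL2 F) : (M⁻¹).1 1 0 = - M.1 1 0 := by
  rw [Matrix.SpecialLinearGroup.SL2_inv_expl]
  rfl

lemma ext2 {M N : SL2 F} (h00 : M.1 0 0 = N.1 0 0) (h01 : M.1 0 1 = N.1 0 1)
    (h10 : M.1 1 0 = N.1 1 0) (h11 : M.1 1 1 = N.1 1 1) : M = N := by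
  apply Subtype.ext
  ext i j
  fin_cases i <;> fin_cases j
  · exact h00
  · exact h01
  · exact h10
  · exact h11

lemma center2 (M : SL2 F) : M ∈ Subgroup.center (SL2 F) ↔
    M.1 0 1 = 0 ∧ M.1 1 0 = 0 ∧ M.1 0 0 = M.1 1 1 := by
  constructor
  · intro h
    have h1 := Matrix.SpecialLinearGroup.scalar_eq_self_of_mem_center h 0
    refine ⟨?_, ?_, ?_⟩
    · rw [← h1]
      simp
    · rw [← h1]
      simp
    · have h2 := congrFun (congrFun h1 1) 1
      rw [← h2]
      simp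
  · rintro ⟨h1, h2, h3⟩
    rw [Subgroup.mem_center_iff]
    intro g
    refine ext2 ?_ ?_ ?_ ?_
    · rw [mul00, mul00, h1, h2]; ring
    · rw [mul01, mul01, h1, h3]; ring
    · rw [mul10, mul10, h2, h3]; ring
    · rw [mul11, mul11, h1, h2]; ring

/-- upper triangular matrices -/
def Bs (F : Type) [Field F] : Subgroup (SL2 F) where
  carrier := {M | M.1 1 0 = 0}
  mul_mem' := by
    intro M N hM hN
    show (M * N).1 1 0 = 0
    have hM' : M.1 1 0 = 0 := hM
    have hN' : N.1 1 0 = 0 := hN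
    rw [mul10, hM', hN']
    ring
  one_mem' := by
    show (1 : SL2 F).1 1 0 = 0
    simp
  inv_mem' := by
    intro M hM
    show (M⁻¹).1 1 0 = 0
    have hM' : M.1 1 0 = 0 := hM
    rw [inv10, hM', neg_zero]

/-- the projection -/
def pj (F : Type) [Field F] : SL2 F →* Matrix.ProjectiveSpecialLinearGroup (Fin 2) F :=
  QuotientGroup.mk' (Subgroup.center (SL2 F))

lemma pj_surj : Function.Surjective (pj F) := QuotientGroup.mk'_surjective _

lemma pj_eq (M N : SL2 F) : pj F M = pj F N ↔ M⁻¹ * N ∈ Subgroup.center (SL2 F) :=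
  QuotientGroup.eq

lemma pj_one (M : SL2 F) : pj F M = 1 ↔ M ∈ Subgroup.center (SL2 F) :=
  QuotientGroup.eq_one_iff M

/-- the Borel subgroup -/
def Hs (F : Type) [Field F] : Subgroup (Matrix.ProjectiveSpecialLinearGroup (Fin 2) F) :=
  (Bs F).map (pj F)

lemma mem_Hs (M : SL2 F) : pj F M ∈ Hs F ↔ M.1 1 0 = 0 := by
  constructor
  · rintro ⟨N, hN, h⟩
    rw [pj_eq, center2] at h
    have hN' : N.1 1 0 = 0 := hN
    have e : M = N * (N⁻¹ * M) := by group
    rw [e, mul10, hN', h.2.1]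
    ring
  · intro h
    exact ⟨M, h, rfl⟩

lemma bruhat (M : SL2 F) (h : M.1 1 0 ≠ 0) : ∃ A ∈ Bs F, ∃ C ∈ Bs F,
    M = A * mk2 0 1 (-1) 0 (by ring) * C := by
  have hd := det2 M
  refine ⟨mk2 1 (M.1 0 0 / M.1 1 0) 0 1 (by ring), rfl,
    mk2 (-M.1 1 0) (-M.1 1 1) 0 (-(M.1 1 0)⁻¹) (by field_simp; ring), rfl, ?_⟩
  refine ext2 ?_ ?_ ?_ ?_
  · rw [mul00, mul00, mul01]
    simp [mk2]
    field_simp
  · rw [mul01, mul00, mul01]
    simp [mk2]
    field_simp
    linear_combination -hd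
  · rw [mul10, mul10, mul11]
    simp [mk2]
  · rw [mul11, mul10, mul11]
    simp [mk2]

end

section

variable {F : Type} [Field F] [Fintype F] [DecidableEq F]

lemma two_ne {F : Type} [Field F] [Fintype F] (h : Fintype.card F % 4 = 3) : (2 : F) ≠ 0 := by
  intro h2
  have h1 : ¬ IsSquare (-1 : F) := by
    rw [FiniteField.isSquare_neg_one_iff]
    omega
  apply h1
  refine ⟨1, ?_⟩
  have h3 : (1 : F) + 1 = 0 := by
    rw [one_add_one_eq_two]
    exact h2
  linear_combination -h3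

lemma odd_Hs {F : Type} [Field F] [Fintype F] (h : Fintype.card F % 4 = 3) :
    Odd (Nat.card (Hs F)) := by
  classical
  have h2 := two_ne h
  have h1 : ¬ IsSquare (-1 : F) := by
    rw [FiniteField.isSquare_neg_one_iff]
    omega
  by_contra hodd
  rw [Nat.not_odd_iff_even, even_iff_two_dvd] at hodd
  have : Finite (Matrix.ProjectiveSpecialLinearGroup (Fin 2) F) := inferInstance
  have : Fact (Nat.Prime 2) := ⟨Nat.prime_two⟩
  obtain ⟨x, hx⟩ := exists_prime_orderOf_dvd_card' 2 hodd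
  obtain ⟨x, hxH⟩ := x
  obtain ⟨M, rfl⟩ := pj_surj x
  have hM : M.1 1 0 = 0 := (mem_Hs M).1 hxH
  have hsq : pj F (M * M) = 1 := by
    have h3 := pow_orderOf_eq_one (⟨pj F M, hxH⟩ : Hs F)
    rw [hx] at h3
    have h4 := congrArg Subtype.val h3
    rw [map_mul, ← pow_two]
    exact h4
  have hne : pj F M ≠ 1 := by
    intro h3
    have h4 : (⟨pj F M, hxH⟩ : Hs F) = 1 := Subtype.ext h3
    rw [h4, orderOf_one] at hx
    omega
  rw [pj_one, center2, mul01, mul00, mul11, mul10, hM] at hsq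
  obtain ⟨e1, -, e2⟩ := hsq
  have hd := det2 M
  rw [hM] at hd
  apply hne
  rw [pj_one, center2]
  have e3 : (M.1 0 0 * M.1 0 0 - 1) * (M.1 0 0 * M.1 0 0 + 1) = 0 := by
    linear_combination (M.1 0 0 * M.1 0 0) * e2 + (M.1 0 0 * M.1 1 1 + 1) * hd
  rcases mul_eq_zero.1 e3 with e4 | e4
  · have ha : M.1 0 0 ≠ 0 := by
      intro h0
      rw [h0] at e4
      simp at e4
    have e5 : M.1 0 0 = M.1 1 1 := by
      apply mul_left_cancel₀ ha
      linear_combination e4 - hd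
    refine ⟨?_, hM, e5⟩
    rw [← e5] at e1
    have e6 : M.1 0 1 * (2 * M.1 0 0) = 0 := by linear_combination e1
    exact (mul_eq_zero.1 e6).resolve_right (mul_ne_zero h2 ha)
  · exfalso
    apply h1
    exact ⟨M.1 0 0, by linear_combination -e4⟩

lemma card_Hs {F : Type} [Field F] [Fintype F] : Fintype.card F ≤ Nat.card (Hs F) := by
  classical
  have : Finite (Matrix.ProjectiveSpecialLinearGroup (Fin 2) F) := inferInstance
  rw [← Nat.card_eq_fintype_card]
  refine Nat.card_le_card_of_injective (fun b : F =>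
    (⟨pj F (mk2 1 b 0 1 (by ring)), (mem_Hs _).2 rfl⟩ : Hs F)) ?_
  intro b c hbc
  have h1 : pj F (mk2 1 b 0 1 (by ring)) = pj F (mk2 1 c 0 1 (by ring)) :=
    congrArg Subtype.val hbc
  rw [pj_eq, center2] at h1
  have h2 := h1.1
  rw [mul01, Matrix.SpecialLinearGroup.SL2_inv_expl] at h2
  have h3 : (1 : F) * c + (-b) * 1 = 0 := h2
  linear_combination -h3

theorem t_PSL (hDTA : S_DTA) : S_PSL := by
  intro F _ _ _ h3 h7
  have hw : pj F (mk2 0 1 (-1) 0 (by ring)) ∉ Hs F := by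
    rw [mem_Hs]
    show (-1 : F) ≠ 0
    simp
  have hodd := odd_Hs (F := F) h3
  have hcard := card_Hs (F := F)
  have : Finite (Matrix.ProjectiveSpecialLinearGroup (Fin 2) F) := inferInstance
  refine hDTA _ (Hs F) (pj F (mk2 0 1 (-1) 0 (by ring))) hw ?_ ?_ ?_
  · intro x hx
    obtain ⟨M, rfl⟩ := pj_surj x
    rw [mem_Hs] at hx
    obtain ⟨A, hA, C, hC, e⟩ := bruhat M hx
    refine ⟨pj F A, ⟨A, hA, rfl⟩, pj F C, ⟨C, hC, rfl⟩, ?_⟩
    rw [← map_mul, ← map_mul, ← e]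
  · by_contra hi
    have h0 : (Hs F).index ≠ 0 := Subgroup.index_ne_zero_of_finite
    have h12 : (Hs F).index = 1 ∨ (Hs F).index = 2 := by omega
    rcases h12 with h1 | h2
    · rw [Subgroup.index_eq_one] at h1
      rw [h1] at hw
      exact hw (Subgroup.mem_top _)
    · have hn := Subgroup.normal_of_index_eq_two h2
      have h4 := hn.conj_mem (pj F (mk2 1 1 0 1 (by ring))) ((mem_Hs _).2 rfl)
        (pj F (mk2 0 1 (-1) 0 (by ring)))
      rw [← map_inv, ← map_mul, ← map_mul, mem_Hs, mul10, mul10, mul11,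
        Matrix.SpecialLinearGroup.SL2_inv_expl] at h4
      simp [mk2] at h4
  · rw [Pool.Agent.Results.MP_281388_al.OddOrder.main _ hodd]
    omega

end

end H42.CM
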