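import Pool.Agent.H42.CM.Eng

/-! Crew CM, part V72 -/

set_option autoImplicit false

namespace H42.CM

open H22.CM

def v0000 : List (List (ℕ × ℕ) × List (ℕ × ℕ)) := [([(0, 8), (0, 2), (0, 15), (0, 13), (0, 9), (0, 6), (0, 3),
  (0, 10), (0, 1), (0, 7), (0, 4), (0, 5), (0, 11), (0, 12)], [(0, 14), (0, 11), (0, 1), (0, 5), (0, 3), (0,
  4), (0, 9), (0, 10), (0, 2), (0, 13), (0, 15), (0, 6), (0, 7), (0, 12)]), ([(0, 8), (0, 13), (0, 3), (0, 2),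
  (0, 15), (0, 9), (0, 6), (0, 10), (0, 1), (0, 5), (0, 12), (0, 14), (0, 4), (0, 7)], [(0, 11), (0, 1), (0,
  2), (0, 14), (0, 3), (0, 7), (4, 5), (4, 13), (4, 15), (4, 6), (4, 9), (4, 12), (4, 10)]), ([(0, 10), (0,
  15), (0, 1), (0, 12), (0, 11), (0, 9), (0, 6), (0, 7), (0, 3), (0, 8), (2, 14), (2, 13), (2, 4)], [(0, 5),
  (0, 15), (0, 6), (0, 2), (0, 9), (0, 4), (0, 3), (0, 13), (0, 12), (0, 14), (0, 1), (0, 7), (0, 11), (0,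
  8)]), ([(0, 4), (0, 13), (0, 5), (0, 11), (0, 7), (0, 2), (1, 10), (1, 12), (1, 15), (1, 14), (1, 3), (1,
  9), (1, 6)], [(0, 8), (0, 5), (0, 2), (1, 14), (1, 11), (1, 10), (1, 9), (1, 13), (1, 3), (1, 15), (1, 6),
  (1, 12), (1, 7)])]

lemma v0000_ok : OpAll 16 (law16 0 0 0 0) := opAll_of (c := v0000) (by decide +kernel)

def v0001 : List (List (ℕ × ℕ) × List (ℕ × ℕ)) := [([(0, 14), (0, 3), (0, 7), (0, 10), (0, 9), (0, 6), (0,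
  13), (0, 11), (0, 2), (0, 4), (0, 5), (0, 15), (0, 12), (0, 8)], [(0, 1), (0, 5), (0, 8), (2, 12), (2, 10),
  (2, 13), (2, 3), (2, 9), (4, 7), (4, 11), (4, 15), (4, 6)]), ([(1, 5), (1, 10), (1, 11), (1, 7), (1, 4), (1,
  12), (1, 6), (1, 15), (1, 8), (1, 13), (1, 2), (1, 9), (1, 14), (1, 3)], [(1, 11), (1, 9), (1, 12), (1, 7),
  (1, 14), (1, 10), (1, 6), (1, 8), (1, 15), (1, 2), (3, 4), (3, 5), (3, 13)]), ([(0, 12), (0, 14), (1, 6),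
  (1, 10), (1, 8), (1, 7), (1, 2), (1, 11), (1, 3), (1, 5), (4, 15)], [(0, 9), (0, 11), (0, 4), (0, 1), (0,
  13), (0, 10), (0, 15), (0, 7), (0, 6), (0, 5), (0, 2), (0, 8), (0, 3), (0, 14)]), ([(0, 1), (0, 7), (0, 8),
  (0, 11), (0, 3), (0, 10), (0, 14), (0, 2), (0, 5), (0, 9), (0, 12), (0, 13), (0, 6), (0, 4), (0, 15)], [(0,
  13), (0, 9), (0, 10), (0, 15), (2, 4), (2, 14), (2, 8), (2, 3), (2, 11), (2, 6), (2, 7), (2, 5), (2, 12)])]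

lemma v0001_ok : OpAll 16 (law16 0 0 0 1) := opAll_of (c := v0001) (by decide +kernel)

def v0002 : List (List (ℕ × ℕ) × List (ℕ × ℕ)) := [([(0, 8), (0, 2), (0, 15), (0, 1), (0, 7), (0, 6), (0, 4),
  (0, 9), (0, 13), (0, 10), (0, 3), (5, 11), (5, 12), (5, 14)], [(0, 14), (0, 1), (0, 6), (0, 7), (0, 12), (0,
  11), (0, 5), (0, 10), (0, 2), (0, 4), (0, 13), (0, 15), (0, 9), (0, 3)]), ([(0, 13), (0, 15), (0, 9), (0,
  10), (0, 5), (0, 7), (0, 12), (0, 2), (0, 3), (0, 11), (1, 6), (1, 8), (1, 14), (1, 4)], [(0, 15), (0, 5),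
  (0, 1), (0, 3), (0, 10), (0, 4), (0, 9), (0, 12), (0, 8), (0, 11), (2, 7), (2, 6), (2, 14)]), ([(0, 10), (0,
  15), (0, 11), (0, 4), (0, 13), (0, 8), (1, 5), (1, 14), (1, 2), (6, 9), (6, 7)], [(0, 3), (0, 1), (0, 6),
  (0, 11), (0, 13), (0, 9), (0, 14), (0, 7), (0, 8), (2, 12), (4, 5), (4, 15)]), ([(0, 3), (0, 6), (0, 10),
  (1, 14), (1, 5), (1, 15), (1, 2), (1, 11), (1, 7), (8, 9), (8, 13)], [(0, 4), (0, 13), (0, 2), (0, 12), (0,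
  7), (0, 8), (0, 15), (0, 14), (0, 10), (1, 9), (1, 11), (1, 5), (1, 6)])]

lemma v0002_ok : OpAll 16 (law16 0 0 0 2) := opAll_of (c := v0002) (by decide +kernel)

def v0003 : List (List (ℕ × ℕ) × List (ℕ × ℕ)) := [([(0, 4), (0, 6), (0, 15), (0, 10), (0, 9), (0, 7), (0,
  13), (0, 11), (0, 12), (0, 1), (0, 14), (0, 2), (0, 3), (0, 8)], [(0, 5), (0, 11), (0, 8), (1, 3), (1, 9),
  (1, 13), (2, 6), (2, 10), (2, 15), (2, 14), (2, 7), (2, 12)]), ([(0, 12), (0, 5), (0, 11), (0, 1), (0, 15),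
  (0, 9), (0, 13), (0, 2), (0, 4), (0, 7), (0, 6), (0, 14), (0, 10), (0, 8)], [(0, 3), (0, 7), (0, 10), (0,
  1), (0, 6), (0, 4), (0, 13), (0, 11), (0, 14), (0, 15), (0, 2), (0, 8), (5, 9)]), ([(0, 8), (0, 7), (0, 13),
  (0, 9), (0, 11), (0, 1), (0, 5), (0, 4), (0, 2), (0, 15), (0, 3), (0, 6), (0, 14)], [(0, 10), (0, 1), (0,
  4), (0, 5), (0, 6), (0, 2), (0, 11), (0, 14), (3, 12), (7, 9), (7, 13), (7, 15)]), ([(0, 13), (0, 11), (0,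
  5), (0, 12), (0, 3), (0, 1), (0, 8), (0, 9), (0, 15), (0, 7), (0, 4), (6, 14), (6, 10)], [(0, 2), (0, 1),
  (0, 9), (0, 8), (0, 7), (0, 10), (0, 12), (0, 6), (0, 15), (0, 3), (0, 4), (5, 11), (5, 14)])]

lemma v0003_ok : OpAll 16 (law16 0 0 0 3) := opAll_of (c := v0003) (by decide +kernel)

def v0010 : List (List (ℕ × ℕ) × List (ℕ × ℕ)) := [([(0, 1), (0, 4), (0, 15), (0, 3), (0, 13), (0, 2), (0, 6),
  (0, 12), (0, 10), (0, 7), (0, 14), (0, 9), (0, 11), (0, 8)], [(0, 5), (0, 4), (0, 6), (0, 9), (0, 14), (0,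
  13), (0, 7), (0, 10), (0, 12), (0, 3), (0, 11), (0, 15), (0, 2), (0, 8)]), ([(0, 7), (0, 4), (0, 8), (0, 6),
  (0, 3), (0, 10), (0, 11), (0, 12), (0, 15), (0, 5), (0, 1), (0, 9), (0, 2), (0, 13)], [(0, 11), (0, 2), (0,
  15), (0, 13), (1, 14), (1, 6), (1, 12), (1, 8), (1, 9), (1, 10), (1, 5), (1, 3), (1, 4)]), ([(0, 7), (0,
  10), (0, 1), (0, 5), (0, 6), (0, 8), (0, 15), (0, 11), (0, 2), (0, 13), (0, 14), (0, 4), (0, 12)], [(0, 3),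
  (0, 6), (0, 15), (0, 13), (0, 10), (0, 4), (0, 5), (0, 11), (0, 1), (0, 9), (0, 2), (0, 14), (0, 8), (0,
  12)]), ([(1, 6), (1, 2), (1, 11), (1, 7), (1, 15), (1, 13), (1, 3), (1, 8), (1, 12), (4, 5), (4, 10), (4,
  9), (4, 14)], [(1, 5), (1, 12), (1, 7), (1, 6), (1, 14), (1, 3), (1, 13), (2, 9), (2, 11), (2, 8), (2, 15),
  (2, 10), (2, 4)])]

lemma v0010_ok : OpAll 16 (law16 0 0 1 0) := opAll_of (c := v0010) (by decide +kernel)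

def v0011 : List (List (ℕ × ℕ) × List (ℕ × ℕ)) := [([(0, 3), (0, 13), (0, 11), (0, 2), (0, 7), (0, 14), (0,
  10), (0, 9), (0, 6), (0, 1), (0, 12), (5, 15)], [(0, 4), (0, 10), (0, 5), (0, 7), (0, 1), (0, 8), (0, 14),
  (0, 13), (0, 12), (2, 9), (6, 11), (6, 15)]), ([(0, 2), (0, 1), (0, 7), (0, 8), (0, 13), (0, 12), (0, 6),
  (0, 11), (0, 3), (0, 10), (0, 14), (0, 5), (0, 9), (0, 15)], [(0, 4), (0, 13), (0, 9), (0, 10), (0, 6), (0,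
  7), (0, 15), (1, 12), (1, 11), (1, 5), (1, 14), (1, 8), (1, 3)]), ([(0, 9), (0, 6), (1, 13), (1, 12), (1,
  14), (1, 10), (2, 8), (2, 5), (4, 11), (4, 15), (4, 7)], [(0, 3), (0, 4), (0, 10), (0, 8), (0, 7), (0, 2),
  (0, 14), (0, 11), (0, 1), (0, 12), (0, 13), (0, 5), (0, 15), (0, 6)]), ([(1, 8), (1, 7), (1, 6), (1, 4), (1,
  9), (1, 2), (3, 13), (3, 5), (3, 14), (10, 15), (11, 12)], [(1, 6), (1, 12), (1, 9), (1, 8), (1, 5), (1,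
  10), (1, 14), (1, 13), (1, 3), (2, 4), (2, 15), (2, 7), (2, 11)])]

lemma v0011_ok : OpAll 16 (law16 0 0 1 1) := opAll_of (c := v0011) (by decide +kernel)

def v0012 : List (List (ℕ × ℕ) × List (ℕ × ℕ)) := [([(0, 6), (0, 9), (0, 10), (0, 2), (0, 3), (1, 14), (1, 8),
  (1, 4), (1, 13), (1, 7), (1, 12), (1, 15), (1, 11), (1, 5)], [(0, 15), (0, 14), (0, 5), (0, 8), (0, 2), (0,
  10), (0, 7), (0, 11), (0, 13), (0, 9), (0, 12), (0, 4), (0, 1), (0, 3)]), ([(0, 1), (0, 13), (0, 14), (0,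
  9), (0, 15), (0, 5), (0, 8), (0, 6), (0, 3), (0, 10), (0, 2), (4, 11), (4, 12), (4, 7)], [(0, 14), (0, 6),
  (0, 12), (0, 13), (0, 11), (0, 7), (0, 15), (0, 8), (0, 2), (3, 4), (3, 9), (3, 10), (3, 5)]), ([(0, 12),
  (0, 3), (0, 7), (0, 5), (0, 15), (0, 2), (0, 4), (0, 1), (0, 8), (0, 6), (0, 14), (0, 10), (0, 11)], [(0,
  11), (1, 9), (1, 8), (1, 15), (1, 3), (1, 13), (1, 2), (1, 5), (4, 7), (4, 10), (4, 14), (4, 6)]), ([(0, 1),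
  (0, 6), (0, 13), (0, 5), (0, 12), (0, 3), (0, 14), (0, 2), (0, 4), (0, 7), (0, 11), (0, 15), (0, 8), (0, 9),
  (0, 10)], [(0, 9), (0, 13), (0, 14), (0, 11), (0, 12), (0, 2), (0, 10), (3, 7), (3, 6), (3, 4), (3, 8), (3,
  5), (3, 15)])]

lemma v0012_ok : OpAll 16 (law16 0 0 1 2) := opAll_of (c := v0012) (by decide +kernel)

def v0013 : List (List (ℕ × ℕ) × List (ℕ × ℕ)) := [([(0, 6), (0, 10), (0, 7), (0, 15), (0, 5), (1, 3), (1, 4),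
  (1, 11), (1, 2), (1, 12), (1, 13), (1, 14), (1, 8), (1, 9)], [(0, 9), (0, 2), (0, 3), (0, 13), (0, 7), (0,
  4), (0, 8), (0, 1), (0, 14), (0, 12), (0, 11), (0, 15), (0, 10), (0, 5)]), ([(0, 8), (0, 5), (0, 12), (0,
  13), (0, 15), (0, 1), (2, 4), (2, 14), (2, 11), (2, 7), (2, 3), (2, 6), (2, 10), (2, 9)], [(0, 15), (0, 10),
  (0, 12), (0, 7), (0, 11), (0, 2), (0, 9), (0, 14), (0, 1), (3, 13), (3, 5), (3, 6), (3, 4)]), ([(0, 13), (0,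
  11), (0, 7), (0, 5), (0, 4), (0, 3), (0, 9), (0, 6), (0, 12), (0, 8), (1, 10), (1, 14), (1, 15)], [(0, 2),
  (0, 5), (0, 14), (0, 1), (0, 4), (0, 11), (0, 10), (0, 9), (0, 12), (0, 7), (0, 3), (0, 15), (0, 6), (0,
  8)]), ([(0, 7), (0, 14), (0, 9), (0, 4), (0, 5), (0, 13), (0, 2), (0, 11), (0, 12), (0, 10), (0, 8), (1, 3),
  (1, 15)], [(0, 6), (0, 12), (0, 15), (0, 2), (0, 3), (0, 8), (1, 5), (1, 9), (1, 11), (1, 13), (1, 4), (1,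
  10), (1, 14)])]

lemma v0013_ok : OpAll 16 (law16 0 0 1 3) := opAll_of (c := v0013) (by decide +kernel)

def v0020 : List (List (ℕ × ℕ) × List (ℕ × ℕ)) := [([(0, 1), (0, 4), (0, 9), (0, 13), (0, 8), (0, 14), (0, 5),
  (0, 6), (0, 10), (2, 11), (2, 3), (2, 12)], [(0, 7), (0, 8), (0, 3), (0, 6), (0, 13), (0, 9), (0, 11), (0,
  5), (0, 4), (0, 14), (0, 2), (0, 15), (0, 12), (0, 10)]), ([(1, 10), (1, 3), (1, 9), (1, 5), (1, 11), (1,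
  13), (1, 14), (1, 6), (2, 15), (2, 8), (2, 7), (2, 4)], [(1, 14), (1, 11), (1, 10), (1, 9), (1, 3), (1, 4),
  (1, 13), (1, 15), (1, 7), (2, 12), (2, 5), (2, 8), (2, 6)]), ([(0, 12), (0, 3), (0, 4), (0, 9), (1, 5), (1,
  7), (1, 2), (1, 8), (1, 10), (1, 11), (1, 15), (6, 13), (6, 14)], [(0, 10), (0, 8), (0, 6), (0, 15), (0, 3),
  (0, 11), (0, 13), (0, 9), (1, 14), (2, 7), (2, 4), (2, 5)]), ([(0, 10), (0, 5), (0, 12), (1, 7), (1, 6), (1,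
  4), (2, 15), (2, 13), (2, 3), (2, 11), (2, 14), (2, 8), (2, 9)], [(0, 13), (0, 15), (0, 5), (0, 1), (0, 6),
  (0, 7), (0, 14), (0, 3), (0, 9), (0, 12), (2, 4), (2, 8), (2, 11)])]

lemma v0020_ok : OpAll 16 (law16 0 0 2 0) := opAll_of (c := v0020) (by decide +kernel)

def v0021 : List (List (ℕ × ℕ) × List (ℕ × ℕ)) := [([(0, 8), (0, 10), (0, 4), (0, 14), (0, 11), (0, 1), (0,
  13), (2, 6), (2, 3), (5, 7), (5, 9), (5, 12)], [(0, 10), (0, 1), (0, 2), (0, 7), (0, 12), (0, 13), (3, 15),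
  (3, 9), (3, 5), (4, 6), (4, 11), (4, 14)]), ([(0, 6), (0, 9), (0, 5), (1, 14), (1, 4), (1, 3), (1, 8), (2,
  15), (2, 13), (2, 10)], [(0, 7), (0, 3), (0, 12), (0, 5), (1, 13), (1, 15), (1, 14), (1, 9), (2, 11), (2,
  8), (4, 10)]), ([(0, 1), (0, 13), (0, 9), (0, 15), (0, 10), (0, 5), (0, 12), (0, 7), (0, 2), (0, 8), (0, 6),
  (0, 14), (0, 3)], [(0, 4), (0, 15), (0, 5), (0, 2), (0, 11), (0, 7), (0, 9), (0, 14), (0, 6), (0, 10), (0,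
  8), (0, 12), (0, 13), (0, 3)]), ([(1, 12), (1, 10), (1, 15), (1, 4), (1, 13), (1, 7), (1, 9), (1, 8), (1,
  11), (1, 5), (1, 3), (2, 6), (2, 14)], [(1, 11), (1, 4), (1, 6), (1, 3), (1, 8), (1, 13), (1, 12), (1, 2),
  (5, 10), (5, 7), (5, 15), (5, 9), (5, 14)])]

lemma v0021_ok : OpAll 16 (law16 0 0 2 1) := opAll_of (c := v0021) (by decide +kernel)

def v0022 : List (List (ℕ × ℕ) × List (ℕ × ℕ)) := [([(0, 3), (0, 7), (0, 12), (0, 6), (0, 15), (0, 1), (0, 9),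
  (0, 10), (0, 13), (2, 5), (2, 8), (2, 4)], [(0, 14), (0, 1), (0, 10), (0, 6), (0, 2), (0, 11), (0, 15), (0,
  8), (0, 9), (0, 12), (0, 4), (0, 7), (0, 5), (0, 13)]), ([(0, 13), (0, 2), (0, 5), (0, 4), (0, 8), (0, 10),
  (0, 14), (0, 7), (0, 9), (0, 1), (0, 3), (6, 15), (6, 11), (6, 12)], [(0, 10), (0, 6), (0, 14), (0, 8), (0,
  1), (0, 4), (0, 11), (0, 15), (0, 2), (0, 3), (5, 12), (5, 9), (5, 7)]), ([(0, 1), (0, 6), (0, 3), (0, 9),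
  (0, 11), (0, 13), (0, 15), (2, 12), (2, 7), (2, 4), (2, 10), (5, 14), (5, 8)], [(0, 11), (0, 7), (0, 6), (0,
  8), (0, 2), (0, 15), (3, 4), (3, 13), (3, 5), (9, 14), (9, 12), (9, 10)]), ([(0, 3), (0, 5), (0, 15), (0,
  11), (0, 2), (0, 13), (0, 8), (0, 6), (0, 7), (0, 14), (0, 9), (0, 4), (0, 12)], [(0, 1), (0, 7), (0, 9),
  (0, 2), (0, 10), (0, 12), (4, 11), (4, 14), (4, 6), (4, 5), (4, 8), (4, 15), (4, 13)])]

lemma v0022_ok : OpAll 16 (law16 0 0 2 2) := opAll_of (c := v0022) (by decide +kernel)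

def v0023 : List (List (ℕ × ℕ) × List (ℕ × ℕ)) := [([(0, 5), (0, 15), (0, 1), (0, 10), (0, 8), (0, 7), (0, 4),
  (0, 3), (0, 9), (0, 13), (2, 14), (2, 6)], [(0, 8), (0, 6), (0, 13), (1, 12), (1, 14), (2, 11), (2, 10), (2,
  9), (2, 15), (2, 7), (2, 3), (2, 4)]), ([(0, 10), (0, 11), (0, 7), (0, 15), (0, 6), (0, 4), (1, 9), (1, 14),
  (1, 8), (1, 12), (2, 3), (2, 13)], [(0, 5), (0, 14), (0, 13), (0, 1), (0, 3), (0, 11), (0, 15), (0, 2), (0,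
  4), (6, 12), (6, 7), (6, 8), (6, 9)]), ([(0, 10), (0, 11), (0, 15), (1, 9), (1, 5), (1, 2), (1, 7), (1, 3),
  (1, 13), (1, 6), (1, 12)], [(0, 4), (0, 3), (0, 11), (0, 6), (0, 15), (1, 14), (1, 13), (2, 8), (2, 9), (2,
  12), (2, 5), (2, 7)]), ([(0, 3), (0, 10), (0, 15), (0, 4), (0, 5), (0, 8), (1, 13), (1, 12), (1, 11), (1,
  6), (1, 2), (1, 7), (1, 14)], [(0, 12), (0, 13), (0, 6), (0, 11), (0, 4), (0, 2), (0, 9), (0, 10), (0, 14),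
  (0, 8), (1, 5), (1, 7), (1, 15)])]

lemma v0023_ok : OpAll 16 (law16 0 0 2 3) := opAll_of (c := v0023) (by decide +kernel)

def v0030 : List (List (ℕ × ℕ) × List (ℕ × ℕ)) := [([(0, 5), (0, 9), (0, 4), (0, 11), (0, 15), (0, 10), (2,
  6), (2, 14), (2, 7), (2, 12), (2, 13), (2, 3)], [(0, 1), (0, 2), (0, 13), (0, 4), (0, 6), (0, 10), (3, 8),
  (3, 14), (7, 15), (7, 11), (7, 12), (7, 9)]), ([(0, 11), (0, 7), (0, 13), (0, 3), (0, 4), (0, 12), (0, 9),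
  (0, 8), (0, 10), (0, 5), (2, 15), (2, 6)], [(0, 1), (0, 10), (0, 13), (0, 15), (0, 5), (2, 8), (2, 12), (2,
  7), (2, 4), (3, 14), (6, 9)]), ([(0, 14), (0, 9), (0, 11), (0, 13), (0, 5), (0, 7), (0, 1), (0, 2), (0, 15),
  (3, 8), (3, 12), (3, 6), (3, 10)], [(0, 4), (0, 9), (0, 3), (0, 2), (0, 7), (0, 12), (0, 10), (0, 6), (0,
  1), (0, 11), (0, 8), (0, 5), (0, 13), (0, 15)]), ([(0, 3), (0, 10), (0, 5), (0, 11), (0, 1), (0, 4), (0, 8),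
  (0, 12), (0, 13), (0, 14), (0, 9), (0, 2), (0, 15), (0, 7), (0, 6)], [(0, 14), (0, 11), (0, 2), (0, 13), (0,
  15), (0, 5), (0, 4), (0, 9), (0, 10), (0, 1), (0, 6), (7, 12), (7, 8)])]

lemma v0030_ok : OpAll 16 (law16 0 0 3 0) := opAll_of (c := v0030) (by decide +kernel)

def v0031 : List (List (ℕ × ℕ) × List (ℕ × ℕ)) := [([(0, 9), (0, 7), (0, 3), (0, 8), (0, 11), (0, 6), (0, 13),
  (0, 10), (0, 14), (0, 1), (0, 2), (0, 4), (0, 5), (0, 12)], [(0, 11), (0, 8), (0, 12), (1, 5), (1, 10), (1,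
  13), (1, 6), (1, 4), (1, 3), (1, 2), (1, 15), (7, 14)]), ([(0, 14), (0, 2), (0, 11), (0, 6), (0, 8), (1, 3),
  (1, 5), (4, 7), (4, 12), (4, 15), (9, 13), (9, 10)], [(0, 9), (0, 11), (0, 4), (0, 1), (0, 15), (0, 8), (2,
  3), (2, 7), (2, 13), (2, 6), (2, 5), (2, 10), (2, 12)]), ([(0, 5), (0, 10), (0, 1), (0, 7), (0, 14), (0,
  11), (0, 9), (2, 15), (2, 3), (2, 12), (2, 6)], [(0, 4), (0, 2), (0, 13), (0, 15), (0, 12), (0, 3), (0, 8),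
  (0, 14), (0, 10), (0, 6), (0, 7), (0, 11), (0, 1), (0, 9)]), ([(0, 5), (0, 4), (0, 3), (0, 15), (0, 14), (0,
  7), (0, 8), (0, 11), (0, 10), (0, 1), (0, 9), (0, 12), (0, 6), (0, 2), (0, 13)], [(0, 11), (0, 1), (0, 4),
  (0, 2), (0, 10), (0, 6), (0, 12), (0, 15), (0, 13), (3, 14), (3, 8), (3, 9), (3, 7)])]

lemma v0031_ok : OpAll 16 (law16 0 0 3 1) := opAll_of (c := v0031) (by decide +kernel)

def v0032 : List (List (ℕ × ℕ) × List (ℕ × ℕ)) := [([(0, 4), (0, 5), (0, 6), (0, 13), (0, 10), (0, 2), (0, 9),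
  (0, 15), (0, 14), (1, 11), (1, 7), (1, 8), (1, 12), (1, 3)], [(0, 14), (1, 5), (1, 15), (1, 3), (1, 6), (1,
  10), (1, 11), (1, 9), (1, 13), (1, 8), (1, 2), (7, 12)]), ([(0, 14), (0, 12), (0, 15), (0, 6), (0, 9), (0,
  11), (2, 7), (2, 10), (3, 5), (3, 13), (3, 8), (3, 4)], [(0, 1), (0, 11), (2, 15), (2, 10), (2, 13), (2, 9),
  (2, 6), (2, 5), (2, 7), (2, 3), (2, 12), (2, 4), (2, 8)]), ([(0, 8), (0, 10), (0, 14), (0, 3), (0, 9), (0,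
  5), (0, 6), (1, 4), (1, 13), (1, 2), (1, 11), (1, 12), (1, 15)], [(0, 7), (0, 14), (0, 1), (0, 10), (0, 9),
  (0, 11), (0, 13), (0, 3), (0, 6), (2, 15), (4, 12), (4, 5)]), ([(0, 10), (0, 3), (0, 4), (0, 14), (0, 13),
  (0, 15), (0, 8), (0, 7), (0, 11), (0, 6), (0, 2), (0, 9), (0, 5)], [(0, 1), (0, 12), (0, 5), (2, 13), (2,
  6), (2, 8), (2, 14), (2, 11), (2, 9), (2, 3), (2, 15), (2, 7), (2, 4)])]

lemma v0032_ok : OpAll 16 (law16 0 0 3 2) := opAll_of (c := v0032) (by decide +kernel)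

def v0033 : List (List (ℕ × ℕ) × List (ℕ × ℕ)) := [([(0, 10), (0, 1), (0, 14), (0, 2), (3, 13), (3, 9), (3,
  12), (3, 4), (3, 5), (3, 11), (3, 15), (3, 6)], [(0, 7), (0, 15), (0, 14), (0, 13), (0, 11), (0, 1), (0, 5),
  (0, 3), (0, 8), (0, 4), (0, 9), (0, 6), (0, 12), (0, 2)]), ([(0, 10), (0, 14), (0, 2), (0, 11), (0, 5), (1,
  12), (1, 3), (1, 8), (1, 15), (1, 9), (4, 6), (4, 7)], [(0, 13), (0, 12), (0, 2), (0, 6), (0, 9), (0, 11),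
  (0, 8), (0, 1), (0, 7), (0, 14), (0, 5), (3, 4), (3, 15)]), ([(0, 2), (0, 9), (0, 1), (0, 13), (3, 6), (3,
  11), (3, 8), (3, 15), (3, 12), (3, 10), (3, 5), (3, 4), (7, 14)], [(0, 8), (0, 1), (0, 4), (0, 15), (0, 5),
  (0, 6), (0, 10), (0, 14), (0, 11), (0, 9), (0, 7), (0, 3), (0, 12), (0, 13)]), ([(0, 5), (0, 3), (0, 1), (0,
  6), (0, 15), (0, 11), (0, 7), (0, 9), (0, 2), (0, 12), (0, 13), (0, 4), (0, 8)], [(0, 14), (0, 12), (0, 7),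
  (0, 6), (0, 3), (0, 10), (0, 15), (0, 8), (1, 13), (1, 9), (1, 4), (1, 11), (1, 2)])]

lemma v0033_ok : OpAll 16 (law16 0 0 3 3) := opAll_of (c := v0033) (by decide +kernel)

def v0100 : List (List (ℕ × ℕ) × List (ℕ × ℕ)) := [([(0, 11), (0, 9), (0, 8), (0, 7), (0, 15), (0, 4), (0,
  13), (0, 10), (0, 6), (0, 3), (0, 5), (0, 1), (0, 12), (0, 14)], [(0, 2), (0, 9), (0, 15), (0, 7), (0, 10),
  (0, 4), (0, 1), (0, 8), (0, 13), (0, 12), (0, 6), (0, 5), (0, 3), (0, 14)]), ([(0, 15), (0, 7), (0, 13), (0,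
  9), (0, 3), (0, 14), (0, 12), (1, 4), (1, 2), (1, 10), (1, 8), (1, 6)], [(0, 11), (0, 13), (0, 14), (0, 6),
  (0, 2), (0, 8), (0, 10), (0, 3), (0, 12), (1, 5), (1, 4), (1, 9), (1, 7)]), ([(0, 5), (0, 15), (0, 8), (0,
  1), (0, 13), (0, 3), (0, 12), (0, 14), (0, 7), (0, 6), (0, 2), (0, 4), (0, 9), (0, 11), (0, 10)], [(0, 6),
  (0, 4), (0, 2), (0, 11), (0, 15), (0, 12), (0, 13), (0, 9), (0, 1), (0, 10), (3, 14), (7, 8)]), ([(0, 11),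
  (0, 12), (1, 4), (1, 6), (1, 13), (1, 2), (1, 15), (1, 7), (1, 9), (8, 10), (8, 14)], [(0, 3), (0, 6), (0,
  8), (0, 1), (0, 5), (0, 4), (0, 14), (0, 9), (0, 7), (0, 12), (2, 10), (2, 13), (2, 15)])]

lemma v0100_ok : OpAll 16 (law16 0 1 0 0) := opAll_of (c := v0100) (by decide +kernel)

def v0101 : List (List (ℕ × ℕ) × List (ℕ × ℕ)) := [([(0, 11), (0, 10), (0, 14), (0, 13), (0, 15), (0, 3), (0,
  9), (0, 4), (0, 2), (0, 7), (5, 12), (6, 8)], [(0, 1), (0, 10), (0, 9), (0, 12), (0, 3), (0, 13), (0, 4),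
  (0, 14), (0, 6), (0, 2), (0, 15), (0, 8), (0, 5), (0, 7)]), ([(0, 12), (0, 11), (0, 3), (0, 2), (0, 13), (0,
  7), (0, 6), (0, 5), (1, 15), (1, 10), (1, 9), (1, 4), (1, 14), (1, 8)], [(0, 6), (0, 11), (0, 7), (0, 8),
  (0, 3), (0, 9), (0, 1), (0, 2), (0, 5), (4, 10), (4, 14), (4, 15), (4, 13)]), ([(0, 7), (0, 4), (0, 5), (0,
  9), (0, 12), (0, 15), (0, 8), (1, 10), (1, 3), (1, 13), (1, 2), (1, 14), (1, 11)], [(0, 5), (0, 12), (0,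
  14), (0, 13), (0, 9), (0, 3), (0, 15), (0, 2), (0, 4), (0, 11), (0, 10), (0, 1), (0, 6), (0, 8)]), ([(0,
  12), (0, 9), (0, 8), (0, 14), (0, 13), (0, 6), (0, 5), (1, 15), (1, 7), (1, 11), (1, 3), (1, 4), (1, 10)],
  [(0, 2), (0, 5), (1, 8), (1, 3), (1, 13), (1, 11), (4, 9), (4, 7), (6, 14), (6, 15), (6, 10)])]

lemma v0101_ok : OpAll 16 (law16 0 1 0 1) := opAll_of (c := v0101) (by decide +kernel)

def v0102 : List (List (ℕ × ℕ) × List (ℕ × ℕ)) := [([(0, 11), (0, 1), (0, 15), (0, 3), (0, 4), (0, 14), (0,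
  13), (0, 2), (0, 6), (0, 5), (7, 12), (7, 8), (7, 9), (7, 10)], [(0, 13), (0, 7), (0, 4), (0, 6), (0, 8),
  (0, 12), (0, 3), (0, 10), (0, 1), (0, 9), (0, 14), (0, 15), (0, 2), (0, 5)]), ([(0, 11), (0, 12), (1, 3),
  (1, 7), (1, 13), (1, 14), (1, 9), (2, 4), (2, 8), (5, 10)], [(0, 14), (0, 8), (0, 1), (0, 6), (0, 4), (0,
  7), (0, 12), (2, 3), (2, 15), (2, 5), (2, 9), (2, 13), (2, 10)]), ([(0, 7), (0, 3), (0, 8), (0, 4), (0, 2),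
  (0, 12), (0, 13), (0, 10), (1, 14), (1, 6), (1, 9)], [(0, 11), (0, 8), (0, 1), (0, 5), (0, 10), (2, 13), (2,
  9), (2, 6), (3, 15), (3, 14), (3, 12), (3, 4)]), ([(0, 14), (0, 15), (0, 12), (0, 9), (0, 13), (1, 10), (1,
  3), (1, 11), (1, 4), (1, 6), (1, 8), (1, 2), (1, 7)], [(0, 12), (0, 8), (0, 11), (0, 10), (0, 2), (0, 15),
  (0, 4), (0, 13), (1, 5), (1, 7), (1, 9), (1, 3), (1, 6)])]

lemma v0102_ok : OpAll 16 (law16 0 1 0 2) := opAll_of (c := v0102) (by decide +kernel)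

def v0103 : List (List (ℕ × ℕ) × List (ℕ × ℕ)) := [([(0, 12), (0, 13), (0, 3), (0, 7), (1, 11), (1, 2), (1,
  9), (1, 4), (5, 15), (5, 10)], [(0, 8), (0, 15), (0, 5), (0, 1), (0, 6), (0, 10), (0, 11), (0, 9), (0, 2),
  (0, 14), (0, 3), (0, 13), (0, 4), (0, 7)]), ([(0, 13), (0, 8), (0, 2), (0, 14), (0, 9), (0, 10), (0, 3), (0,
  11), (0, 12), (0, 6), (0, 7), (0, 4), (0, 1), (0, 15)], [(0, 7), (0, 12), (0, 14), (0, 15), (1, 5), (2, 4),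
  (2, 9), (2, 3), (2, 10), (6, 8), (6, 11)]), ([(0, 8), (0, 14), (0, 4), (0, 12), (0, 1), (0, 2), (3, 6), (3,
  11), (3, 10), (3, 13), (3, 15), (3, 7), (5, 9)], [(0, 15), (0, 9), (0, 7), (0, 13), (0, 1), (0, 10), (0,
  12), (0, 5), (0, 6), (0, 14), (0, 11), (0, 4), (0, 3), (0, 2)]), ([(0, 10), (0, 12), (0, 5), (0, 7), (0, 9),
  (0, 6), (0, 3), (0, 13), (0, 14), (0, 4), (0, 11), (0, 2), (8, 15)], [(0, 1), (0, 14), (0, 13), (0, 9), (0,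
  2), (3, 7), (3, 15), (3, 6), (3, 12), (3, 11), (3, 4), (3, 8), (3, 5)])]

lemma v0103_ok : OpAll 16 (law16 0 1 0 3) := opAll_of (c := v0103) (by decide +kernel)

def v0110 : List (List (ℕ × ℕ) × List (ℕ × ℕ)) := [([(0, 5), (0, 10), (0, 13), (0, 4), (0, 6), (0, 14), (0,
  15), (0, 1), (0, 12), (0, 9), (0, 3), (0, 8), (0, 11), (0, 7)], [(0, 2), (0, 11), (0, 8), (0, 4), (0, 9),
  (0, 14), (0, 1), (0, 15), (0, 10), (0, 3), (0, 6), (0, 13), (0, 12), (0, 7)]), ([(0, 11), (0, 2), (0, 4),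
  (0, 3), (0, 12), (0, 9), (0, 10), (0, 7), (0, 5), (1, 13), (1, 6), (1, 15)], [(0, 14), (0, 1), (0, 8), (0,
  15), (0, 12), (0, 13), (0, 7), (0, 3), (0, 5), (2, 10), (2, 6), (2, 4), (2, 9)]), ([(1, 11), (1, 7), (2,
  15), (2, 14), (2, 8), (2, 3), (2, 12), (2, 9), (2, 13), (2, 5), (2, 6), (2, 4), (2, 10)], [(1, 14), (1, 10),
  (1, 11), (1, 3), (1, 4), (1, 9), (1, 5), (1, 13), (1, 15), (1, 12), (1, 7), (1, 8), (1, 2), (1, 6)]), ([(0,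
  11), (0, 8), (0, 10), (1, 13), (1, 3), (1, 12), (1, 5), (2, 7), (2, 15), (2, 9), (2, 4)], [(0, 14), (0, 3),
  (0, 10), (1, 6), (1, 2), (1, 8), (1, 5), (1, 7), (1, 9), (1, 15), (1, 12), (1, 13), (1, 4)])]

lemma v0110_ok : OpAll 16 (law16 0 1 1 0) := opAll_of (c := v0110) (by decide +kernel)

def v0111 : List (List (ℕ × ℕ) × List (ℕ × ℕ)) := [([(0, 10), (0, 14), (0, 9), (0, 4), (0, 2), (0, 1), (0, 5),
  (0, 13), (0, 12), (0, 3), (0, 15), (0, 7), (0, 8), (0, 11)], [(0, 12), (0, 15), (0, 3), (0, 1), (0, 6), (0,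
  2), (0, 11), (4, 5), (4, 14), (4, 8), (4, 13), (7, 9)]), ([(0, 8), (0, 14), (0, 11), (0, 1), (0, 15), (0,
  9), (0, 2), (0, 13), (3, 7), (3, 10), (4, 5), (4, 6)], [(0, 5), (0, 11), (0, 2), (0, 6), (0, 9), (0, 3), (0,
  4), (0, 7), (0, 14), (0, 15), (0, 13), (1, 12), (1, 10)]), ([(0, 1), (0, 9), (0, 3), (0, 13), (0, 10), (0,
  11), (0, 14), (0, 12), (2, 4), (2, 8), (2, 7), (5, 6), (5, 15)], [(0, 11), (0, 5), (0, 2), (0, 6), (0, 4),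
  (0, 14), (0, 13), (0, 8), (0, 9), (0, 15), (0, 7), (0, 10), (0, 3), (0, 12)]), ([(0, 13), (0, 7), (0, 10),
  (0, 2), (0, 8), (0, 6), (0, 5), (0, 12), (0, 3), (9, 14), (11, 15)], [(0, 1), (0, 4), (0, 11), (0, 7), (0,
  9), (0, 12), (0, 10), (0, 8), (0, 2), (0, 5), (0, 15), (0, 3), (6, 14)])]

lemma v0111_ok : OpAll 16 (law16 0 1 1 1) := opAll_of (c := v0111) (by decide +kernel)

def v0112 : List (List (ℕ × ℕ) × List (ℕ × ℕ)) := [([(0, 9), (0, 11), (0, 10), (0, 7), (1, 14), (1, 5), (1,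
  13), (1, 3), (1, 15), (1, 6), (1, 2), (1, 4)], [(0, 10), (0, 5), (0, 1), (0, 8), (0, 6), (0, 4), (0, 2), (0,
  12), (0, 15), (0, 14), (0, 3), (0, 11), (0, 13), (0, 7)]), ([(0, 5), (0, 14), (0, 12), (0, 15), (0, 4), (0,
  3), (0, 10), (0, 6), (0, 11), (0, 8), (0, 13), (1, 2), (1, 9), (1, 7)], [(0, 12), (0, 6), (0, 1), (0, 15),
  (0, 11), (0, 9), (0, 10), (0, 4), (0, 13), (2, 8), (2, 14), (2, 7), (2, 3)]), ([(0, 4), (0, 10), (0, 11),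
  (0, 3), (0, 6), (0, 9), (0, 2), (0, 13), (0, 14), (1, 7), (1, 5), (1, 12), (1, 8)], [(0, 11), (0, 2), (0,
  15), (0, 13), (0, 9), (0, 1), (0, 14), (3, 5), (3, 6), (3, 7), (3, 8), (10, 12)]), ([(0, 14), (0, 4), (0,
  1), (0, 6), (0, 15), (0, 8), (3, 12), (3, 13), (3, 5), (7, 9), (7, 10)], [(0, 2), (0, 10), (0, 15), (0, 12),
  (0, 9), (0, 5), (0, 1), (0, 11), (0, 4), (0, 8), (3, 13), (3, 7), (3, 6)])]

lemma v0112_ok : OpAll 16 (law16 0 1 1 2) := opAll_of (c := v0112) (by decide +kernel)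

def v0113 : List (List (ℕ × ℕ) × List (ℕ × ℕ)) := [([(0, 15), (0, 10), (0, 7), (0, 1), (0, 3), (0, 6), (0,
  11), (0, 9), (0, 12), (0, 14), (0, 2), (0, 8), (4, 13), (4, 5)], [(0, 4), (0, 12), (0, 2), (0, 3), (0, 9),
  (0, 5), (0, 6), (0, 1), (0, 14), (0, 11), (0, 13), (0, 7), (0, 10), (0, 8)]), ([(0, 7), (0, 14), (0, 9), (0,
  8), (0, 10), (0, 5), (0, 13), (0, 4), (0, 15), (0, 3), (0, 1), (0, 12), (0, 2), (0, 6)], [(0, 8), (0, 4),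
  (0, 6), (1, 11), (1, 14), (1, 2), (3, 10), (3, 13), (3, 12), (5, 9), (5, 15)]), ([(0, 8), (0, 11), (0, 12),
  (0, 14), (0, 13), (0, 6), (0, 3), (0, 15), (0, 7), (1, 5), (1, 9), (1, 2), (4, 10)], [(0, 13), (0, 10), (0,
  6), (0, 12), (0, 15), (0, 9), (0, 7), (1, 14), (1, 4), (1, 5), (1, 3), (2, 11)]), ([(0, 13), (0, 9), (0, 7),
  (0, 4), (0, 3), (0, 15), (2, 10), (2, 8), (2, 12), (2, 6), (5, 14)], [(0, 1), (0, 11), (0, 6), (0, 9), (0,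
  14), (0, 7), (0, 3), (0, 8), (0, 10), (0, 5), (0, 12), (0, 15), (2, 4)])]

lemma v0113_ok : OpAll 16 (law16 0 1 1 3) := opAll_of (c := v0113) (by decide +kernel)

def v0120 : List (List (ℕ × ℕ) × List (ℕ × ℕ)) := [([(0, 8), (0, 14), (0, 13), (0, 6), (1, 3), (1, 2), (4,
  11), (4, 12), (5, 9), (5, 7), (5, 10), (5, 15)], [(0, 13), (0, 10), (0, 6), (1, 2), (1, 3), (4, 14), (4, 7),
  (4, 15), (4, 11), (4, 5), (4, 12), (4, 9)]), ([(0, 14), (0, 5), (0, 2), (0, 1), (0, 13), (0, 7), (0, 8), (0,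
  12), (0, 15), (0, 9), (3, 11), (3, 6)], [(0, 15), (0, 8), (0, 11), (0, 7), (0, 2), (0, 10), (0, 5), (0, 3),
  (0, 1), (0, 4), (0, 9), (6, 12), (6, 13)]), ([(0, 15), (0, 5), (0, 7), (0, 14), (0, 11), (0, 12), (0, 13),
  (0, 1), (0, 8), (0, 10), (0, 4), (0, 9), (0, 3), (0, 2), (0, 6)], [(0, 10), (0, 3), (0, 7), (0, 11), (0, 5),
  (0, 12), (0, 1), (0, 2), (0, 13), (0, 9), (0, 8), (0, 14), (0, 4), (0, 6)]), ([(0, 2), (0, 12), (0, 4), (0,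
  8), (1, 14), (1, 9), (1, 11), (1, 6), (1, 13), (1, 15), (1, 10), (3, 5), (3, 7)], [(0, 11), (0, 1), (0, 15),
  (0, 14), (0, 12), (0, 8), (3, 7), (3, 10), (3, 13), (3, 6), (3, 5), (3, 9), (3, 4)])]

lemma v0120_ok : OpAll 16 (law16 0 1 2 0) := opAll_of (c := v0120) (by decide +kernel)

def v0121 : List (List (ℕ × ℕ) × List (ℕ × ℕ)) := [([(0, 10), (0, 12), (0, 14), (0, 13), (0, 2), (0, 1), (0,
  9), (0, 7), (3, 6), (3, 15), (3, 5), (4, 8)], [(0, 14), (0, 7), (1, 13), (1, 8), (1, 9), (1, 15), (1, 2),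
  (1, 11), (1, 5), (1, 6), (1, 3), (4, 12)]), ([(0, 7), (0, 13), (0, 14), (0, 9), (0, 11), (0, 12), (0, 3),
  (1, 8), (1, 4), (1, 2), (1, 15), (1, 6), (1, 5), (1, 10)], [(0, 11), (0, 1), (0, 14), (0, 10), (0, 13), (0,
  15), (0, 3), (2, 5), (2, 12), (2, 4), (2, 9), (2, 8), (2, 6)]), ([(0, 13), (0, 14), (0, 12), (0, 8), (0, 7),
  (0, 4), (0, 2), (0, 1), (0, 11), (0, 3), (0, 10), (0, 6), (0, 9), (0, 15), (0, 5)], [(0, 12), (0, 6), (0,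
  2), (0, 4), (0, 15), (0, 7), (0, 8), (0, 3), (0, 1), (0, 14), (0, 9), (0, 10), (0, 11), (0, 5)]), ([(0, 6),
  (0, 2), (0, 7), (0, 11), (0, 4), (0, 14), (0, 10), (0, 9), (0, 5), (0, 12), (0, 13), (0, 15), (0, 1), (0,
  3), (0, 8)], [(0, 15), (0, 4), (0, 2), (0, 3), (0, 13), (0, 11), (0, 8), (1, 9), (1, 12), (1, 5), (1, 7),
  (1, 10), (1, 14)])]

lemma v0121_ok : OpAll 16 (law16 0 1 2 1) := opAll_of (c := v0121) (by decide +kernel)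

def v0122 : List (List (ℕ × ℕ) × List (ℕ × ℕ)) := [([(0, 14), (0, 9), (0, 3), (0, 6), (0, 13), (0, 15), (0,
  5), (0, 8), (0, 4), (0, 11), (0, 2), (10, 12)], [(0, 1), (0, 7), (0, 9), (0, 2), (3, 15), (3, 8), (3, 13),
  (3, 11), (3, 5), (3, 6), (3, 10), (4, 12)]), ([(0, 2), (0, 8), (0, 14), (0, 3), (0, 5), (0, 15), (0, 1), (0,
  4), (0, 9), (0, 11), (0, 10), (0, 6), (0, 13), (0, 7)], [(0, 11), (0, 7), (1, 12), (1, 6), (1, 5), (1, 4),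
  (1, 14), (3, 10), (3, 8), (3, 13), (9, 15)]), ([(0, 9), (0, 11), (0, 14), (0, 8), (0, 7), (0, 5), (0, 13),
  (0, 3), (0, 1), (0, 12), (2, 6), (2, 15), (2, 10)], [(0, 11), (0, 13), (0, 12), (1, 4), (1, 6), (1, 8), (1,
  2), (3, 5), (3, 10), (3, 15), (3, 7), (3, 14)]), ([(0, 7), (0, 10), (0, 12), (1, 3), (1, 14), (1, 5), (1,
  4), (2, 11), (2, 8), (2, 6), (2, 13), (2, 15), (2, 9)], [(0, 4), (0, 12), (1, 8), (1, 13), (1, 14), (1, 6),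
  (1, 9), (1, 11), (1, 2), (1, 3), (1, 15), (1, 10), (1, 5)])]

lemma v0122_ok : OpAll 16 (law16 0 1 2 2) := opAll_of (c := v0122) (by decide +kernel)

def v0123 : List (List (ℕ × ℕ) × List (ℕ × ℕ)) := [([(0, 9), (0, 11), (0, 14), (0, 1), (0, 13), (0, 6), (0,
  15), (0, 2), (0, 12), (0, 8), (3, 7), (3, 5)], [(0, 11), (0, 15), (0, 1), (0, 4), (0, 7), (0, 14), (0, 12),
  (0, 13), (0, 2), (0, 10), (0, 6), (0, 3), (0, 5), (0, 8)]), ([(0, 4), (0, 12), (0, 2), (0, 10), (0, 3), (0,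
  6), (0, 5), (0, 11), (7, 8), (9, 13), (9, 14), (9, 15)], [(0, 1), (0, 15), (0, 7), (0, 9), (0, 3), (0, 14),
  (0, 2), (0, 5), (0, 6), (0, 13), (0, 11), (8, 10), (8, 12)]), ([(0, 8), (0, 12), (0, 15), (0, 9), (0, 6),
  (0, 11), (0, 1), (0, 3), (0, 10), (0, 7), (0, 2), (0, 14), (0, 4)], [(0, 13), (0, 7), (0, 9), (0, 10), (0,
  1), (0, 5), (0, 2), (0, 3), (0, 15), (0, 6), (0, 12), (0, 14), (0, 11), (0, 4)]), ([(0, 5), (0, 10), (0,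
  12), (0, 6), (0, 11), (0, 14), (0, 9), (0, 1), (0, 2), (0, 13), (4, 15)], [(0, 3), (0, 2), (0, 8), (0, 1),
  (0, 7), (0, 14), (0, 11), (0, 6), (0, 9), (0, 15), (0, 13), (4, 12), (4, 10)])]

lemma v0123_ok : OpAll 16 (law16 0 1 2 3) := opAll_of (c := v0123) (by decide +kernel)

def v0130 : List (List (ℕ × ℕ) × List (ℕ × ℕ)) := [([(0, 7), (0, 11), (0, 8), (0, 15), (0, 2), (0, 9), (0, 3),
  (0, 5), (0, 6), (0, 14), (0, 1), (4, 13), (4, 12), (4, 10)], [(0, 8), (0, 13), (0, 2), (0, 6), (0, 5), (0,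
  10), (0, 3), (0, 12), (0, 11), (0, 9), (0, 14), (0, 4), (0, 15), (0, 1)]), ([(0, 8), (0, 14), (0, 15), (0,
  12), (0, 4), (0, 9), (0, 3), (0, 5), (0, 11), (0, 10), (0, 6), (0, 2), (0, 13), (0, 7)], [(0, 1), (0, 12),
  (0, 6), (0, 5), (0, 14), (0, 11), (0, 7), (2, 10), (2, 3), (2, 15), (2, 13), (2, 9), (2, 4)]), ([(0, 10),
  (0, 3), (0, 2), (0, 6), (0, 5), (0, 15), (0, 14), (0, 12), (0, 1), (0, 7), (0, 9), (0, 13), (0, 11), (0, 4),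
  (0, 8)], [(0, 12), (0, 8), (1, 2), (1, 5), (1, 11), (1, 15), (1, 4), (1, 6), (1, 7), (1, 13), (3, 14), (3,
  9)]), ([(0, 5), (0, 14), (0, 13), (0, 4), (0, 9), (0, 6), (0, 2), (0, 11), (0, 8), (0, 3), (0, 15), (0, 1),
  (0, 7)], [(0, 8), (0, 4), (0, 2), (0, 12), (0, 15), (0, 6), (0, 7), (1, 13), (1, 9), (1, 11), (1, 3), (1,
  10), (1, 14)])]

lemma v0130_ok : OpAll 16 (law16 0 1 3 0) := opAll_of (c := v0130) (by decide +kernel)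

def v0131 : List (List (ℕ × ℕ) × List (ℕ × ℕ)) := [([(1, 11), (1, 13), (1, 4), (1, 2), (1, 9), (1, 5), (1,
  10), (1, 14), (1, 15), (1, 7), (1, 3), (1, 12)], [(1, 6), (1, 2), (1, 15), (1, 12), (1, 5), (1, 13), (3, 8),
  (3, 4), (7, 14), (7, 10), (7, 11), (7, 9)]), ([(0, 14), (0, 12), (0, 1), (0, 9), (0, 6), (0, 4), (0, 5), (2,
  8), (2, 13), (2, 7), (2, 3), (2, 15), (2, 10), (2, 11)], [(0, 5), (1, 12), (1, 15), (1, 6), (1, 13), (2,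
  11), (2, 7), (2, 10), (2, 8), (2, 9), (3, 4)]), ([(0, 9), (0, 13), (0, 3), (0, 7), (0, 4), (0, 15), (0, 12),
  (0, 11), (0, 6), (0, 14), (0, 10), (0, 5), (0, 8), (0, 2), (0, 1)], [(0, 12), (0, 8), (0, 14), (0, 3), (0,
  1), (2, 4), (2, 7), (2, 13), (2, 6), (2, 10), (5, 11), (5, 15)]), ([(0, 11), (0, 7), (1, 5), (1, 13), (1,
  3), (2, 4), (2, 10), (2, 9), (2, 15), (6, 12), (6, 14)], [(0, 9), (0, 6), (0, 4), (0, 5), (0, 15), (0, 10),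
  (0, 12), (0, 7), (1, 14), (1, 3), (1, 8), (1, 13), (1, 2)])]

lemma v0131_ok : OpAll 16 (law16 0 1 3 1) := opAll_of (c := v0131) (by decide +kernel)

def v0132 : List (List (ℕ × ℕ) × List (ℕ × ℕ)) := [([(0, 7), (0, 9), (0, 6), (0, 15), (0, 8), (1, 5), (1, 10),
  (1, 11), (1, 13), (1, 12), (1, 2), (4, 14)], [(0, 3), (0, 1), (0, 12), (0, 9), (0, 14), (0, 2), (0, 11), (0,
  4), (0, 5), (0, 13), (0, 10), (0, 15), (0, 6), (0, 8)]), ([(0, 10), (0, 7), (0, 4), (0, 12), (0, 8), (0,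
  11), (0, 9), (1, 15), (1, 3), (1, 5), (1, 14), (1, 13), (1, 2), (1, 6)], [(0, 11), (0, 12), (0, 3), (0, 13),
  (0, 7), (0, 1), (0, 9), (2, 4), (2, 6), (2, 5), (2, 8), (2, 14), (2, 15)]), ([(0, 8), (0, 12), (0, 2), (0,
  1), (3, 6), (3, 9), (4, 14), (4, 11), (4, 7), (4, 15), (4, 13), (4, 10), (4, 5)], [(0, 4), (0, 11), (0, 15),
  (0, 5), (0, 6), (0, 10), (0, 3), (0, 1), (2, 13), (2, 9), (2, 14), (7, 12)]), ([(0, 13), (0, 8), (0, 12),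
  (0, 6), (0, 11), (0, 9), (0, 15), (0, 1), (0, 7), (0, 4), (0, 10), (0, 3), (5, 14)], [(0, 2), (0, 4), (0,
  8), (0, 14), (0, 1), (0, 9), (0, 3), (5, 15), (5, 11), (5, 6), (5, 7), (5, 12), (5, 10)])]

lemma v0132_ok : OpAll 16 (law16 0 1 3 2) := opAll_of (c := v0132) (by decide +kernel)

def v0133 : List (List (ℕ × ℕ) × List (ℕ × ℕ)) := [([(0, 2), (0, 3), (0, 12), (0, 6), (0, 7), (0, 8), (0, 5),
  (0, 13), (0, 4), (0, 1), (0, 15), (0, 11), (0, 14), (0, 9)], [(0, 7), (0, 9), (1, 3), (1, 10), (1, 13), (1,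
  5), (4, 11), (4, 6), (4, 14), (4, 15), (4, 12), (4, 8)]), ([(0, 7), (0, 11), (0, 1), (0, 12), (0, 14), (0,
  8), (0, 10), (0, 9), (0, 2), (0, 6), (0, 5), (3, 13), (3, 4), (3, 15)], [(0, 9), (0, 15), (0, 11), (0, 2),
  (0, 5), (1, 10), (3, 14), (3, 13), (3, 12), (4, 6), (4, 8)]), ([(0, 13), (0, 10), (0, 15), (0, 7), (0, 6),
  (0, 2), (0, 12), (0, 5), (0, 9), (0, 3), (0, 1), (0, 4), (0, 11)], [(0, 6), (0, 15), (0, 9), (0, 7), (0,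
  10), (0, 3), (0, 8), (0, 5), (0, 4), (0, 2), (0, 1), (0, 14), (0, 12), (0, 11)]), ([(0, 10), (0, 2), (0, 4),
  (0, 6), (0, 5), (0, 9), (0, 13), (0, 3), (0, 8), (0, 15), (0, 14), (0, 11), (0, 7), (0, 12), (0, 1)], [(0,
  14), (0, 3), (0, 6), (0, 4), (0, 15), (0, 9), (0, 12), (0, 7), (0, 13), (0, 1), (2, 5), (2, 11), (2, 8)])]

lemma v0133_ok : OpAll 16 (law16 0 1 3 3) := opAll_of (c := v0133) (by decide +kernel)

def v0200 : List (List (ℕ × ℕ) × List (ℕ × ℕ)) := [([(0, 14), (0, 12), (0, 6), (0, 1), (0, 2), (0, 7), (0, 4),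
  (0, 9), (3, 8), (3, 10), (3, 5), (3, 13), (3, 11), (3, 15)], [(0, 12), (0, 3), (0, 2), (0, 10), (0, 13), (0,
  9), (1, 4), (1, 15), (1, 5), (1, 7), (6, 11), (6, 8)]), ([(0, 3), (0, 15), (0, 7), (0, 2), (0, 13), (0, 4),
  (0, 9), (6, 12), (6, 11), (6, 10), (6, 14), (6, 8)], [(0, 1), (0, 10), (0, 7), (0, 11), (0, 4), (0, 14), (0,
  6), (0, 8), (0, 12), (0, 15), (0, 13), (0, 9), (2, 5)]), ([(0, 1), (0, 4), (0, 11), (0, 2), (0, 12), (0,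
  14), (0, 6), (3, 8), (3, 15), (3, 5), (3, 9), (3, 10), (3, 7)], [(0, 14), (0, 12), (0, 9), (0, 2), (0, 13),
  (0, 7), (0, 15), (0, 11), (0, 8), (0, 5), (0, 4), (0, 3), (0, 10), (0, 6)]), ([(0, 2), (0, 5), (0, 1), (0,
  14), (0, 3), (0, 8), (4, 12), (4, 13), (4, 6), (7, 11), (7, 10), (7, 15), (7, 9)], [(0, 4), (0, 1), (0, 10),
  (0, 12), (0, 11), (0, 8), (3, 13), (5, 15), (5, 14), (5, 7), (6, 9)])]

lemma v0200_ok : OpAll 16 (law16 0 2 0 0) := opAll_of (c := v0200) (by decide +kernel)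

def v0201 : List (List (ℕ × ℕ) × List (ℕ × ℕ)) := [([(0, 7), (0, 11), (0, 9), (0, 3), (0, 10), (0, 12), (0,
  15), (0, 5), (0, 6), (0, 14), (1, 2), (1, 13), (1, 8), (1, 4)], [(0, 15), (0, 13), (0, 11), (0, 14), (1, 6),
  (1, 12), (1, 4), (1, 8), (1, 5), (2, 9), (2, 10), (2, 3)]), ([(0, 15), (0, 3), (0, 13), (0, 11), (0, 2), (0,
  6), (0, 7), (0, 1), (0, 10), (5, 14), (5, 12), (5, 8)], [(0, 9), (0, 2), (0, 4), (0, 6), (0, 1), (0, 12),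
  (0, 3), (0, 7), (0, 11), (0, 10), (5, 8), (5, 14), (5, 13)]), ([(0, 6), (0, 2), (0, 3), (0, 11), (0, 14),
  (0, 13), (0, 12), (0, 7), (0, 9), (0, 5), (0, 4), (0, 8), (0, 15), (0, 1), (0, 10)], [(0, 13), (0, 8), (0,
  11), (0, 10), (1, 3), (1, 4), (1, 2), (1, 12), (1, 5), (1, 14), (7, 15), (7, 9)]), ([(0, 4), (0, 5), (0, 2),
  (0, 3), (0, 11), (0, 6), (0, 15), (0, 12), (1, 10), (1, 8), (1, 14), (7, 13), (7, 9)], [(0, 12), (1, 3), (1,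
  5), (1, 9), (1, 13), (1, 6), (1, 14), (1, 7), (1, 2), (1, 8), (1, 11), (1, 10), (1, 15)])]

lemma v0201_ok : OpAll 16 (law16 0 2 0 1) := opAll_of (c := v0201) (by decide +kernel)

def v0202 : List (List (ℕ × ℕ) × List (ℕ × ℕ)) := [([(0, 15), (0, 7), (0, 9), (0, 13), (0, 4), (0, 5), (0, 6),
  (0, 1), (0, 8), (0, 10), (0, 12), (0, 11), (0, 3), (0, 14)], [(0, 2), (0, 10), (0, 7), (0, 1), (0, 6), (0,
  12), (0, 9), (0, 8), (0, 3), (0, 5), (0, 11), (0, 4), (0, 13), (0, 14)]), ([(0, 15), (0, 7), (0, 11), (1,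
  13), (1, 12), (1, 6), (1, 2), (1, 4), (1, 5), (1, 10), (1, 8), (9, 14)], [(0, 3), (0, 5), (0, 9), (0, 1),
  (0, 12), (0, 13), (0, 10), (0, 7), (0, 14), (0, 11), (2, 8), (2, 6), (2, 4)]), ([(0, 7), (0, 9), (0, 3), (0,
  12), (0, 11), (0, 13), (0, 15), (0, 14), (0, 5), (0, 10), (0, 1), (0, 2), (0, 6), (0, 4), (0, 8)], [(0, 4),
  (0, 6), (0, 13), (0, 10), (0, 3), (0, 2), (0, 15), (0, 12), (0, 9), (0, 5), (0, 11), (0, 1), (0, 14), (0,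
  8)]), ([(0, 7), (0, 15), (1, 11), (1, 14), (1, 12), (2, 6), (2, 5), (2, 3), (2, 10), (2, 9), (4, 8)], [(0,
  13), (0, 1), (0, 5), (0, 14), (0, 8), (0, 15), (2, 12), (2, 4), (2, 6), (2, 3), (2, 9), (2, 10), (2, 11)])]

lemma v0202_ok : OpAll 16 (law16 0 2 0 2) := opAll_of (c := v0202) (by decide +kernel)

def v0203 : List (List (ℕ × ℕ) × List (ℕ × ℕ)) := [([(1, 13), (1, 3), (1, 5), (1, 9), (1, 12), (1, 14), (1,
  7), (1, 4), (1, 15), (1, 8), (1, 10), (1, 2), (1, 11), (1, 6)], [(1, 4), (1, 8), (1, 2), (1, 10), (1, 15),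
  (1, 9), (1, 11), (1, 7), (3, 14), (5, 12), (5, 13), (5, 6)]), ([(1, 12), (1, 8), (1, 13), (1, 2), (3, 5),
  (3, 6), (3, 9), (3, 11), (3, 15), (3, 7), (3, 10), (4, 14)], [(1, 6), (1, 5), (1, 13), (1, 12), (1, 9), (1,
  3), (2, 11), (2, 14), (2, 10), (2, 7), (2, 8), (2, 4), (2, 15)]), ([(0, 4), (0, 10), (1, 9), (1, 12), (1,
  8), (1, 14), (1, 7), (1, 6), (1, 11), (1, 2), (1, 13)], [(0, 3), (0, 6), (0, 14), (0, 11), (0, 7), (0, 8),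
  (0, 9), (0, 2), (0, 5), (0, 12), (0, 1), (0, 15), (0, 13), (0, 10)]), ([(0, 15), (0, 6), (0, 11), (0, 1),
  (0, 12), (2, 10), (2, 9), (2, 14), (2, 5), (2, 3), (2, 7)], [(0, 8), (0, 10), (0, 1), (0, 13), (0, 12), (2,
  4), (2, 7), (2, 14), (2, 11), (2, 6), (2, 3), (2, 9), (2, 5)])]

lemma v0203_ok : OpAll 16 (law16 0 2 0 3) := opAll_of (c := v0203) (by decide +kernel)

def v0210 : List (List (ℕ × ℕ) × List (ℕ × ℕ)) := [([(0, 5), (0, 2), (0, 9), (0, 4), (0, 6), (0, 14), (0, 1),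
  (0, 8), (0, 11), (0, 12), (3, 13), (3, 7)], [(0, 6), (0, 12), (1, 10), (1, 14), (1, 13), (1, 4), (1, 3), (1,
  15), (2, 11), (2, 9), (2, 8), (2, 7)]), ([(0, 12), (0, 7), (0, 15), (0, 2), (0, 6), (0, 5), (0, 3), (1, 10),
  (1, 4), (1, 11), (1, 8), (1, 14), (1, 13), (1, 9)], [(0, 13), (0, 2), (0, 8), (0, 1), (0, 5), (0, 9), (0,
  7), (0, 14), (0, 4), (0, 6), (0, 3), (10, 15), (10, 11)]), ([(0, 7), (0, 14), (0, 13), (0, 15), (0, 10), (0,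
  2), (0, 1), (0, 8), (0, 5), (0, 11), (0, 12), (3, 9), (3, 6)], [(0, 13), (0, 5), (0, 3), (0, 1), (0, 15),
  (0, 6), (0, 12), (2, 4), (2, 10), (2, 9), (2, 8), (11, 14)]), ([(0, 3), (0, 9), (0, 15), (0, 4), (0, 1), (0,
  10), (0, 11), (0, 12), (0, 13), (0, 7), (0, 8), (0, 5), (0, 6), (0, 2), (0, 14)], [(0, 11), (0, 10), (0, 9),
  (0, 4), (0, 2), (0, 13), (0, 5), (0, 1), (0, 6), (0, 12), (0, 14), (7, 15), (7, 8)])]

lemma v0210_ok : OpAll 16 (law16 0 2 1 0) := opAll_of (c := v0210) (by decide +kernel)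

def v0211 : List (List (ℕ × ℕ) × List (ℕ × ℕ)) := [([(0, 2), (0, 3), (0, 6), (0, 1), (0, 11), (0, 4), (0, 8),
  (0, 9), (0, 12), (0, 5), (0, 15), (0, 14), (7, 10), (7, 13)], [(0, 9), (0, 15), (0, 4), (0, 12), (0, 10),
  (0, 11), (0, 5), (0, 6), (0, 13), (0, 8), (0, 7), (0, 1), (0, 3), (0, 14)]), ([(1, 3), (1, 7), (1, 12), (1,
  13), (1, 11), (1, 15), (1, 8), (2, 14), (2, 6), (2, 5), (2, 9), (4, 10)], [(1, 5), (1, 15), (1, 10), (1, 6),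
  (1, 11), (1, 2), (1, 3), (1, 13), (1, 9), (4, 7), (4, 8), (4, 12), (4, 14)]), ([(1, 4), (1, 11), (1, 7), (1,
  13), (1, 12), (1, 3), (1, 14), (1, 6), (2, 10), (2, 15), (2, 9)], [(1, 8), (1, 10), (1, 6), (1, 9), (1, 13),
  (1, 14), (1, 11), (1, 2), (1, 5), (1, 4), (1, 15), (1, 3), (1, 12), (1, 7)]), ([(0, 5), (0, 8), (0, 3), (0,
  14), (0, 1), (0, 2), (0, 10), (4, 11), (4, 13), (4, 15), (4, 9), (4, 12), (4, 7)], [(0, 15), (0, 1), (0, 4),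
  (0, 12), (0, 8), (0, 10), (2, 6), (2, 9), (2, 7), (2, 13), (2, 14), (2, 11), (2, 3)])]

lemma v0211_ok : OpAll 16 (law16 0 2 1 1) := opAll_of (c := v0211) (by decide +kernel)

def v0212 : List (List (ℕ × ℕ) × List (ℕ × ℕ)) := [([(1, 6), (1, 10), (2, 8), (2, 12), (2, 7), (2, 15), (2,
  3), (2, 5), (2, 4), (2, 11), (2, 14), (2, 13)], [(1, 9), (1, 7), (1, 6), (1, 5), (1, 12), (1, 3), (1, 4),
  (1, 14), (1, 10), (1, 8), (1, 15), (1, 2), (1, 13), (1, 11)]), ([(0, 2), (0, 1), (0, 4), (0, 14), (0, 11),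
  (0, 7), (0, 15), (0, 6), (0, 5), (0, 9), (0, 8), (0, 13), (3, 10), (3, 12)], [(0, 8), (0, 15), (0, 3), (0,
  1), (0, 5), (0, 4), (0, 13), (6, 11), (7, 12), (9, 10), (9, 14)]), ([(0, 2), (0, 3), (0, 5), (0, 15), (0,
  4), (0, 6), (0, 10), (0, 12), (0, 11), (0, 9), (0, 13), (0, 1), (0, 14), (0, 7), (0, 8)], [(0, 6), (0, 5),
  (0, 13), (0, 8), (1, 3), (1, 9), (1, 4), (1, 11), (1, 7), (1, 12), (10, 15), (10, 14)]), ([(0, 4), (0, 5),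
  (0, 13), (0, 3), (0, 8), (0, 11), (0, 10), (1, 6), (1, 15), (1, 2), (1, 7), (1, 9), (1, 14)], [(0, 10), (1,
  12), (1, 9), (1, 15), (2, 11), (2, 8), (2, 13), (3, 5), (3, 7), (3, 6), (3, 14)])]

lemma v0212_ok : OpAll 16 (law16 0 2 1 2) := opAll_of (c := v0212) (by decide +kernel)

def v0213 : List (List (ℕ × ℕ) × List (ℕ × ℕ)) := [([(0, 13), (0, 2), (0, 1), (0, 8), (0, 15), (0, 14), (0,
  6), (0, 12), (0, 11), (0, 3), (0, 4), (5, 7), (5, 10), (5, 9)], [(0, 7), (0, 4), (1, 14), (1, 10), (1, 6),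
  (1, 15), (1, 2), (1, 9), (1, 8), (1, 3), (5, 11), (5, 12)]), ([(0, 5), (0, 7), (0, 9), (0, 15), (0, 14), (0,
  10), (0, 6), (0, 12), (0, 4), (1, 8), (1, 11), (1, 3), (1, 13), (1, 2)], [(0, 7), (0, 15), (0, 2), (0, 11),
  (0, 12), (0, 6), (0, 10), (0, 4), (1, 14), (1, 13), (1, 9), (1, 8), (1, 3)]), ([(0, 7), (0, 11), (0, 15),
  (0, 6), (0, 13), (1, 9), (1, 10), (1, 8), (1, 4), (1, 12), (1, 2), (1, 3), (1, 5)], [(0, 14), (0, 2), (0,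
  10), (0, 13), (1, 3), (1, 8), (1, 9), (1, 12), (1, 4), (5, 15), (5, 11), (5, 6)]), ([(0, 10), (0, 5), (0,
  6), (0, 2), (0, 9), (0, 7), (0, 1), (0, 8), (3, 4), (3, 11), (3, 15), (3, 12), (3, 14)], [(0, 13), (0, 3),
  (0, 12), (0, 11), (0, 9), (0, 8), (1, 6), (2, 14), (2, 7), (2, 4), (5, 15)])]

lemma v0213_ok : OpAll 16 (law16 0 2 1 3) := opAll_of (c := v0213) (by decide +kernel)

def v0220 : List (List (ℕ × ℕ) × List (ℕ × ℕ)) := [([(0, 14), (0, 6), (0, 12), (0, 3), (0, 7), (0, 4), (0,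
  13), (0, 1), (0, 8), (0, 9), (0, 11), (0, 15), (0, 2), (0, 5)], [(0, 11), (0, 13), (0, 2), (0, 10), (0, 6),
  (0, 15), (0, 3), (0, 9), (0, 8), (0, 12), (0, 1), (0, 4), (0, 7), (0, 5)]), ([(0, 11), (0, 7), (0, 4), (1,
  2), (1, 8), (1, 12), (1, 6), (1, 9), (1, 14), (1, 3), (1, 10), (1, 15)], [(0, 13), (0, 3), (0, 2), (0, 5),
  (0, 14), (0, 1), (0, 4), (6, 12), (6, 7), (6, 15), (6, 9), (6, 10), (6, 8)]), ([(0, 6), (0, 8), (0, 9), (0,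
  15), (0, 2), (0, 11), (0, 3), (0, 4), (0, 7), (0, 5), (0, 12), (0, 14), (0, 1), (0, 13), (0, 10)], [(0, 5),
  (0, 10), (1, 7), (1, 4), (1, 15), (2, 14), (2, 8), (2, 3), (2, 9), (2, 11), (2, 12), (2, 13)]), ([(0, 5),
  (0, 9), (0, 12), (0, 6), (0, 7), (0, 15), (0, 2), (0, 4), (0, 10), (0, 3), (0, 8), (0, 14), (0, 1)], [(0,
  13), (0, 2), (0, 11), (0, 8), (0, 6), (0, 4), (0, 14), (0, 10), (0, 15), (0, 1), (3, 7), (3, 12), (3, 9)])]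

lemma v0220_ok : OpAll 16 (law16 0 2 2 0) := opAll_of (c := v0220) (by decide +kernel)

def v0221 : List (List (ℕ × ℕ) × List (ℕ × ℕ)) := [([(0, 13), (0, 4), (0, 1), (0, 9), (0, 15), (0, 7), (2,
  14), (2, 12), (3, 5), (3, 11), (3, 8), (3, 10)], [(0, 10), (0, 7), (1, 8), (1, 9), (1, 3), (1, 12), (1, 14),
  (1, 2), (1, 6), (1, 5), (4, 15), (4, 11)]), ([(0, 7), (0, 12), (0, 3), (0, 15), (0, 6), (0, 2), (1, 4), (1,
  8), (5, 10), (5, 11), (5, 9), (5, 13)], [(0, 9), (0, 1), (0, 14), (0, 10), (0, 5), (0, 4), (0, 2), (3, 11),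
  (3, 6), (3, 13), (3, 8), (3, 12), (3, 15)]), ([(0, 9), (0, 14), (0, 4), (0, 2), (0, 8), (0, 7), (0, 5), (0,
  13), (0, 10), (0, 15), (0, 1), (0, 3), (6, 11)], [(0, 5), (0, 14), (0, 1), (0, 12), (0, 11), (0, 13), (0,
  6), (0, 2), (0, 3), (4, 10), (4, 8), (7, 15)]), ([(0, 2), (0, 12), (0, 10), (0, 1), (0, 9), (0, 5), (0, 11),
  (0, 15), (0, 7), (0, 3), (4, 8), (4, 13), (4, 6)], [(0, 4), (0, 3), (1, 14), (1, 12), (1, 5), (1, 10), (1,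
  7), (1, 13), (1, 8), (1, 9), (1, 6), (1, 15), (1, 11)])]

lemma v0221_ok : OpAll 16 (law16 0 2 2 1) := opAll_of (c := v0221) (by decide +kernel)

def v0222 : List (List (ℕ × ℕ) × List (ℕ × ℕ)) := [([(0, 9), (0, 5), (1, 2), (1, 10), (1, 4), (1, 3), (1, 7),
  (1, 13), (1, 14), (1, 12), (6, 11), (6, 15)], [(0, 12), (0, 5), (1, 14), (1, 4), (1, 7), (1, 3), (1, 2), (1,
  8), (1, 10), (1, 13), (6, 15), (6, 11)]), ([(0, 9), (0, 3), (0, 5), (1, 2), (1, 15), (1, 6), (1, 4), (1,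
  12), (1, 8), (1, 13), (1, 14), (7, 11)], [(0, 4), (0, 8), (0, 12), (0, 7), (0, 13), (0, 15), (0, 1), (0,
  14), (0, 11), (0, 6), (0, 5), (2, 10), (2, 3)]), ([(0, 7), (0, 6), (0, 9), (1, 14), (1, 12), (1, 8), (1, 4),
  (1, 15), (1, 10), (1, 2), (1, 3), (1, 13), (1, 11)], [(0, 12), (0, 4), (0, 8), (0, 2), (0, 5), (0, 10), (0,
  1), (0, 3), (0, 6), (0, 11), (0, 15), (0, 14), (0, 13), (0, 9)]), ([(0, 4), (0, 14), (0, 8), (0, 6), (0,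
  15), (0, 2), (0, 7), (0, 10), (0, 9), (0, 1), (0, 13), (0, 12), (0, 11)], [(0, 3), (0, 12), (0, 13), (0, 2),
  (0, 5), (0, 7), (0, 11), (1, 9), (1, 15), (1, 10), (1, 14), (1, 6), (1, 8)])]

lemma v0222_ok : OpAll 16 (law16 0 2 2 2) := opAll_of (c := v0222) (by decide +kernel)

def v0223 : List (List (ℕ × ℕ) × List (ℕ × ℕ)) := [([(0, 14), (0, 12), (0, 11), (0, 13), (0, 4), (0, 8), (0,
  5), (1, 6), (1, 7), (1, 15), (1, 3), (1, 9)], [(0, 2), (0, 10), (0, 9), (0, 15), (0, 8), (0, 1), (0, 12),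
  (0, 3), (0, 7), (0, 6), (0, 11), (0, 4), (0, 13), (0, 5)]), ([(0, 4), (0, 11), (0, 9), (0, 2), (0, 1), (0,
  6), (0, 13), (0, 15), (0, 14), (0, 5), (0, 3), (0, 12), (0, 8), (7, 10)], [(0, 9), (0, 5), (0, 8), (1, 15),
  (1, 12), (1, 11), (1, 2), (1, 14), (1, 10), (1, 13), (1, 7), (1, 6), (1, 3)]), ([(0, 10), (0, 2), (0, 12),
  (0, 11), (0, 7), (0, 15), (0, 9), (0, 4), (0, 6), (0, 3), (0, 8), (0, 14), (0, 1)], [(0, 6), (0, 11), (0,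
  8), (0, 2), (0, 5), (0, 3), (0, 13), (0, 4), (0, 14), (0, 12), (0, 7), (0, 9), (0, 15), (0, 1)]), ([(0, 1),
  (0, 11), (0, 5), (0, 12), (0, 15), (0, 2), (0, 9), (0, 14), (0, 8), (0, 7), (0, 3), (0, 10), (0, 6)], [(0,
  15), (0, 7), (0, 8), (0, 12), (0, 6), (2, 4), (2, 3), (2, 13), (5, 14), (9, 10), (9, 11)])]

lemma v0223_ok : OpAll 16 (law16 0 2 2 3) := opAll_of (c := v0223) (by decide +kernel)

def v0230 : List (List (ℕ × ℕ) × List (ℕ × ℕ)) := [([(0, 4), (0, 3), (0, 5), (0, 12), (0, 1), (0, 11), (0, 8),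
  (0, 6), (0, 9), (2, 14), (2, 13), (2, 7)], [(0, 8), (0, 7), (0, 3), (0, 10), (0, 11), (0, 12), (0, 14), (0,
  6), (0, 5), (0, 2), (0, 13), (0, 1), (0, 15), (0, 9)]), ([(0, 9), (0, 8), (0, 15), (0, 6), (0, 14), (0, 4),
  (0, 10), (0, 5), (0, 2), (0, 3), (1, 7), (1, 11), (1, 13), (1, 12)], [(0, 12), (0, 11), (0, 6), (0, 7), (0,
  2), (0, 8), (0, 4), (0, 15), (0, 5), (0, 13), (0, 1), (0, 3), (10, 14)]), ([(0, 8), (0, 6), (0, 15), (0, 7),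
  (0, 2), (0, 1), (0, 13), (5, 14), (5, 10), (9, 12), (9, 11)], [(0, 3), (0, 1), (0, 9), (0, 14), (0, 6), (0,
  12), (0, 13), (2, 4), (2, 11), (2, 15), (2, 5), (7, 10)]), ([(0, 4), (0, 13), (0, 3), (0, 11), (0, 14), (0,
  1), (5, 9), (5, 15), (5, 7), (5, 12), (5, 8)], [(0, 2), (0, 6), (0, 14), (0, 3), (0, 10), (0, 7), (0, 8),
  (0, 11), (0, 13), (0, 5), (0, 15), (0, 1), (9, 12)])]

lemma v0230_ok : OpAll 16 (law16 0 2 3 0) := opAll_of (c := v0230) (by decide +kernel)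

def v0231 : List (List (ℕ × ℕ) × List (ℕ × ℕ)) := [([(0, 2), (0, 15), (0, 11), (0, 12), (0, 13), (0, 14), (0,
  6), (0, 3), (0, 8), (0, 1), (0, 9), (0, 5), (0, 7), (4, 10)], [(0, 7), (1, 13), (1, 15), (1, 10), (1, 6),
  (1, 11), (1, 8), (1, 9), (3, 14), (3, 4), (3, 12), (3, 5)]), ([(0, 7), (0, 12), (0, 13), (0, 11), (0, 10),
  (0, 1), (0, 2), (0, 15), (3, 5), (3, 8), (3, 6), (3, 4), (3, 14), (3, 9)], [(0, 4), (0, 11), (0, 1), (0,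
  13), (0, 15), (2, 10), (2, 3), (5, 9), (5, 14), (5, 6), (8, 12)]), ([(0, 7), (0, 1), (0, 2), (0, 12), (0,
  5), (0, 11), (0, 9), (0, 4), (0, 14), (0, 8), (6, 15), (6, 13), (6, 10)], [(0, 3), (0, 2), (0, 13), (0, 4),
  (0, 8), (1, 9), (1, 14), (1, 12), (1, 6), (5, 10), (5, 15), (5, 11)]), ([(0, 3), (0, 1), (0, 7), (0, 4), (0,
  12), (0, 10), (0, 14), (0, 2), (0, 8), (0, 11), (0, 13), (5, 15), (6, 9)], [(0, 11), (0, 12), (0, 2), (0,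
  1), (0, 4), (0, 10), (0, 8), (0, 5), (0, 13), (6, 7), (6, 14), (6, 9), (6, 15)])]

lemma v0231_ok : OpAll 16 (law16 0 2 3 1) := opAll_of (c := v0231) (by decide +kernel)

def v0232 : List (List (ℕ × ℕ) × List (ℕ × ℕ)) := [([(0, 4), (0, 3), (1, 8), (1, 10), (2, 12), (2, 11), (2,
  7), (2, 5), (2, 13), (6, 9), (6, 15), (6, 14)], [(0, 5), (0, 15), (0, 2), (0, 14), (0, 12), (0, 7), (0, 3),
  (1, 10), (1, 6), (1, 11), (8, 13), (8, 9)]), ([(0, 2), (0, 6), (0, 12), (0, 14), (0, 8), (0, 1), (0, 13),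
  (0, 9), (0, 7), (0, 10), (0, 15), (0, 5), (0, 4), (0, 11)], [(0, 3), (0, 4), (0, 6), (0, 15), (0, 10), (0,
  12), (0, 13), (0, 11), (1, 14), (1, 7), (1, 8), (1, 5), (1, 9)]), ([(0, 4), (0, 15), (0, 13), (0, 3), (0,
  10), (0, 7), (0, 2), (0, 14), (0, 9), (0, 6), (0, 1), (0, 11), (0, 8)], [(0, 8), (1, 13), (1, 7), (2, 5),
  (3, 12), (3, 14), (6, 9), (6, 10), (6, 11), (6, 15)]), ([(0, 6), (0, 7), (0, 15), (0, 14), (1, 5), (1, 11),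
  (1, 8), (1, 2), (1, 3), (1, 12), (1, 10), (4, 13), (4, 9)], [(0, 8), (0, 15), (0, 12), (0, 11), (0, 1), (0,
  3), (0, 7), (0, 10), (0, 2), (0, 14), (4, 5), (4, 9), (4, 13)])]

lemma v0232_ok : OpAll 16 (law16 0 2 3 2) := opAll_of (c := v0232) (by decide +kernel)

def v0233 : List (List (ℕ × ℕ) × List (ℕ × ℕ)) := [([(0, 10), (0, 8), (0, 7), (0, 2), (0, 1), (0, 12), (3, 5),
  (3, 15), (3, 4), (3, 6), (3, 11), (9, 13)], [(0, 6), (0, 5), (0, 2), (0, 14), (0, 11), (0, 15), (0, 7), (0,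
  13), (0, 12), (1, 8), (1, 3), (4, 9)]), ([(0, 11), (0, 15), (0, 9), (0, 10), (0, 3), (0, 7), (0, 2), (1,
  14), (1, 13), (4, 5), (4, 12), (6, 8)], [(0, 10), (0, 4), (0, 7), (0, 15), (0, 14), (0, 6), (0, 9), (0, 3),
  (0, 5), (0, 2), (1, 13), (1, 8), (1, 12)]), ([(0, 1), (0, 15), (0, 7), (0, 9), (0, 14), (0, 2), (0, 5), (0,
  12), (0, 3), (0, 8), (0, 11), (0, 13), (0, 6)], [(0, 11), (0, 8), (0, 12), (0, 2), (0, 4), (0, 14), (0, 15),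
  (0, 3), (0, 10), (0, 7), (0, 5), (0, 13), (0, 9), (0, 6)]), ([(0, 4), (0, 5), (0, 3), (0, 12), (0, 1), (0,
  15), (0, 10), (0, 2), (0, 14), (0, 7), (6, 13), (8, 9), (8, 11)], [(0, 8), (0, 2), (0, 9), (0, 6), (0, 3),
  (0, 5), (0, 10), (0, 13), (0, 1), (0, 11), (0, 7), (12, 14), (12, 15)])]

lemma v0233_ok : OpAll 16 (law16 0 2 3 3) := opAll_of (c := v0233) (by decide +kernel)

def v0300 : List (List (ℕ × ℕ) × List (ℕ × ℕ)) := [([(1, 5), (1, 8), (1, 7), (1, 12), (1, 11), (1, 2), (1, 4),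
  (1, 6), (1, 14), (1, 15), (1, 10), (1, 9), (1, 3), (1, 13)], [(1, 6), (1, 4), (1, 5), (1, 10), (1, 3), (1,
  9), (1, 2), (1, 15), (1, 7), (1, 11), (1, 14), (1, 13), (1, 8), (1, 12)]), ([(0, 6), (0, 3), (0, 15), (0,
  11), (1, 8), (1, 5), (1, 4), (1, 10), (1, 13), (1, 2), (7, 14), (7, 12)], [(0, 9), (0, 8), (0, 7), (0, 13),
  (0, 5), (0, 3), (0, 1), (0, 12), (0, 15), (0, 2), (0, 4), (0, 11), (10, 14)]), ([(0, 8), (0, 4), (0, 13),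
  (0, 10), (0, 14), (0, 3), (0, 12), (0, 9), (0, 2), (0, 11), (0, 5), (0, 7), (0, 6)], [(0, 1), (0, 7), (0,
  10), (0, 13), (0, 3), (0, 15), (0, 12), (0, 4), (0, 14), (0, 5), (0, 9), (0, 11), (0, 2), (0, 6)]), ([(0,
  1), (0, 12), (0, 15), (0, 3), (0, 4), (2, 10), (2, 5), (2, 13), (2, 7), (2, 9), (2, 11), (2, 14), (2, 8)],
  [(0, 15), (0, 5), (0, 14), (0, 9), (0, 7), (0, 4), (2, 11), (2, 13), (2, 12), (2, 3), (2, 6), (2, 8), (2,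
  10)])]

lemma v0300_ok : OpAll 16 (law16 0 3 0 0) := opAll_of (c := v0300) (by decide +kernel)

def v0301 : List (List (ℕ × ℕ) × List (ℕ × ℕ)) := [([(0, 8), (0, 6), (0, 7), (0, 15), (0, 10), (0, 5), (0,
  14), (0, 2), (0, 3), (4, 13), (4, 9), (11, 12)], [(0, 1), (0, 3), (2, 7), (2, 12), (4, 10), (4, 15), (4, 5),
  (4, 9), (4, 14), (4, 6), (4, 11), (4, 13)]), ([(0, 5), (0, 1), (0, 8), (0, 4), (0, 6), (0, 14), (0, 15), (0,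
  13), (0, 10), (0, 7), (2, 9), (2, 11), (2, 3), (2, 12)], [(0, 13), (0, 7), (1, 6), (1, 10), (1, 14), (1, 2),
  (1, 11), (1, 9), (1, 8), (1, 3), (1, 15), (1, 12), (1, 4)]), ([(0, 9), (0, 4), (0, 6), (0, 7), (0, 1), (0,
  5), (0, 13), (0, 2), (0, 10), (0, 15), (0, 3), (0, 8), (0, 11), (0, 12), (0, 14)], [(0, 14), (1, 6), (2, 7),
  (2, 12), (2, 3), (2, 11), (2, 8), (2, 10), (2, 13), (2, 4), (2, 5), (2, 15)]), ([(0, 6), (0, 12), (0, 3),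
  (0, 8), (0, 5), (0, 4), (1, 15), (1, 14), (1, 7), (1, 2), (1, 11), (1, 10), (1, 13)], [(0, 9), (0, 11), (0,
  8), (0, 12), (0, 1), (0, 10), (0, 7), (0, 13), (0, 5), (0, 2), (0, 4), (3, 14), (3, 15)])]

lemma v0301_ok : OpAll 16 (law16 0 3 0 1) := opAll_of (c := v0301) (by decide +kernel)

def v0302 : List (List (ℕ × ℕ) × List (ℕ × ℕ)) := [([(0, 8), (0, 1), (0, 5), (0, 10), (0, 11), (0, 14), (0,
  12), (0, 13), (0, 3), (0, 15), (0, 6), (0, 7), (2, 4), (2, 9)], [(0, 13), (0, 10), (0, 6), (0, 4), (0, 5),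
  (0, 14), (0, 3), (0, 12), (0, 15), (0, 9), (0, 1), (0, 11), (0, 2), (0, 7)]), ([(0, 10), (0, 3), (0, 13),
  (0, 5), (0, 11), (0, 6), (0, 4), (0, 7), (0, 14), (0, 1), (0, 2), (8, 12), (8, 9), (8, 15)], [(0, 7), (0,
  9), (0, 3), (0, 2), (1, 4), (1, 12), (1, 11), (1, 5), (1, 8), (1, 14), (1, 13), (1, 6), (1, 15)]), ([(0,
  10), (0, 4), (0, 1), (2, 13), (2, 11), (3, 14), (3, 5), (3, 6), (3, 8), (9, 15), (9, 12)], [(0, 6), (0, 15),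
  (0, 13), (0, 14), (0, 4), (0, 11), (0, 3), (0, 7), (0, 9), (0, 2), (0, 12), (0, 8), (0, 5), (0, 1)]), ([(0,
  11), (0, 6), (0, 13), (0, 10), (0, 2), (0, 3), (1, 5), (1, 9), (1, 14), (4, 7), (4, 15), (4, 12), (4, 8)],
  [(0, 7), (0, 14), (0, 9), (0, 15), (0, 1), (0, 3), (2, 12), (2, 4), (2, 5), (2, 10), (2, 13), (2, 6), (2,
  8)])]

lemma v0302_ok : OpAll 16 (law16 0 3 0 2) := opAll_of (c := v0302) (by decide +kernel)

def v0303 : List (List (ℕ × ℕ) × List (ℕ × ℕ)) := [([(0, 4), (0, 9), (0, 3), (0, 10), (0, 1), (0, 13), (0, 2),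
  (0, 5), (0, 11), (0, 14), (0, 15), (0, 12), (0, 7), (0, 6)], [(0, 8), (0, 7), (0, 5), (0, 14), (0, 9), (0,
  10), (0, 3), (0, 12), (0, 13), (0, 11), (0, 1), (0, 15), (0, 2), (0, 6)]), ([(0, 3), (0, 12), (1, 9), (1,
  11), (1, 6), (1, 2), (1, 5), (1, 8), (1, 13), (1, 4), (1, 7), (1, 14), (1, 15), (1, 10)], [(0, 7), (0, 5),
  (0, 13), (0, 6), (0, 10), (0, 4), (0, 2), (0, 11), (0, 1), (0, 15), (0, 12), (8, 9), (8, 14)]), ([(0, 5),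
  (0, 3), (0, 9), (0, 10), (0, 8), (0, 12), (0, 4), (0, 13), (1, 6), (1, 11), (1, 7), (1, 15), (1, 14)], [(0,
  2), (0, 8), (0, 15), (0, 1), (0, 14), (0, 11), (0, 4), (0, 12), (0, 7), (0, 6), (0, 3), (0, 10), (0, 9), (0,
  13)]), ([(0, 3), (0, 11), (0, 5), (0, 7), (1, 12), (1, 10), (1, 8), (1, 14), (2, 6), (2, 9), (4, 13)], [(0,
  15), (0, 1), (0, 7), (2, 8), (2, 11), (4, 6), (4, 14), (4, 5), (4, 10), (9, 13), (9, 12)])]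

lemma v0303_ok : OpAll 16 (law16 0 3 0 3) := opAll_of (c := v0303) (by decide +kernel)

def v0310 : List (List (ℕ × ℕ) × List (ℕ × ℕ)) := [([(0, 1), (0, 10), (0, 13), (0, 6), (0, 9), (0, 4), (0,
  14), (0, 12), (0, 2), (0, 8), (0, 11), (0, 15), (0, 3), (0, 7)], [(0, 12), (0, 3), (0, 5), (0, 15), (0, 9),
  (0, 14), (0, 2), (0, 11), (0, 10), (0, 8), (0, 6), (0, 13), (0, 4), (0, 7)]), ([(0, 10), (0, 11), (0, 3),
  (0, 7), (0, 9), (0, 5), (0, 4), (0, 2), (0, 13), (1, 6), (1, 14), (1, 15), (1, 12), (1, 8)], [(0, 11), (0,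
  14), (0, 9), (0, 1), (0, 12), (0, 5), (0, 8), (0, 3), (0, 15), (0, 13), (2, 4), (2, 7), (2, 6)]), ([(0, 8),
  (0, 6), (0, 15), (0, 3), (0, 5), (0, 2), (0, 1), (0, 12), (0, 9), (0, 10), (0, 14), (0, 13), (0, 7), (0, 4),
  (0, 11)], [(0, 4), (0, 9), (0, 7), (0, 2), (0, 10), (0, 15), (0, 11), (1, 13), (1, 12), (1, 3), (5, 14), (5,
  6)]), ([(0, 5), (0, 6), (0, 11), (0, 4), (0, 3), (0, 10), (0, 15), (0, 8), (0, 2), (0, 9), (0, 1), (0, 13),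
  (0, 14)], [(0, 6), (0, 8), (0, 1), (0, 14), (2, 12), (2, 13), (2, 11), (2, 9), (2, 10), (3, 7), (4, 15)])]

lemma v0310_ok : OpAll 16 (law16 0 3 1 0) := opAll_of (c := v0310) (by decide +kernel)

def v0311 : List (List (ℕ × ℕ) × List (ℕ × ℕ)) := [([(0, 11), (0, 3), (0, 4), (0, 1), (0, 13), (0, 2), (0,
  15), (0, 9), (0, 8), (0, 6), (0, 7), (0, 12), (0, 14), (0, 10)], [(0, 8), (0, 3), (0, 5), (0, 1), (0, 14),
  (0, 6), (0, 9), (0, 12), (0, 13), (0, 15), (0, 2), (0, 7), (0, 4), (0, 10)]), ([(0, 6), (0, 11), (0, 5), (0,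
  14), (0, 10), (0, 12), (0, 15), (0, 7), (0, 9), (0, 13), (0, 4), (0, 8), (1, 3), (1, 2)], [(0, 15), (0, 9),
  (0, 14), (0, 5), (0, 13), (0, 8), (1, 2), (1, 3), (4, 10), (7, 12), (7, 11)]), ([(0, 11), (0, 9), (0, 12),
  (0, 15), (0, 6), (1, 3), (1, 14), (1, 5), (1, 2), (1, 13), (1, 7), (1, 8), (1, 4)], [(0, 15), (0, 13), (0,
  14), (0, 8), (0, 5), (0, 1), (0, 10), (0, 6), (2, 3), (2, 9), (2, 7), (4, 12)]), ([(0, 9), (0, 6), (0, 10),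
  (2, 12), (2, 14), (2, 8), (2, 4), (2, 5), (3, 11), (3, 15), (3, 7)], [(0, 1), (0, 14), (0, 12), (0, 4), (0,
  3), (0, 13), (0, 10), (2, 5), (2, 15), (2, 6), (2, 8), (2, 11), (2, 7)])]

lemma v0311_ok : OpAll 16 (law16 0 3 1 1) := opAll_of (c := v0311) (by decide +kernel)

def v0312 : List (List (ℕ × ℕ) × List (ℕ × ℕ)) := [([(0, 6), (0, 5), (1, 14), (1, 3), (1, 2), (1, 10), (1, 9),
  (1, 12), (1, 15), (1, 11), (4, 8), (7, 13)], [(0, 5), (1, 2), (1, 9), (1, 7), (1, 11), (1, 13), (1, 3), (1,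
  15), (1, 14), (1, 8), (1, 10), (4, 12)]), ([(0, 6), (0, 1), (0, 13), (0, 3), (0, 9), (0, 8), (0, 12), (0,
  7), (0, 10), (0, 15), (0, 2), (4, 14)], [(0, 8), (0, 7), (0, 1), (0, 11), (0, 14), (0, 3), (0, 5), (0, 12),
  (0, 13), (0, 2), (4, 15), (4, 10), (4, 9)]), ([(0, 3), (0, 8), (0, 14), (0, 4), (0, 5), (0, 6), (0, 2), (0,
  15), (1, 9), (1, 7), (1, 12), (1, 10), (1, 13)], [(0, 6), (0, 13), (0, 15), (1, 11), (1, 8), (1, 9), (1, 4),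
  (1, 2), (1, 5), (1, 10), (1, 12), (7, 14)]), ([(0, 14), (0, 5), (0, 15), (0, 2), (0, 8), (0, 10), (0, 9),
  (0, 13), (0, 1), (3, 4), (3, 7), (6, 11), (6, 12)], [(0, 7), (0, 4), (0, 3), (0, 10), (0, 8), (0, 5), (0,
  13), (0, 2), (0, 9), (0, 6), (0, 12), (0, 1), (11, 15)])]

lemma v0312_ok : OpAll 16 (law16 0 3 1 2) := opAll_of (c := v0312) (by decide +kernel)

def v0313 : List (List (ℕ × ℕ) × List (ℕ × ℕ)) := [([(0, 9), (0, 1), (0, 2), (0, 6), (0, 3), (0, 14), (4, 15),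
  (4, 10), (4, 13), (4, 12), (4, 5), (4, 7), (4, 8), (4, 11)], [(0, 12), (0, 8), (0, 1), (0, 7), (0, 10), (0,
  5), (0, 3), (0, 2), (0, 11), (0, 15), (0, 4), (0, 6), (0, 13), (0, 14)]), ([(0, 13), (0, 4), (0, 5), (0, 8),
  (0, 12), (0, 3), (0, 11), (0, 10), (0, 15), (0, 7), (0, 14), (0, 2), (0, 1), (0, 6)], [(0, 10), (0, 4), (0,
  15), (0, 3), (0, 1), (0, 9), (0, 14), (0, 8), (0, 11), (0, 7), (0, 6), (2, 5), (2, 12)]), ([(0, 1), (0, 2),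
  (0, 6), (0, 12), (0, 13), (0, 9), (0, 4), (0, 5), (0, 14), (3, 11), (3, 15), (3, 10), (7, 8)], [(0, 13), (0,
  4), (0, 6), (0, 9), (0, 3), (0, 2), (0, 5), (0, 15), (0, 7), (0, 10), (0, 12), (0, 8), (0, 11), (0, 14)]),
  ([(0, 11), (0, 4), (0, 12), (1, 3), (1, 13), (1, 7), (2, 15), (2, 6), (2, 5), (8, 10), (8, 14)], [(0, 5),
  (0, 14), (0, 13), (0, 15), (0, 4), (0, 8), (0, 12), (1, 9), (1, 7), (1, 2), (1, 3), (1, 10), (1, 6)])]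

lemma v0313_ok : OpAll 16 (law16 0 3 1 3) := opAll_of (c := v0313) (by decide +kernel)

def v0320 : List (List (ℕ × ℕ) × List (ℕ × ℕ)) := [([(0, 9), (0, 15), (0, 4), (0, 10), (0, 5), (1, 7), (1,
  11), (3, 14), (3, 13), (3, 8)], [(0, 2), (0, 13), (0, 14), (0, 10), (0, 1), (0, 12), (0, 11), (0, 3), (0,
  6), (0, 7), (0, 8), (0, 4), (0, 15), (0, 5)]), ([(0, 2), (0, 5), (0, 9), (0, 8), (0, 11), (0, 6), (0, 13),
  (0, 12), (0, 4), (0, 1), (0, 15), (3, 7), (3, 14), (3, 10)], [(0, 12), (0, 9), (0, 3), (0, 8), (0, 13), (0,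
  6), (0, 10), (0, 14), (0, 15), (1, 11), (1, 4), (1, 7), (1, 5)]), ([(0, 3), (0, 15), (0, 10), (0, 4), (1,
  11), (1, 8), (1, 12), (2, 7), (2, 13), (5, 6), (5, 14)], [(0, 6), (0, 12), (0, 15), (0, 2), (0, 9), (0, 13),
  (0, 1), (0, 8), (0, 5), (0, 7), (0, 10), (0, 11), (0, 14), (0, 4)]), ([(0, 2), (0, 6), (0, 12), (1, 7), (1,
  15), (1, 10), (1, 5), (1, 8), (1, 9), (1, 11), (1, 3), (1, 13), (1, 4)], [(0, 11), (0, 15), (0, 5), (0, 1),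
  (0, 14), (0, 13), (0, 8), (0, 3), (0, 9), (0, 12), (4, 6), (4, 7), (4, 10)])]

lemma v0320_ok : OpAll 16 (law16 0 3 2 0) := opAll_of (c := v0320) (by decide +kernel)

def v0321 : List (List (ℕ × ℕ) × List (ℕ × ℕ)) := [([(0, 3), (0, 14), (0, 9), (2, 5), (2, 13), (2, 15), (2,
  7), (2, 8), (2, 12), (2, 10), (4, 6), (4, 11)], [(0, 1), (0, 6), (0, 12), (0, 11), (0, 7), (0, 5), (0, 10),
  (0, 13), (0, 14), (0, 8), (0, 2), (0, 15), (0, 4), (0, 9)]), ([(0, 5), (0, 7), (0, 13), (0, 15), (0, 1), (0,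
  2), (0, 9), (4, 8), (4, 12), (4, 11), (6, 14), (6, 10)], [(0, 3), (0, 2), (0, 15), (0, 4), (0, 11), (0, 9),
  (1, 7), (1, 10), (1, 14), (6, 12), (8, 13)]), ([(0, 9), (0, 8), (0, 15), (0, 10), (0, 12), (0, 4), (0, 14),
  (1, 11), (1, 6), (1, 7), (1, 5), (1, 2), (1, 13)], [(0, 3), (0, 8), (0, 14), (1, 5), (1, 15), (1, 13), (1,
  6), (1, 10), (1, 11), (1, 4), (1, 12), (2, 7)]), ([(0, 5), (0, 12), (0, 13), (0, 3), (0, 15), (1, 11), (1,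
  6), (2, 10), (2, 8), (2, 14), (2, 4)], [(0, 8), (0, 10), (0, 11), (0, 12), (0, 15), (1, 13), (1, 6), (1, 2),
  (1, 9), (1, 4), (1, 14), (1, 3), (1, 7)])]

lemma v0321_ok : OpAll 16 (law16 0 3 2 1) := opAll_of (c := v0321) (by decide +kernel)

def v0322 : List (List (ℕ × ℕ) × List (ℕ × ℕ)) := [([(0, 10), (0, 9), (0, 8), (1, 13), (1, 2), (1, 12), (1,
  4), (1, 11), (1, 14), (1, 15), (1, 5), (1, 6), (1, 3), (1, 7)], [(0, 6), (0, 1), (0, 9), (0, 5), (0, 3), (0,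
  8), (2, 15), (4, 7), (4, 14), (4, 12), (4, 13), (4, 11)]), ([(0, 11), (0, 15), (0, 1), (0, 4), (0, 12), (0,
  3), (2, 6), (2, 13), (2, 14), (2, 5), (7, 9), (7, 10)], [(0, 14), (0, 1), (0, 10), (0, 13), (0, 7), (0, 2),
  (0, 8), (0, 5), (0, 4), (0, 6), (0, 15), (0, 3), (9, 12)]), ([(0, 14), (0, 12), (0, 9), (0, 15), (0, 8), (0,
  1), (0, 3), (2, 4), (2, 11), (2, 7), (2, 10), (5, 6), (5, 13)], [(0, 6), (0, 4), (0, 15), (0, 10), (0, 13),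
  (0, 11), (0, 5), (0, 9), (0, 1), (0, 12), (0, 7), (0, 8), (0, 2), (0, 3)]), ([(0, 7), (0, 11), (0, 12), (0,
  3), (0, 10), (0, 8), (0, 5), (0, 1), (2, 4), (2, 14), (6, 13)], [(0, 8), (0, 6), (0, 4), (0, 1), (2, 9), (2,
  10), (2, 13), (2, 5), (2, 12), (3, 15), (11, 14)])]

lemma v0322_ok : OpAll 16 (law16 0 3 2 2) := opAll_of (c := v0322) (by decide +kernel)

def v0323 : List (List (ℕ × ℕ) × List (ℕ × ℕ)) := [([(0, 15), (0, 11), (0, 10), (0, 14), (0, 7), (0, 8), (0,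
  1), (0, 12), (0, 9), (0, 2), (3, 4), (3, 6), (3, 5), (3, 13)], [(0, 5), (0, 11), (0, 2), (1, 6), (1, 14),
  (1, 3), (1, 10), (1, 7), (1, 4), (1, 9), (8, 13), (8, 12)]), ([(1, 11), (1, 15), (1, 7), (1, 2), (1, 13),
  (1, 14), (1, 5), (1, 8), (1, 4), (1, 10), (1, 3), (9, 12)], [(1, 14), (1, 8), (1, 5), (1, 2), (3, 6), (3,
  15), (3, 13), (3, 10), (3, 11), (3, 7), (3, 12), (3, 4), (3, 9)]), ([(0, 13), (0, 12), (0, 8), (0, 14), (0,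
  9), (0, 7), (0, 5), (0, 4), (0, 15), (1, 11), (1, 2), (1, 10), (1, 6)], [(0, 3), (0, 12), (0, 6), (0, 9),
  (0, 2), (0, 4), (0, 14), (0, 7), (0, 1), (0, 5), (0, 8), (0, 10), (0, 11), (0, 15)]), ([(0, 10), (0, 2), (0,
  14), (1, 4), (1, 15), (1, 12), (1, 3), (1, 5), (1, 6), (1, 7), (1, 9), (1, 8), (11, 13)], [(0, 6), (0, 5),
  (0, 4), (0, 13), (0, 9), (0, 1), (0, 12), (0, 14), (2, 7), (2, 11), (2, 15), (2, 3), (2, 8)])]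

lemma v0323_ok : OpAll 16 (law16 0 3 2 3) := opAll_of (c := v0323) (by decide +kernel)

def v0330 : List (List (ℕ × ℕ) × List (ℕ × ℕ)) := [([(0, 11), (0, 1), (0, 15), (0, 8), (0, 13), (0, 9), (0,
  4), (0, 14), (0, 2), (5, 10), (5, 12), (5, 7)], [(0, 3), (0, 6), (0, 13), (0, 4), (0, 8), (0, 7), (0, 9),
  (0, 14), (0, 15), (0, 10), (0, 1), (0, 5), (0, 12), (0, 2)]), ([(0, 2), (0, 4), (0, 10), (0, 12), (0, 3),
  (0, 14), (0, 6), (0, 15), (0, 8), (7, 13), (7, 9), (7, 11)], [(0, 1), (0, 11), (0, 6), (0, 4), (0, 8), (3,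
  5), (3, 12), (3, 7), (3, 9), (3, 13), (3, 14), (3, 10), (3, 15)]), ([(0, 6), (0, 11), (1, 3), (1, 2), (1,
  8), (1, 15), (1, 9), (1, 13), (4, 10), (4, 5), (4, 14)], [(0, 12), (0, 1), (0, 2), (0, 3), (0, 7), (0, 13),
  (0, 11), (4, 15), (4, 5), (4, 9), (8, 14), (8, 10)]), ([(0, 4), (0, 2), (0, 12), (0, 10), (0, 11), (0, 6),
  (0, 15), (0, 5), (0, 7), (0, 8), (0, 3), (1, 13), (1, 9)], [(0, 14), (0, 12), (0, 13), (0, 6), (0, 2), (0,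
  11), (0, 3), (1, 7), (1, 9), (1, 5), (1, 10), (1, 15), (1, 8)])]

lemma v0330_ok : OpAll 16 (law16 0 3 3 0) := opAll_of (c := v0330) (by decide +kernel)

def v0331 : List (List (ℕ × ℕ) × List (ℕ × ℕ)) := [([(0, 12), (0, 7), (0, 15), (0, 1), (0, 14), (0, 11), (0,
  8), (0, 13), (0, 10), (0, 3), (2, 6), (2, 4), (2, 5), (2, 9)], [(0, 8), (0, 7), (0, 11), (0, 2), (0, 5), (0,
  10), (0, 15), (0, 14), (0, 1), (0, 4), (0, 6), (0, 13), (0, 9), (0, 3)]), ([(0, 9), (0, 10), (0, 6), (0, 3),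
  (0, 5), (0, 7), (0, 13), (0, 4), (0, 11), (1, 14), (1, 8), (1, 12), (1, 15), (1, 2)], [(0, 10), (0, 4), (0,
  8), (0, 13), (0, 2), (0, 15), (0, 14), (0, 11), (1, 7), (1, 12), (1, 6), (1, 5), (1, 3)]), ([(0, 6), (0,
  15), (0, 4), (0, 5), (0, 1), (0, 11), (0, 8), (0, 12), (0, 3), (0, 10), (0, 7), (0, 2), (0, 14)], [(0, 8),
  (0, 4), (0, 1), (0, 13), (0, 7), (0, 12), (0, 14), (2, 5), (3, 9), (3, 10), (3, 11), (3, 15)]), ([(0, 13),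
  (0, 2), (0, 3), (0, 10), (1, 6), (1, 15), (4, 14), (4, 9), (4, 5), (8, 11), (8, 12)], [(0, 11), (0, 15), (0,
  2), (0, 4), (0, 12), (0, 5), (0, 9), (0, 10), (1, 3), (1, 7), (1, 6), (1, 8), (1, 14)])]

lemma v0331_ok : OpAll 16 (law16 0 3 3 1) := opAll_of (c := v0331) (by decide +kernel)

def v0332 : List (List (ℕ × ℕ) × List (ℕ × ℕ)) := [([(0, 8), (0, 12), (1, 4), (1, 5), (1, 15), (1, 13), (1,
  3), (1, 14), (1, 7), (2, 11), (2, 9), (2, 6)], [(0, 13), (0, 14), (0, 3), (0, 10), (0, 7), (0, 12), (1, 9),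
  (1, 11), (1, 15), (1, 6), (2, 5), (2, 4)]), ([(0, 14), (0, 1), (0, 11), (0, 6), (0, 12), (0, 9), (0, 15),
  (0, 3), (2, 10), (2, 8), (2, 13), (2, 7), (2, 4), (2, 5)], [(0, 4), (0, 9), (0, 7), (0, 2), (0, 5), (0, 15),
  (0, 1), (0, 8), (0, 10), (0, 11), (0, 12), (0, 3), (6, 13)]), ([(0, 2), (0, 5), (0, 14), (0, 12), (0, 13),
  (0, 10), (0, 3), (0, 6), (0, 11), (0, 9), (0, 1), (0, 15), (0, 7), (0, 8), (0, 4)], [(0, 12), (0, 4), (1,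
  9), (1, 3), (1, 13), (1, 8), (5, 6), (5, 10), (5, 14), (5, 15), (5, 11), (5, 7)]), ([(0, 11), (0, 9), (0,
  6), (0, 5), (0, 2), (0, 10), (0, 15), (0, 14), (0, 7), (0, 3), (0, 13), (1, 8), (1, 4)], [(0, 5), (0, 1),
  (0, 9), (0, 8), (0, 10), (0, 7), (0, 2), (0, 12), (0, 4), (0, 3), (0, 14), (0, 13), (6, 15)])]

lemma v0332_ok : OpAll 16 (law16 0 3 3 2) := opAll_of (c := v0332) (by decide +kernel)

def v0333 : List (List (ℕ × ℕ) × List (ℕ × ℕ)) := [([(0, 4), (0, 3), (0, 9), (0, 2), (0, 14), (0, 5), (1, 15),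
  (1, 12), (7, 11), (7, 10), (7, 8), (7, 13)], [(0, 12), (0, 14), (0, 15), (0, 11), (0, 2), (0, 10), (0, 9),
  (0, 7), (0, 3), (0, 6), (0, 13), (0, 1), (0, 8), (0, 5)]), ([(0, 7), (0, 2), (0, 10), (0, 11), (0, 1), (0,
  15), (0, 12), (0, 14), (0, 4), (3, 8), (3, 5), (6, 9)], [(0, 12), (0, 9), (0, 4), (1, 14), (1, 15), (1, 6),
  (1, 3), (1, 13), (1, 5), (1, 2), (1, 11), (1, 8), (1, 10)]), ([(0, 8), (0, 5), (0, 10), (0, 12), (0, 11),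
  (0, 4), (0, 6), (0, 2), (0, 9), (1, 3), (1, 13), (1, 14), (1, 7)], [(0, 14), (0, 13), (0, 5), (0, 12), (0,
  10), (0, 7), (0, 11), (0, 9), (1, 6), (2, 3), (2, 15), (2, 4)]), ([(0, 14), (0, 8), (0, 11), (0, 10), (1,
  5), (1, 2), (1, 9), (1, 4), (1, 12), (1, 3), (1, 6), (1, 15), (1, 13)], [(0, 11), (0, 9), (0, 15), (0, 3),
  (0, 7), (0, 2), (0, 10), (1, 13), (1, 4), (1, 5), (1, 6), (1, 8), (1, 12)])]

lemma v0333_ok : OpAll 16 (law16 0 3 3 3) := opAll_of (c := v0333) (by decide +kernel)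

def v1000 : List (List (ℕ × ℕ) × List (ℕ × ℕ)) := [([(0, 6), (0, 2), (0, 15), (0, 7), (0, 5), (0, 10), (0, 9),
  (0, 3), (0, 8), (0, 1), (0, 14), (0, 11), (0, 12), (0, 13)], [(0, 4), (0, 2), (0, 5), (0, 11), (0, 8), (0,
  7), (0, 12), (0, 14), (0, 15), (0, 10), (0, 3), (0, 9), (0, 1), (0, 13)]), ([(0, 8), (0, 14), (0, 7), (0,
  3), (0, 6), (0, 9), (0, 13), (0, 1), (0, 15), (0, 12), (0, 5), (0, 4), (0, 10), (0, 11)], [(0, 2), (0, 4),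
  (0, 3), (0, 12), (0, 1), (0, 11), (5, 6), (5, 14), (5, 10), (5, 7), (5, 13), (5, 15), (5, 9)]), ([(0, 9),
  (0, 14), (0, 3), (0, 8), (0, 7), (1, 12), (1, 13), (1, 11), (2, 4), (2, 6), (2, 10)], [(0, 15), (0, 7), (1,
  13), (1, 3), (1, 5), (1, 4), (1, 14), (1, 12), (1, 10), (2, 6), (2, 11), (2, 8)]), ([(0, 9), (0, 6), (0, 7),
  (1, 12), (2, 10), (2, 13), (2, 15), (2, 4), (2, 11), (2, 14), (2, 8)], [(0, 3), (0, 5), (0, 14), (0, 12),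
  (0, 6), (0, 8), (0, 10), (0, 2), (0, 7), (1, 15), (1, 11), (1, 4), (1, 13)])]

lemma v1000_ok : OpAll 16 (law16 1 0 0 0) := opAll_of (c := v1000) (by decide +kernel)

def v1003 : List (List (ℕ × ℕ) × List (ℕ × ℕ)) := [([(1, 15), (1, 6), (1, 10), (1, 8), (1, 13), (1, 9), (1,
  4), (1, 12), (1, 11), (1, 7), (1, 14), (1, 5), (1, 3), (1, 2)], [(1, 2), (1, 8), (1, 5), (1, 13), (1, 15),
  (1, 10), (1, 14), (1, 4), (1, 11), (1, 12), (1, 7), (1, 9), (1, 6), (1, 3)]), ([(0, 10), (0, 11), (0, 15),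
  (0, 3), (0, 8), (0, 7), (0, 1), (0, 9), (0, 13), (0, 14), (0, 4), (0, 6), (0, 5), (2, 12)], [(0, 5), (1,
  11), (1, 8), (1, 9), (1, 4), (1, 15), (1, 7), (1, 13), (1, 12), (1, 3), (1, 14), (1, 2), (1, 6)]), ([(0, 4),
  (0, 9), (0, 3), (0, 6), (0, 14), (0, 1), (5, 10), (5, 8), (7, 15), (7, 11), (7, 13)], [(0, 2), (0, 8), (0,
  14), (0, 9), (0, 7), (0, 11), (0, 15), (0, 1), (3, 12), (3, 10), (5, 6), (5, 13)]), ([(0, 9), (0, 12), (0,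
  6), (0, 14), (0, 15), (0, 3), (0, 8), (0, 10), (0, 13), (0, 2), (0, 1), (0, 7), (5, 11)], [(0, 4), (0, 13),
  (0, 11), (0, 8), (0, 14), (0, 5), (0, 7), (1, 15), (1, 2), (1, 10), (1, 6), (1, 12), (1, 3)])]

lemma v1003_ok : OpAll 16 (law16 1 0 0 3) := opAll_of (c := v1003) (by decide +kernel)

def v1030 : List (List (ℕ × ℕ) × List (ℕ × ℕ)) := [([(0, 10), (0, 9), (0, 2), (0, 5), (0, 4), (0, 8), (0, 13),
  (0, 3), (1, 7), (1, 15), (1, 11), (1, 6), (1, 12), (1, 14)], [(0, 9), (0, 12), (0, 8), (0, 15), (0, 1), (0,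
  14), (0, 3), (2, 4), (2, 5), (2, 7), (2, 11), (6, 13)]), ([(0, 12), (0, 10), (0, 8), (0, 9), (0, 3), (0, 5),
  (0, 13), (0, 2), (0, 1), (0, 6), (0, 11), (0, 15), (0, 7), (0, 14)], [(0, 4), (0, 6), (0, 5), (0, 10), (0,
  3), (0, 1), (0, 8), (0, 7), (0, 15), (0, 2), (0, 9), (0, 14), (11, 13)]), ([(0, 14), (0, 15), (0, 9), (0,
  7), (0, 12), (0, 5), (0, 6), (0, 10), (0, 13), (0, 8), (0, 2), (0, 1), (0, 3), (0, 11), (0, 4)], [(0, 6),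
  (0, 8), (0, 11), (0, 12), (0, 10), (0, 2), (0, 3), (0, 1), (0, 15), (0, 4), (5, 9), (7, 13)]), ([(0, 15),
  (0, 1), (0, 2), (0, 12), (0, 5), (0, 9), (0, 8), (0, 10), (0, 14), (0, 11), (3, 6), (3, 13), (3, 4)], [(0,
  7), (0, 3), (0, 2), (0, 8), (0, 13), (0, 12), (0, 9), (0, 5), (0, 6), (0, 11), (1, 10), (1, 4), (1, 14)])]

lemma v1030_ok : OpAll 16 (law16 1 0 3 0) := opAll_of (c := v1030) (by decide +kernel)

def v1033 : List (List (ℕ × ℕ) × List (ℕ × ℕ)) := [([(0, 1), (0, 10), (0, 15), (0, 11), (0, 3), (0, 14), (0,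
  9), (0, 4), (0, 7), (0, 8), (0, 13), (0, 2), (5, 6), (5, 12)], [(0, 6), (0, 13), (0, 14), (0, 4), (0, 11),
  (0, 10), (0, 12), (0, 8), (0, 3), (0, 7), (0, 9), (0, 5), (0, 15), (0, 2)]), ([(0, 15), (0, 11), (0, 7), (0,
  9), (0, 1), (0, 3), (0, 13), (0, 8), (0, 2), (0, 6), (5, 14), (5, 12)], [(0, 4), (0, 11), (0, 14), (0, 13),
  (0, 9), (0, 5), (0, 8), (0, 1), (0, 12), (0, 7), (0, 6), (2, 3), (2, 10)]), ([(0, 3), (0, 12), (0, 5), (0,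
  7), (0, 14), (0, 15), (0, 10), (0, 13), (0, 11), (1, 6), (1, 8), (1, 4), (1, 9)], [(0, 2), (0, 15), (0, 12),
  (0, 4), (0, 6), (0, 11), (1, 7), (1, 13), (1, 8), (5, 10), (5, 14), (5, 9)]), ([(0, 10), (0, 1), (0, 8), (0,
  5), (0, 7), (3, 12), (3, 4), (3, 9), (3, 6), (11, 14), (11, 15)], [(0, 2), (0, 15), (0, 12), (0, 6), (0,
  14), (0, 9), (0, 8), (0, 4), (0, 11), (0, 1), (0, 7), (3, 13), (3, 5)])]

lemma v1033_ok : OpAll 16 (law16 1 0 3 3) := opAll_of (c := v1033) (by decide +kernel)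

def v1300 : List (List (ℕ × ℕ) × List (ℕ × ℕ)) := [([(0, 11), (0, 7), (0, 9), (0, 3), (0, 6), (0, 1), (0, 15),
  (0, 5), (0, 13), (0, 2), (8, 12), (8, 14)], [(0, 10), (0, 3), (0, 4), (0, 12), (0, 7), (0, 1), (0, 14), (0,
  9), (0, 5), (0, 6), (0, 8), (0, 13), (0, 15), (0, 2)]), ([(0, 15), (0, 11), (1, 14), (1, 7), (1, 4), (1, 6),
  (1, 12), (1, 2), (1, 10), (1, 9), (1, 13), (1, 8), (1, 5), (1, 3)], [(0, 4), (0, 11), (1, 6), (1, 3), (1,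
  9), (1, 7), (1, 13), (1, 5), (1, 8), (1, 10), (1, 12), (1, 14), (1, 2)]), ([(0, 4), (0, 1), (0, 15), (0,
  12), (0, 6), (2, 8), (2, 3), (2, 11), (2, 9), (2, 13), (2, 14), (5, 10), (5, 7)], [(0, 12), (0, 2), (0, 9),
  (0, 6), (1, 5), (3, 14), (3, 7), (3, 13), (3, 15), (3, 10), (3, 8), (3, 11)]), ([(0, 11), (0, 7), (0, 2),
  (0, 5), (0, 8), (0, 6), (0, 14), (0, 1), (0, 3), (0, 10), (9, 13), (9, 12), (9, 15)], [(0, 15), (0, 1), (0,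
  12), (0, 7), (0, 13), (0, 8), (0, 14), (0, 6), (0, 9), (0, 10), (2, 3), (2, 4), (2, 5)])]

lemma v1300_ok : OpAll 16 (law16 1 3 0 0) := opAll_of (c := v1300) (by decide +kernel)

def v1303 : List (List (ℕ × ℕ) × List (ℕ × ℕ)) := [([(0, 10), (0, 11), (0, 13), (0, 1), (0, 6), (0, 3), (0,
  4), (0, 12), (0, 14), (0, 5), (0, 9), (2, 15)], [(0, 8), (0, 12), (0, 1), (0, 11), (0, 5), (0, 3), (0, 7),
  (0, 4), (0, 6), (0, 13), (0, 2), (0, 14), (0, 15), (0, 9)]), ([(0, 2), (0, 12), (0, 6), (0, 11), (0, 1), (3,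
  4), (3, 7), (3, 8), (5, 9), (5, 15), (5, 10), (5, 13)], [(0, 7), (0, 4), (0, 13), (0, 12), (0, 8), (0, 5),
  (0, 15), (0, 9), (0, 6), (0, 10), (0, 1), (3, 14), (3, 11)]), ([(0, 2), (0, 10), (0, 11), (0, 6), (1, 5),
  (3, 9), (3, 4), (3, 8), (3, 13), (3, 14), (3, 7), (3, 12), (3, 15)], [(0, 14), (0, 4), (0, 1), (0, 11), (0,
  12), (0, 3), (0, 15), (0, 8), (0, 10), (0, 9), (0, 7), (0, 5), (0, 13), (0, 6)]), ([(0, 3), (0, 8), (0, 12),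
  (0, 14), (0, 6), (0, 7), (0, 13), (0, 9), (0, 5), (2, 15), (2, 10), (2, 4), (2, 11)], [(0, 1), (0, 7), (0,
  9), (0, 2), (0, 14), (0, 15), (0, 5), (4, 12), (4, 11), (4, 8), (4, 6), (4, 10), (4, 13)])]

lemma v1303_ok : OpAll 16 (law16 1 3 0 3) := opAll_of (c := v1303) (by decide +kernel)

def v1330 : List (List (ℕ × ℕ) × List (ℕ × ℕ)) := [([(0, 7), (0, 2), (0, 9), (0, 5), (0, 3), (0, 11), (0, 10),
  (0, 14), (0, 12), (0, 15), (0, 1), (0, 8), (0, 4), (0, 13)], [(0, 6), (0, 3), (0, 15), (0, 5), (0, 2), (0,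
  10), (0, 13), (1, 12), (1, 4), (1, 14), (8, 11), (8, 9)]), ([(0, 6), (0, 13), (0, 14), (1, 2), (1, 10), (1,
  15), (1, 3), (1, 4), (1, 9), (1, 8), (1, 7), (1, 5), (1, 12), (1, 11)], [(0, 14), (1, 5), (1, 15), (1, 7),
  (1, 4), (1, 11), (1, 13), (1, 9), (1, 12), (1, 3), (1, 2), (1, 8), (1, 10)]), ([(0, 8), (0, 9), (0, 6), (0,
  7), (1, 11), (1, 14), (2, 4), (2, 12), (2, 15), (3, 13), (3, 10)], [(0, 5), (0, 4), (0, 10), (0, 11), (0,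
  12), (0, 6), (0, 14), (0, 13), (0, 2), (0, 9), (0, 3), (0, 15), (0, 1), (0, 7)]), ([(0, 4), (0, 14), (0,
  12), (0, 2), (0, 13), (0, 11), (0, 3), (0, 8), (0, 9), (0, 7), (5, 15), (5, 10), (5, 6)], [(0, 1), (0, 12),
  (0, 13), (0, 7), (2, 9), (2, 14), (3, 5), (3, 11), (3, 8), (6, 10), (6, 15)])]

lemma v1330_ok : OpAll 16 (law16 1 3 3 0) := opAll_of (c := v1330) (by decide +kernel)

def v1333 : List (List (ℕ × ℕ) × List (ℕ × ℕ)) := [([(0, 5), (0, 3), (0, 11), (0, 7), (0, 10), (0, 6), (0, 1),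
  (0, 8), (0, 15), (0, 13), (4, 14), (4, 12)], [(0, 2), (0, 12), (0, 7), (0, 1), (0, 13), (3, 9), (3, 8), (3,
  11), (3, 4), (3, 15), (3, 6), (10, 14)]), ([(0, 1), (0, 7), (0, 11), (0, 10), (0, 14), (0, 9), (0, 3), (0,
  8), (0, 6), (0, 5), (0, 15), (0, 4), (0, 2), (0, 12)], [(0, 13), (0, 12), (2, 10), (2, 3), (2, 5), (2, 7),
  (2, 9), (2, 15), (2, 11), (2, 8), (2, 4), (2, 14), (2, 6)]), ([(0, 6), (0, 15), (0, 14), (0, 7), (0, 3), (0,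
  12), (0, 2), (0, 13), (0, 10), (0, 4), (0, 1), (0, 9), (0, 11)], [(0, 5), (0, 1), (0, 11), (2, 14), (3, 8),
  (3, 9), (3, 7), (3, 10), (3, 15), (3, 12), (3, 13), (3, 4)]), ([(0, 4), (0, 9), (0, 7), (0, 11), (0, 3), (0,
  2), (5, 15), (5, 6), (5, 14), (5, 13), (5, 8), (5, 12), (5, 10)], [(0, 1), (0, 2), (3, 13), (3, 7), (3, 12),
  (3, 5), (3, 8), (6, 10), (9, 15), (9, 11), (9, 14)])]

lemma v1333_ok : OpAll 16 (law16 1 3 3 3) := opAll_of (c := v1333) (by decide +kernel)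

theorem t_V72 : S_V72 := by
  intro a u v w h
  rcases h with ⟨rfl, hu, hv, hw⟩ | ⟨rfl, hu, hv, hw⟩
  · interval_cases u <;> interval_cases v <;> interval_cases w
    exacts [v0000_ok, v0001_ok, v0002_ok, v0003_ok, v0010_ok, v0011_ok, v0012_ok, v0013_ok, v0020_ok, v0021_ok, v0022_ok,
        v0023_ok, v0030_ok, v0031_ok, v0032_ok, v0033_ok, v0100_ok, v0101_ok, v0102_ok, v0103_ok, v0110_ok,
        v0111_ok, v0112_ok, v0113_ok, v0120_ok, v0121_ok, v0122_ok, v0123_ok, v0130_ok, v0131_ok, v0132_ok,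
        v0133_ok, v0200_ok, v0201_ok, v0202_ok, v0203_ok, v0210_ok, v0211_ok, v0212_ok, v0213_ok, v0220_ok,
        v0221_ok, v0222_ok, v0223_ok, v0230_ok, v0231_ok, v0232_ok, v0233_ok, v0300_ok, v0301_ok, v0302_ok,
        v0303_ok, v0310_ok, v0311_ok, v0312_ok, v0313_ok, v0320_ok, v0321_ok, v0322_ok, v0323_ok, v0330_ok,
        v0331_ok, v0332_ok, v0333_ok]
  · rcases hu with rfl | rfl <;> rcases hv with rfl | rfl <;> rcases hw with rfl | rfl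
    exacts [v1000_ok, v1003_ok, v1030_ok, v1033_ok, v1300_ok, v1303_ok, v1330_ok, v1333_ok]

end H42.CM
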